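import Mathlib.Logic.Godel.GodelBetaFunction
import Mathlib.Data.Nat.Pairing
import Mathlib.Data.Set.Lattice

/-!
# Second-order arithmetic: syntax, truth, derivations, `Σ¹₁-AC₀` and `Π¹₁`-reflection

The language of second-order arithmetic with named variables: number variables `x_0, x_1, …` and set
variables `X_0, X_1, …`. Primitive connectives are `⊥` and `→`.
-/

set_option autoImplicit false

namespace Pool.Agent.D0H65.PS

/-! ### Syntax -/

/-- Number terms. -/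
inductive Tm : Type
  | var (i : ℕ)
  | zero
  | one
  | add (s t : Tm)
  | mul (s t : Tm)

/-- Formulas: `mem t j` is `t ∈ X_j`, `allN i φ` is `∀ x_i φ`, `allS j φ` is `∀ X_j φ`. -/
inductive Fm : Type
  | eq (s t : Tm)
  | lt (s t : Tm)
  | mem (t : Tm) (j : ℕ)
  | bot
  | imp (φ ψ : Fm)
  | allN (i : ℕ) (φ : Fm)
  | allS (j : ℕ) (φ : Fm)

namespace Fm

/-- `¬ φ` -/
def neg (φ : Fm) : Fm := imp φ bot
/-- `φ ∧ ψ` -/
def and (φ ψ : Fm) : Fm := neg (imp φ (neg ψ))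
/-- `φ ∨ ψ` -/
def or (φ ψ : Fm) : Fm := imp (neg φ) ψ
/-- `φ ↔ ψ` -/
def iff (φ ψ : Fm) : Fm := and (imp φ ψ) (imp ψ φ)
/-- `∃ x_i φ` -/
def exN (i : ℕ) (φ : Fm) : Fm := neg (allN i (neg φ))
/-- `∃ X_j φ` -/
def exS (j : ℕ) (φ : Fm) : Fm := neg (allS j (neg φ))

end Fm

/-! ### Truth in the standard model -/

/-- The value of a term. -/
def Tm.val (v : ℕ → ℕ) : Tm → ℕ
  | .var i => v i
  | .zero => 0
  | .one => 1
  | .add s t => s.val v + t.val v
  | .mul s t => s.val v * t.val v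

/-- Truth of a formula in the standard model (`ℕ` with all subsets of `ℕ`), `x_i` being interpreted
by `v i` and `X_j` by `V j`. -/
def Fm.Sat : Fm → (ℕ → ℕ) → (ℕ → Set ℕ) → Prop
  | .eq s t, v, _ => s.val v = t.val v
  | .lt s t, v, _ => s.val v < t.val v
  | .mem t j, v, V => t.val v ∈ V j
  | .bot, _, _ => False
  | .imp φ ψ, v, V => φ.Sat v V → ψ.Sat v V
  | .allN i φ, v, V => ∀ a : ℕ, φ.Sat (Function.update v i a) V
  | .allS j φ, v, V => ∀ A : Set ℕ, φ.Sat v (Function.update V j A)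

/-! ### Free variables, sentences, substitution -/

/-- `x_i` occurs in the term. -/
def Tm.Occ (i : ℕ) : Tm → Prop
  | .var k => k = i
  | .zero => False
  | .one => False
  | .add s t => s.Occ i ∨ t.Occ i
  | .mul s t => s.Occ i ∨ t.Occ i

/-- `x_i` is free in the formula. -/
def Fm.FreeN (i : ℕ) : Fm → Prop
  | .eq s t => s.Occ i ∨ t.Occ i
  | .lt s t => s.Occ i ∨ t.Occ i
  | .mem t _ => t.Occ i
  | .bot => False
  | .imp φ ψ => φ.FreeN i ∨ ψ.FreeN i
  | .allN k φ => k ≠ i ∧ φ.FreeN i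
  | .allS _ φ => φ.FreeN i

/-- `X_j` is free in the formula. -/
def Fm.FreeS (j : ℕ) : Fm → Prop
  | .eq _ _ => False
  | .lt _ _ => False
  | .mem _ k => k = j
  | .bot => False
  | .imp φ ψ => φ.FreeS j ∨ ψ.FreeS j
  | .allN _ φ => φ.FreeS j
  | .allS k φ => k ≠ j ∧ φ.FreeS j

/-- A sentence: no free variables. -/
def Fm.IsSentence (φ : Fm) : Prop := (∀ i, ¬ φ.FreeN i) ∧ ∀ j, ¬ φ.FreeS j

/-- Truth of a sentence in the standard model. -/
def Fm.IsTrue (φ : Fm) : Prop := φ.Sat (fun _ => 0) (fun _ => ∅)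

/-- Substitution of `u` for `x_i` in a term. -/
def Tm.sub (i : ℕ) (u : Tm) : Tm → Tm
  | .var k => if k = i then u else .var k
  | .zero => .zero
  | .one => .one
  | .add s t => .add (Tm.sub i u s) (Tm.sub i u t)
  | .mul s t => .mul (Tm.sub i u s) (Tm.sub i u t)

/-- Substitution of `u` for the free occurrences of `x_i` in a formula. -/
def Fm.subN (i : ℕ) (u : Tm) : Fm → Fm
  | .eq s t => .eq (Tm.sub i u s) (Tm.sub i u t)
  | .lt s t => .lt (Tm.sub i u s) (Tm.sub i u t)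
  | .mem t j => .mem (Tm.sub i u t) j
  | .bot => .bot
  | .imp φ ψ => .imp (φ.subN i u) (ψ.subN i u)
  | .allN k φ => if k = i then .allN k φ else .allN k (φ.subN i u)
  | .allS j φ => .allS j (φ.subN i u)

/-- The term `u` is free for `x_i` in the formula. -/
def Fm.OkN (i : ℕ) (u : Tm) : Fm → Prop
  | .eq _ _ => True
  | .lt _ _ => True
  | .mem _ _ => True
  | .bot => True
  | .imp φ ψ => φ.OkN i u ∧ ψ.OkN i u
  | .allN k φ => (k = i ∨ ¬ φ.FreeN i) ∨ (¬ u.Occ k ∧ φ.OkN i u)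
  | .allS _ φ => φ.OkN i u

/-- Substitution of `X_k` for the free occurrences of `X_j` in a formula. -/
def Fm.subS (j k : ℕ) : Fm → Fm
  | .eq s t => .eq s t
  | .lt s t => .lt s t
  | .mem t l => .mem t (if l = j then k else l)
  | .bot => .bot
  | .imp φ ψ => .imp (φ.subS j k) (ψ.subS j k)
  | .allN i φ => .allN i (φ.subS j k)
  | .allS l φ => if l = j then .allS l φ else .allS l (φ.subS j k)

/-- The variable `X_k` is free for `X_j` in the formula. -/
def Fm.OkS (j k : ℕ) : Fm → Prop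
  | .eq _ _ => True
  | .lt _ _ => True
  | .mem _ _ => True
  | .bot => True
  | .imp φ ψ => φ.OkS j k ∧ ψ.OkS j k
  | .allN _ φ => φ.OkS j k
  | .allS l φ => (l = j ∨ ¬ φ.FreeS j) ∨ (l ≠ k ∧ φ.OkS j k)

/-! ### Natural deduction -/

/-- Natural deduction for the two-sorted classical predicate logic with equality between numbers:
`Prv Γ φ` says that `φ` is derivable from the finitely many assumptions `Γ`. -/
inductive Prv : List Fm → Fm → Prop
  | ax {Γ : List Fm} {φ : Fm} : φ ∈ Γ → Prv Γ φ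
  | weak {Γ Δ : List Fm} {φ : Fm} : Γ ⊆ Δ → Prv Γ φ → Prv Δ φ
  | impI {Γ : List Fm} {φ ψ : Fm} : Prv (φ :: Γ) ψ → Prv Γ (.imp φ ψ)
  | impE {Γ : List Fm} {φ ψ : Fm} : Prv Γ (.imp φ ψ) → Prv Γ φ → Prv Γ ψ
  | dne {Γ : List Fm} {φ : Fm} : Prv Γ φ.neg.neg → Prv Γ φ
  | allNI {Γ : List Fm} {i : ℕ} {φ : Fm} : (∀ ψ ∈ Γ, ¬ ψ.FreeN i) → Prv Γ φ → Prv Γ (.allN i φ)
  | allNE {Γ : List Fm} {i : ℕ} {φ : Fm} {u : Tm} : φ.OkN i u → Prv Γ (.allN i φ) →
      Prv Γ (φ.subN i u)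
  | allSI {Γ : List Fm} {j : ℕ} {φ : Fm} : (∀ ψ ∈ Γ, ¬ ψ.FreeS j) → Prv Γ φ → Prv Γ (.allS j φ)
  | allSE {Γ : List Fm} {j k : ℕ} {φ : Fm} : φ.OkS j k → Prv Γ (.allS j φ) → Prv Γ (φ.subS j k)
  | refl {Γ : List Fm} {t : Tm} : Prv Γ (.eq t t)
  | rw {Γ : List Fm} {i : ℕ} {s t : Tm} {φ : Fm} : φ.OkN i s → φ.OkN i t → Prv Γ (.eq s t) →
      Prv Γ (φ.subN i s) → Prv Γ (φ.subN i t)

/-- `φ` is a theorem of the theory `T`: it is derivable from finitely many elements of `T`. -/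
def Thm (T : Set Fm) (φ : Fm) : Prop := ∃ Γ : List Fm, (∀ ψ ∈ Γ, ψ ∈ T) ∧ Prv Γ φ

/-! ### Classes of formulas -/

/-- Arithmetical formulas: no set quantifiers (free set variables are allowed). -/
def Fm.IsArith : Fm → Prop
  | .eq _ _ => True
  | .lt _ _ => True
  | .mem _ _ => True
  | .bot => True
  | .imp φ ψ => φ.IsArith ∧ ψ.IsArith
  | .allN _ φ => φ.IsArith
  | .allS _ _ => False

/-- `Π¹₁` formulas: `∀ X_{j_1} … ∀ X_{j_k} θ` with `θ` arithmetical. -/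
inductive Fm.IsPi11 : Fm → Prop
  | arith {φ : Fm} : φ.IsArith → φ.IsPi11
  | all {j : ℕ} {φ : Fm} : φ.IsPi11 → (Fm.allS j φ).IsPi11

/-- `Σ¹₁` formulas: `∃ X_{j_1} … ∃ X_{j_k} θ` with `θ` arithmetical. -/
inductive Fm.IsSigma11 : Fm → Prop
  | arith {φ : Fm} : φ.IsArith → φ.IsSigma11
  | ex {j : ℕ} {φ : Fm} : φ.IsSigma11 → (Fm.exS j φ).IsSigma11

/-! ### The theory `Σ¹₁-AC₀` -/

/-- The instances of the axioms of `Σ¹₁-AC₀`, with free variables. The pair of `m` and `n` is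
`(m + n) * (m + n) + m`. -/
inductive Inst : Fm → Prop
  | succ_ne_zero : Inst (Fm.neg (.eq (.add (.var 0) .one) .zero))
  | succ_inj : Inst (.imp (.eq (.add (.var 0) .one) (.add (.var 1) .one)) (.eq (.var 0) (.var 1)))
  | add_zero : Inst (.eq (.add (.var 0) .zero) (.var 0))
  | add_succ : Inst (.eq (.add (.var 0) (.add (.var 1) .one)) (.add (.add (.var 0) (.var 1)) .one))
  | mul_zero : Inst (.eq (.mul (.var 0) .zero) .zero)
  | mul_succ : Inst (.eq (.mul (.var 0) (.add (.var 1) .one))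
      (.add (.mul (.var 0) (.var 1)) (.var 0)))
  | not_lt_zero : Inst (Fm.neg (.lt (.var 0) .zero))
  | lt_succ : Inst (Fm.iff (.lt (.var 0) (.add (.var 1) .one))
      (Fm.or (.lt (.var 0) (.var 1)) (.eq (.var 0) (.var 1))))
  /-- the induction axiom -/
  | ind : Inst (.imp (Fm.and (.mem .zero 0) (.allN 0 (.imp (.mem (.var 0) 0)
      (.mem (.add (.var 0) .one) 0)))) (.allN 0 (.mem (.var 0) 0)))
  /-- arithmetical comprehension: `∃ X_j ∀ x_i (x_i ∈ X_j ↔ φ)`, `X_j` not free in `φ` -/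
  | comp (i j : ℕ) (φ : Fm) : φ.IsArith → ¬ φ.FreeS j →
      Inst (Fm.exS j (.allN i (Fm.iff (.mem (.var i) j) φ)))
  /-- `Σ¹₁` choice: `∀ x_i ∃ X_j φ → ∃ X_k ∀ x_i ∃ X_j (X_j = (X_k)_{x_i} ∧ φ)`, with `X_k` not
  free in `φ`, where `X_j = (X_k)_{x_i}` is `∀ x_m (x_m ∈ X_j ↔ (x_i, x_m) ∈ X_k)` -/
  | choice (i m j k : ℕ) (φ : Fm) : φ.IsSigma11 → ¬ φ.FreeS k → m ≠ i → k ≠ j →
      Inst (.imp (.allN i (Fm.exS j φ)) (Fm.exS k (.allN i (Fm.exS j (Fm.and
        (.allN m (Fm.iff (.mem (.var m) j)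
          (.mem (.add (.mul (.add (.var i) (.var m)) (.add (.var i) (.var m))) (.var i)) k)))
        φ)))))

/-- `∀ x_{n-1} … ∀ x_0 φ` -/
def closeN : ℕ → Fm → Fm
  | 0, φ => φ
  | n + 1, φ => .allN n (closeN n φ)

/-- `∀ X_{m-1} … ∀ X_0 φ` -/
def closeS : ℕ → Fm → Fm
  | 0, φ => φ
  | m + 1, φ => .allS m (closeS m φ)

/-- The theory `Σ¹₁-AC₀`: the universal closures of the instances of its axioms. -/
def Sigma11AC0 : Set Fm :=
  {ψ | ψ.IsSentence ∧ ∃ n m φ, Inst φ ∧ ψ = closeN n (closeS m φ)}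

/-! ### Gödel numbers -/

/-- Gödel number of a term. -/
def Tm.code : Tm → ℕ
  | .zero => 0
  | .one => 1
  | .var i => 3 * i + 2
  | .add s t => 3 * Nat.pair s.code t.code + 3
  | .mul s t => 3 * Nat.pair s.code t.code + 4

/-- Gödel number of a formula. -/
def Fm.code : Fm → ℕ
  | .bot => 0
  | .eq s t => 6 * Nat.pair s.code t.code + 1
  | .lt s t => 6 * Nat.pair s.code t.code + 2
  | .mem t j => 6 * Nat.pair t.code j + 3
  | .imp φ ψ => 6 * Nat.pair φ.code ψ.code + 4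
  | .allN i φ => 6 * Nat.pair i φ.code + 5
  | .allS j φ => 6 * Nat.pair j φ.code + 6

/-! ### Provability predicates, truth predicates, reflection -/

/-- The formulas of an arithmetization:
* `E(x_1, x_2)`: `x_2` is an element of the finite set with code `x_1`,
* `P(x_0, x_1)`: the formula with Gödel number `x_0` is derivable from formulas whose Gödel numbers
  are elements of the finite set with code `x_1`,
* `S(x_0)`: `x_0` is the Gödel number of a `Π¹₁` sentence,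
* `∀ X_j θ(x_0, X_j)`: truth of the `Π¹₁` sentence with Gödel number `x_0`,
* `σ(x_2)`: `x_2` is the Gödel number of an axiom of `Σ¹₁-AC₀`. -/
structure Arithmetization where
  E : Fm
  P : Fm
  S : Fm
  j : ℕ
  θ : Fm
  σ : Fm

namespace Arithmetization

/-- The truth predicate `∀ X_j θ(x_0, X_j)` for `Π¹₁` sentences. -/
def Tr (A : Arithmetization) : Fm := .allS A.j A.θ

/-- The provability predicate `Pr_τ(x_0)` of the theory whose axioms are defined by the formula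
`τ(x_2)`: there is a finite set `x_1` all of whose elements satisfy `τ` such that the formula with
Gödel number `x_0` is derivable from `x_1`. -/
def Pr (A : Arithmetization) (τ : Fm) : Fm :=
  Fm.exN 1 (Fm.and A.P (.allN 2 (.imp A.E τ)))

/-- The `Π¹₁`-reflection sentence `∀ x_0 (S(x_0) → (Pr_τ(x_0) → Tr(x_0)))`: the theory defined by
`τ` is `Π¹₁`-sound. -/
def RFN (A : Arithmetization) (τ : Fm) : Fm :=
  .allN 0 (.imp A.S (.imp (A.Pr τ) A.Tr))

/-- The formulas of the arithmetization are arithmetical, have no other free variables than the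
indicated ones and are correct in the standard model. -/
structure Correct (A : Arithmetization) : Prop where
  E_arith : A.E.IsArith
  E_freeN : ∀ i, A.E.FreeN i → i = 1 ∨ i = 2
  E_freeS : ∀ j, ¬ A.E.FreeS j
  /-- the elements of the finite set with code `y` -/
  E_finite : ∀ v V, {z | A.E.Sat (Function.update v 2 z) V}.Finite
  /-- every finite set has a code -/
  E_all : ∀ (F : Finset ℕ) (v : ℕ → ℕ) (V : ℕ → Set ℕ), ∃ y, ∀ z,
    A.E.Sat (Function.update (Function.update v 1 y) 2 z) V ↔ z ∈ F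
  P_arith : A.P.IsArith
  P_freeN : ∀ i, A.P.FreeN i → i = 0 ∨ i = 1
  P_freeS : ∀ j, ¬ A.P.FreeS j
  P_def : ∀ v V, A.P.Sat v V ↔ ∃ (Γ : List Fm) (φ : Fm),
    (∀ ψ ∈ Γ, A.E.Sat (Function.update v 2 ψ.code) V) ∧ v 0 = φ.code ∧ Prv Γ φ
  S_arith : A.S.IsArith
  S_freeN : ∀ i, A.S.FreeN i → i = 0
  S_freeS : ∀ j, ¬ A.S.FreeS j
  S_def : ∀ v V, A.S.Sat v V ↔ ∃ φ : Fm, φ.IsPi11 ∧ φ.IsSentence ∧ v 0 = φ.code
  Tr_arith : A.θ.IsArith
  Tr_freeN : ∀ i, A.θ.FreeN i → i = 0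
  Tr_freeS : ∀ j, A.θ.FreeS j → j = A.j
  Tr_def : ∀ φ : Fm, φ.IsPi11 → φ.IsSentence → ∀ v V, v 0 = φ.code → (A.Tr.Sat v V ↔ φ.IsTrue)
  σ_arith : A.σ.IsArith
  σ_freeN : ∀ i, A.σ.FreeN i → i = 2
  σ_freeS : ∀ j, ¬ A.σ.FreeS j
  σ_def : ∀ v V, A.σ.Sat v V ↔ ∃ φ ∈ Sigma11AC0, v 2 = φ.code

end Arithmetization

/-- `τ` has only the free variable `x_2` and defines in the standard model the set of Gödel numbers
of elements of `T`. -/
def Defines (τ : Fm) (T : Set Fm) : Prop :=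
  (∀ i, τ.FreeN i → i = 2) ∧ (∀ j, ¬ τ.FreeS j) ∧
    ∀ v V, τ.Sat v V ↔ ∃ φ ∈ T, v 2 = φ.code

/-- `T` is `Π¹₁`-sound: every `Π¹₁` sentence provable in `T` is true. -/
def Pi11Sound (T : Set Fm) : Prop := ∀ φ : Fm, φ.IsPi11 → φ.IsSentence → Thm T φ → φ.IsTrue

end Pool.Agent.D0H65.PS
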