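import Pool.Agent.D0H65.PS.Syn

/-!
# Definability of derivability
-/

set_option autoImplicit false

namespace Pool.Agent.D0H65.PS

open Function Pool.Agent.Helper180.ArithDef Classical

/-- `z` is an element of the finite set with code `y` -/
def El (y z : ℕ) : Prop := ∃ i, i < y.unpair.1 ∧ Nat.beta y.unpair.2 i = z

theorem El_finite (y : ℕ) : {z | El y z}.Finite := by
  have : {z | El y z} ⊆ (fun i => Nat.beta y.unpair.2 i) '' (Set.Iio y.unpair.1) := by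
    rintro z ⟨i, hi, rfl⟩
    exact ⟨i, hi, rfl⟩
  exact (Set.Finite.image _ (Set.finite_Iio _)).subset this

theorem getD_of_lt (l : List ℕ) {i : ℕ} (d : ℕ) (hi : i < l.length) : l.getD i d = l[i] := by
  simp [List.getD, hi]

theorem exists_El_list (l : List ℕ) : ∃ y, ∀ z, El y z ↔ z ∈ l := by
  obtain ⟨s, hs⟩ := exists_beta (fun k => l.getD k 0) l.length
  refine ⟨Nat.pair l.length s, fun z => ?_⟩
  simp only [El, Nat.unpair_pair]
  constructor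
  · rintro ⟨i, hi, rfl⟩
    rw [hs i hi, getD_of_lt _ _ hi]
    exact List.getElem_mem hi
  · intro hz
    obtain ⟨i, hi, rfl⟩ := List.getElem_of_mem hz
    exact ⟨i, hi, by rw [hs i hi, getD_of_lt _ _ hi]⟩

theorem exists_El (F : Finset ℕ) : ∃ y, ∀ z, El y z ↔ z ∈ F := by
  obtain ⟨y, hy⟩ := exists_El_list F.toList
  exact ⟨y, fun z => by rw [hy]; simp⟩

/-- the list of formulas with code `y` -/
noncomputable def ctx (y : ℕ) : List Fm :=
  (List.range y.unpair.1).map fun i => fdec (Nat.beta y.unpair.2 i)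

theorem mem_ctx {y : ℕ} {φ : Fm} : φ ∈ ctx y ↔ El y φ.code := by
  simp only [ctx, List.mem_map, List.mem_range, El]
  constructor
  · rintro ⟨i, hi, rfl⟩
    exact ⟨i, hi, by simp⟩
  · rintro ⟨i, hi, h⟩
    exact ⟨i, hi, by rw [h]; simp⟩

/-- One step of a derivation: `Av y c` says that the sequent `(y, c)` is already available. -/
def Step (Av : ℕ → ℕ → Prop) (y c : ℕ) : Prop :=
  El y c ∨
  (∃ y', Av y' c ∧ ∀ z, El y' z → El y z) ∨
  (∃ y' c', Av y' c' ∧ ∃ a, c = cimp a c' ∧ ∀ z, El y' z → z = a ∨ El y z) ∨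
  (∃ c', Av y c' ∧ Av y (cimp c' c)) ∨
  (Av y (cneg (cneg c))) ∨
  (∃ c', Av y c' ∧ ∃ i, c = callN i c' ∧ ∀ z, El y z → ¬ (fdec z).FreeN i) ∨
  (∃ i a u, Av y (callN i a) ∧ (fdec a).OkN i (tdec u) ∧ c = ((fdec a).subN i (tdec u)).code) ∨
  (∃ c', Av y c' ∧ ∃ j, c = callS j c' ∧ ∀ z, El y z → ¬ (fdec z).FreeS j) ∨
  (∃ j a k, Av y (callS j a) ∧ (fdec a).OkS j k ∧ c = ((fdec a).subS j k).code) ∨
  (∃ t, c = ceq t t) ∨
  (∃ i a u v, Av y (ceq u v) ∧ (fdec a).OkN i (tdec u) ∧ (fdec a).OkN i (tdec v) ∧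
    Av y ((fdec a).subN i (tdec u)).code ∧ c = ((fdec a).subN i (tdec v)).code)

theorem Step.mono {Av Av' : ℕ → ℕ → Prop} (h : ∀ y c, Av y c → Av' y c) {y c : ℕ}
    (hs : Step Av y c) : Step Av' y c := by
  rcases hs with h1 | ⟨y', h1, h2⟩ | ⟨y', c', h1, h2⟩ | ⟨c', h1, h2⟩ | h1 | ⟨c', h1, h2⟩ |
    ⟨i, a, u, h1, h2⟩ | ⟨c', h1, h2⟩ | ⟨j, a, k, h1, h2⟩ | h1 | ⟨i, a, u, v, h1, h2, h3, h4, h5⟩
  · exact Or.inl h1
  · exact Or.inr (Or.inl ⟨y', h _ _ h1, h2⟩)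
  · exact Or.inr (Or.inr (Or.inl ⟨y', c', h _ _ h1, h2⟩))
  · exact Or.inr (Or.inr (Or.inr (Or.inl ⟨c', h _ _ h1, h _ _ h2⟩)))
  · exact Or.inr (Or.inr (Or.inr (Or.inr (Or.inl (h _ _ h1)))))
  · exact Or.inr (Or.inr (Or.inr (Or.inr (Or.inr (Or.inl ⟨c', h _ _ h1, h2⟩)))))
  · exact Or.inr (Or.inr (Or.inr (Or.inr (Or.inr (Or.inr (Or.inl ⟨i, a, u, h _ _ h1, h2⟩))))))
  · exact Or.inr (Or.inr (Or.inr (Or.inr (Or.inr (Or.inr (Or.inr (Or.inl
      ⟨c', h _ _ h1, h2⟩)))))))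
  · exact Or.inr (Or.inr (Or.inr (Or.inr (Or.inr (Or.inr (Or.inr (Or.inr (Or.inl
      ⟨j, a, k, h _ _ h1, h2⟩))))))))
  · exact Or.inr (Or.inr (Or.inr (Or.inr (Or.inr (Or.inr (Or.inr (Or.inr (Or.inr (Or.inl
      h1)))))))))
  · exact Or.inr (Or.inr (Or.inr (Or.inr (Or.inr (Or.inr (Or.inr (Or.inr (Or.inr (Or.inr
      ⟨i, a, u, v, h _ _ h1, h2, h3, h _ _ h4, h5⟩)))))))))

theorem fdec_cimp (a b : ℕ) : fdec (cimp a b) = .imp (fdec a) (fdec b) := by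
  apply Fm.code_inj; simp [Fm.code, cimp]
theorem fdec_callN (a b : ℕ) : fdec (callN a b) = .allN a (fdec b) := by
  apply Fm.code_inj; simp [Fm.code, callN]
theorem fdec_callS (a b : ℕ) : fdec (callS a b) = .allS a (fdec b) := by
  apply Fm.code_inj; simp [Fm.code, callS]
theorem fdec_ceq (a b : ℕ) : fdec (ceq a b) = .eq (tdec a) (tdec b) := by
  apply Fm.code_inj; simp [Fm.code, ceq]
theorem fdec_zero : fdec 0 = .bot := by
  apply Fm.code_inj; simp [Fm.code]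
theorem fdec_cneg (a : ℕ) : fdec (cneg a) = (fdec a).neg := by
  rw [cneg, fdec_cimp, fdec_zero]; rfl

/-- Steps are sound. -/
theorem Step.sound {Av : ℕ → ℕ → Prop} (h : ∀ y c, Av y c → Prv (ctx y) (fdec c)) {y c : ℕ}
    (hs : Step Av y c) : Prv (ctx y) (fdec c) := by
  rcases hs with h1 | ⟨y', h1, h2⟩ | ⟨y', c', h1, a, h2, h3⟩ | ⟨c', h1, h2⟩ | h1 |
    ⟨c', h1, i, h2, h3⟩ | ⟨i, a, u, h1, h2, h3⟩ | ⟨c', h1, j, h2, h3⟩ | ⟨j, a, k, h1, h2, h3⟩ |
    ⟨t, h1⟩ | ⟨i, a, u, v, h1, h2, h3, h4, h5⟩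
  · exact .ax (mem_ctx.2 (by simpa using h1))
  · exact .weak (fun φ hφ => mem_ctx.2 (h2 _ (mem_ctx.1 hφ))) (h _ _ h1)
  · subst h2
    rw [fdec_cimp]
    refine .impI (.weak (fun φ hφ => ?_) (h _ _ h1))
    rcases h3 _ (mem_ctx.1 hφ) with h | h
    · rw [← h, fdec_code]; simp
    · exact List.mem_cons_of_mem _ (mem_ctx.2 h)
  · have := h _ _ h2
    rw [fdec_cimp] at this
    exact .impE this (h _ _ h1)
  · have := h _ _ h1
    rw [fdec_cneg, fdec_cneg] at this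
    exact .dne this
  · subst h2
    rw [fdec_callN]
    refine .allNI (fun ψ hψ => ?_) (h _ _ h1)
    have := h3 _ (mem_ctx.1 hψ)
    rwa [fdec_code] at this
  · subst h3
    rw [fdec_code]
    have := h _ _ h1
    rw [fdec_callN] at this
    exact .allNE h2 this
  · subst h2
    rw [fdec_callS]
    refine .allSI (fun ψ hψ => ?_) (h _ _ h1)
    have := h3 _ (mem_ctx.1 hψ)
    rwa [fdec_code] at this
  · subst h3
    rw [fdec_code]
    have := h _ _ h1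
    rw [fdec_callS] at this
    exact .allSE h2 this
  · subst h1
    rw [fdec_ceq]
    exact .refl
  · subst h5
    rw [fdec_code]
    have g1 := h _ _ h1
    rw [fdec_ceq] at g1
    have g2 := h _ _ h4
    rw [fdec_code] at g2
    exact .rw h2 h3 g1 g2

/-- the sequent `(y, c)` is among the first `k` entries of the sequence coded by `s` -/
def Avn (s k y c : ℕ) : Prop := ∃ l, l < k ∧ Nat.beta s l = Nat.pair y c

/-- the first `m` entries of the sequence coded by `s` form a derivation -/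
def Deriv (s m : ℕ) : Prop :=
  ∀ k, k < m → Step (Avn s k) (Nat.beta s k).unpair.1 (Nat.beta s k).unpair.2

theorem Deriv.sound {s m : ℕ} (h : Deriv s m) {y c : ℕ} (hc : Avn s m y c) :
    Prv (ctx y) (fdec c) := by
  have key : ∀ k, k < m → Prv (ctx (Nat.beta s k).unpair.1) (fdec (Nat.beta s k).unpair.2) := by
    intro k
    induction k using Nat.strong_induction_on with
    | _ k ih =>
      intro hk
      refine (h k hk).sound ?_
      rintro y c ⟨l, hl, he⟩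
      have := ih l hl (by omega)
      rwa [he, Nat.unpair_pair] at this
  obtain ⟨l, hl, he⟩ := hc
  have := key l hl
  rwa [he, Nat.unpair_pair] at this

theorem Deriv.merge {s₁ m₁ s₂ m₂ : ℕ} (h₁ : Deriv s₁ m₁) (h₂ : Deriv s₂ m₂) :
    ∃ s m, Deriv s m ∧ (∀ y c, Avn s₁ m₁ y c → Avn s m y c) ∧
      ∀ y c, Avn s₂ m₂ y c → Avn s m y c := by
  obtain ⟨s, hs⟩ := exists_beta (fun k => if k < m₁ then Nat.beta s₁ k else Nat.beta s₂ (k - m₁))
    (m₁ + m₂)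
  have e1 : ∀ k, k < m₁ → Nat.beta s k = Nat.beta s₁ k := fun k hk => by
    rw [hs k (by omega), if_pos hk]
  have e2 : ∀ k, k < m₂ → Nat.beta s (m₁ + k) = Nat.beta s₂ k := fun k hk => by
    rw [hs _ (by omega), if_neg (by omega), Nat.add_sub_cancel_left]
  refine ⟨s, m₁ + m₂, fun k hk => ?_, ?_, ?_⟩
  · by_cases hk1 : k < m₁
    · rw [e1 k hk1]
      refine (h₁ k hk1).mono ?_
      rintro y c ⟨l, hl, he⟩
      exact ⟨l, hl, by rw [e1 l (by omega), he]⟩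
    · obtain ⟨k', rfl⟩ : ∃ k', k = m₁ + k' := ⟨k - m₁, by omega⟩
      rw [e2 k' (by omega)]
      refine (h₂ k' (by omega)).mono ?_
      rintro y c ⟨l, hl, he⟩
      exact ⟨m₁ + l, by omega, by rw [e2 l (by omega), he]⟩
  · rintro y c ⟨l, hl, he⟩
    exact ⟨l, by omega, by rw [e1 l hl, he]⟩
  · rintro y c ⟨l, hl, he⟩
    exact ⟨m₁ + l, by omega, by rw [e2 l hl, he]⟩

theorem Deriv.extend {s m : ℕ} (h : Deriv s m) {y c : ℕ} (hc : Step (Avn s m) y c) :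
    ∃ s' m', Deriv s' m' ∧ Avn s' m' y c := by
  obtain ⟨s', hs⟩ := exists_beta (fun k => if k < m then Nat.beta s k else Nat.pair y c) (m + 1)
  have e1 : ∀ k, k < m → Nat.beta s' k = Nat.beta s k := fun k hk => by
    rw [hs k (by omega), if_pos hk]
  have e2 : Nat.beta s' m = Nat.pair y c := by
    rw [hs _ (by omega), if_neg (by omega)]
  refine ⟨s', m + 1, fun k hk => ?_, m, by omega, e2⟩
  by_cases hk1 : k < m
  · rw [e1 k hk1]
    refine (h k hk1).mono ?_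
    rintro y c ⟨l, hl, he⟩
    exact ⟨l, hl, by rw [e1 l (by omega), he]⟩
  · obtain rfl : k = m := by omega
    rw [e2, Nat.unpair_pair]
    refine hc.mono ?_
    rintro y c ⟨l, hl, he⟩
    exact ⟨l, hl, by rw [e1 l hl, he]⟩

theorem Prv.complete {Γ : List Fm} {φ : Fm} (h : Prv Γ φ) :
    ∀ y, (∀ ψ ∈ Γ, El y ψ.code) → ∃ s m, Deriv s m ∧ Avn s m y φ.code := by
  have nil : Deriv 0 0 := fun k hk => by omega
  have exy : ∀ Γ : List Fm, ∃ y, ∀ z, El y z ↔ ∃ ψ ∈ Γ, z = ψ.code := by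
    intro Γ
    obtain ⟨y, hy⟩ := exists_El_list (Γ.map Fm.code)
    exact ⟨y, fun z => by rw [hy]; simp [eq_comm]⟩
  induction h with
  | ax h => intro y hy; exact nil.extend (Or.inl (hy _ h))
  | weak hs _ ih => intro y hy; exact ih y fun ψ hψ => hy ψ (hs hψ)
  | @impI Γ φ ψ _ ih =>
    intro y hy
    obtain ⟨y', hy'⟩ := exy (φ :: ctx y)
    obtain ⟨s, m, h1, h2⟩ := ih y' (fun χ hχ => (hy' _).2 (by
      rcases List.mem_cons.1 hχ with rfl | hχ
      · exact ⟨χ, by simp, rfl⟩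
      · exact ⟨χ, List.mem_cons_of_mem _ (mem_ctx.2 (hy χ hχ)), rfl⟩))
    refine h1.extend (Or.inr (Or.inr (Or.inl ⟨y', ψ.code, h2, φ.code, rfl, fun z hz => ?_⟩)))
    obtain ⟨χ, hχ, rfl⟩ := (hy' z).1 hz
    rcases List.mem_cons.1 hχ with rfl | hχ
    · exact Or.inl rfl
    · exact Or.inr (mem_ctx.1 hχ)
  | @impE Γ φ ψ _ _ ih1 ih2 =>
    intro y hy
    obtain ⟨s1, m1, h1, h2⟩ := ih1 y hy
    obtain ⟨s2, m2, h3, h4⟩ := ih2 y hy
    obtain ⟨s, m, h5, h6, h7⟩ := h1.merge h3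
    exact h5.extend (Or.inr (Or.inr (Or.inr (Or.inl ⟨φ.code, h7 _ _ h4, h6 _ _ h2⟩))))
  | @dne Γ φ _ ih =>
    intro y hy
    obtain ⟨s, m, h1, h2⟩ := ih y hy
    exact h1.extend (Or.inr (Or.inr (Or.inr (Or.inr (Or.inl h2)))))
  | @allNI Γ i φ hf _ ih =>
    intro y hy
    obtain ⟨y', hy'⟩ := exy Γ
    obtain ⟨s, m, h1, h2⟩ := ih y' (fun ψ hψ => (hy' _).2 ⟨ψ, hψ, rfl⟩)
    obtain ⟨s', m', h3, h4⟩ := h1.extend (y := y') (c := (Fm.allN i φ).code)
      (Or.inr (Or.inr (Or.inr (Or.inr (Or.inr (Or.inl ⟨φ.code, h2, i, rfl, fun z hz => by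
        obtain ⟨ψ, hψ, rfl⟩ := (hy' z).1 hz
        rw [fdec_code]
        exact hf ψ hψ⟩))))))
    exact h3.extend (Or.inr (Or.inl ⟨y', h4, fun z hz => by
      obtain ⟨ψ, hψ, rfl⟩ := (hy' z).1 hz
      exact hy ψ hψ⟩))
  | @allNE Γ i φ u hok _ ih =>
    intro y hy
    obtain ⟨s, m, h1, h2⟩ := ih y hy
    exact h1.extend (Or.inr (Or.inr (Or.inr (Or.inr (Or.inr (Or.inr (Or.inl
      ⟨i, φ.code, u.code, h2, by simpa using hok, by simp⟩)))))))
  | @allSI Γ i φ hf _ ih =>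
    intro y hy
    obtain ⟨y', hy'⟩ := exy Γ
    obtain ⟨s, m, h1, h2⟩ := ih y' (fun ψ hψ => (hy' _).2 ⟨ψ, hψ, rfl⟩)
    obtain ⟨s', m', h3, h4⟩ := h1.extend (y := y') (c := (Fm.allS i φ).code)
      (Or.inr (Or.inr (Or.inr (Or.inr (Or.inr (Or.inr (Or.inr (Or.inl
        ⟨φ.code, h2, i, rfl, fun z hz => by
          obtain ⟨ψ, hψ, rfl⟩ := (hy' z).1 hz
          rw [fdec_code]
          exact hf ψ hψ⟩))))))))
    exact h3.extend (Or.inr (Or.inl ⟨y', h4, fun z hz => by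
      obtain ⟨ψ, hψ, rfl⟩ := (hy' z).1 hz
      exact hy ψ hψ⟩))
  | @allSE Γ j k φ hok _ ih =>
    intro y hy
    obtain ⟨s, m, h1, h2⟩ := ih y hy
    exact h1.extend (Or.inr (Or.inr (Or.inr (Or.inr (Or.inr (Or.inr (Or.inr (Or.inr (Or.inl
      ⟨j, φ.code, k, h2, by simpa using hok, by simp⟩)))))))))
  | @refl Γ t =>
    intro y hy
    exact nil.extend (Or.inr (Or.inr (Or.inr (Or.inr (Or.inr (Or.inr (Or.inr (Or.inr (Or.inr
      (Or.inl ⟨t.code, rfl⟩))))))))))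
  | @rw Γ i s t φ hs ht _ _ ih1 ih2 =>
    intro y hy
    obtain ⟨s1, m1, h1, h2⟩ := ih1 y hy
    obtain ⟨s2, m2, h3, h4⟩ := ih2 y hy
    obtain ⟨s', m, h5, h6, h7⟩ := h1.merge h3
    exact h5.extend (Or.inr (Or.inr (Or.inr (Or.inr (Or.inr (Or.inr (Or.inr (Or.inr (Or.inr
      (Or.inr ⟨i, φ.code, s.code, t.code, h6 _ _ h2, by simpa using hs, by simpa using ht,
        by simpa using h7 _ _ h4, by simp⟩))))))))))

/-- Derivability of the formula with Gödel number `x` from the finite set with code `y`. -/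
def PrvN (x y : ℕ) : Prop := ∃ s m y', Deriv s m ∧ Avn s m y' x ∧ ∀ z, El y' z → El y z

theorem PrvN_iff (x y : ℕ) : PrvN x y ↔ ∃ (Γ : List Fm) (φ : Fm),
    (∀ ψ ∈ Γ, El y ψ.code) ∧ x = φ.code ∧ Prv Γ φ := by
  constructor
  · rintro ⟨s, m, y', h1, h2, h3⟩
    exact ⟨ctx y', fdec x, fun ψ hψ => h3 _ (mem_ctx.1 hψ), by simp, h1.sound h2⟩
  · rintro ⟨Γ, φ, h1, rfl, h2⟩
    obtain ⟨s, m, h3, h4⟩ := h2.complete y h1
    exact ⟨s, m, y, h3, h4, fun z hz => hz⟩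

/-! ### Definability -/

section dd

variable {D : ((ℕ → ℕ) → Prop) → Prop} (h : DC D)
include h

theorem dEl {F G : (ℕ → ℕ) → ℕ} (hF : DT D F) (hG : DT D G) : D (fun w => El (F w) (G w)) := by
  refine h.app2 (R := El) ?_ hF hG
  exact h.ex' (S := fun i w => i < (w 0).unpair.1 ∧ Nat.beta (w 0).unpair.2 i = w 1)
    (h.and (h.lt (h.tvar 0) (h.tfst (h.tvar 1)))
      (h.eq (h.tbeta (h.tsnd (h.tvar 1)) (h.tvar 0)) (h.tvar 2)))

theorem dSub {F G : (ℕ → ℕ) → ℕ} (hF : DT D F) (hG : DT D G) :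
    D (fun w => ∀ z, El (F w) z → El (G w) z) := by
  refine h.app2 (R := fun x y => ∀ z, El x z → El y z) ?_ hF hG
  exact h.all' (S := fun z w => El (w 0) z → El (w 1) z)
    (h.imp (dEl h (h.tvar 1) (h.tvar 0)) (dEl h (h.tvar 2) (h.tvar 0)))

theorem dAvn {F G H I : (ℕ → ℕ) → ℕ} (hF : DT D F) (hG : DT D G) (hH : DT D H) (hI : DT D I) :
    D (fun w => Avn (F w) (G w) (H w) (I w)) := by
  refine app4 h (R := Avn) ?_ hF hG hH hI
  exact h.ex' (S := fun l w => l < w 1 ∧ Nat.beta (w 0) l = Nat.pair (w 2) (w 3))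
    (h.and (h.lt (h.tvar 0) (h.tvar 2))
      (h.eq (h.tbeta (h.tvar 1) (h.tvar 0)) (h.tpair (h.tvar 3) (h.tvar 4))))

theorem dsubN' {F G H : (ℕ → ℕ) → ℕ} (hF : DT D F) (hG : DT D G) (hH : DT D H) :
    DT D (fun w => ((fdec (F w)).subN (G w) (tdec (H w))).code) := by
  have := fun2 h (F := fun p n => ((fdec n).subN p.unpair.1 (tdec p.unpair.2)).code) (dsubN h)
    (h.tpair hG hH) hF
  refine h.iff (fun w => ?_) this
  simp

theorem dsubS' {F G H : (ℕ → ℕ) → ℕ} (hF : DT D F) (hG : DT D G) (hH : DT D H) :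
    DT D (fun w => ((fdec (F w)).subS (G w) (H w)).code) := by
  have := fun2 h (F := fun p n => ((fdec n).subS p.unpair.1 p.unpair.2).code) (dsubS h)
    (h.tpair hG hH) hF
  refine h.iff (fun w => ?_) this
  simp

theorem dOkN' {F G H : (ℕ → ℕ) → ℕ} (hF : DT D F) (hG : DT D G) (hH : DT D H) :
    D (fun w => (fdec (F w)).OkN (G w) (tdec (H w))) := by
  have := h.app2 (R := fun p n => (fdec n).OkN p.unpair.1 (tdec p.unpair.2)) (dOkN h)
    (h.tpair hG hH) hF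
  refine h.iff (fun w => ?_) this
  simp

theorem dOkS' {F G H : (ℕ → ℕ) → ℕ} (hF : DT D F) (hG : DT D G) (hH : DT D H) :
    D (fun w => (fdec (F w)).OkS (G w) (H w)) := by
  have := h.app2 (R := fun p n => (fdec n).OkS p.unpair.1 p.unpair.2) (dOkS h)
    (h.tpair hG hH) hF
  refine h.iff (fun w => ?_) this
  simp

theorem dStep : D (fun w => Step (Avn (w 0) (w 1)) (w 2) (w 3)) := by
  refine h.or (dEl h (h.tvar 2) (h.tvar 3)) (h.or ?_ (h.or ?_ (h.or ?_ (h.or ?_ (h.or ?_ (h.or ?_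
    (h.or ?_ (h.or ?_ (h.or ?_ ?_)))))))))
  · exact h.ex' (S := fun y' w => Avn (w 0) (w 1) y' (w 3) ∧ ∀ z, El y' z → El (w 2) z)
      (h.and (dAvn h (h.tvar 1) (h.tvar 2) (h.tvar 0) (h.tvar 4))
        (dSub h (h.tvar 0) (h.tvar 3)))
  · exact h.ex' (S := fun y' w => ∃ c', Avn (w 0) (w 1) y' c' ∧ ∃ a, w 3 = cimp a c' ∧
        ∀ z, El y' z → z = a ∨ El (w 2) z)
      (h.ex' (S := fun c' w => Avn (w 1) (w 2) (w 0) c' ∧ ∃ a, w 4 = cimp a c' ∧
        ∀ z, El (w 0) z → z = a ∨ El (w 3) z)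
        (h.and (dAvn h (h.tvar 2) (h.tvar 3) (h.tvar 1) (h.tvar 0))
          (h.ex' (S := fun a w => w 5 = cimp a (w 0) ∧
            ∀ z, El (w 1) z → z = a ∨ El (w 4) z)
            (h.and (h.eq (h.tvar 6) (dimp h (h.tvar 0) (h.tvar 1)))
              (h.all' (S := fun z w => El (w 2) z → z = w 0 ∨ El (w 5) z)
                (h.imp (dEl h (h.tvar 3) (h.tvar 0))
                  (h.or (h.eq (h.tvar 0) (h.tvar 1)) (dEl h (h.tvar 6) (h.tvar 0)))))))))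
  · exact h.ex' (S := fun c' w => Avn (w 0) (w 1) (w 2) c' ∧ Avn (w 0) (w 1) (w 2) (cimp c' (w 3)))
      (h.and (dAvn h (h.tvar 1) (h.tvar 2) (h.tvar 3) (h.tvar 0))
        (dAvn h (h.tvar 1) (h.tvar 2) (h.tvar 3) (dimp h (h.tvar 0) (h.tvar 4))))
  · exact dAvn h (h.tvar 0) (h.tvar 1) (h.tvar 2) (dneg h (dneg h (h.tvar 3)))
  · exact h.ex' (S := fun c' w => Avn (w 0) (w 1) (w 2) c' ∧ ∃ i, w 3 = callN i c' ∧
        ∀ z, El (w 2) z → ¬ (fdec z).FreeN i)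
      (h.and (dAvn h (h.tvar 1) (h.tvar 2) (h.tvar 3) (h.tvar 0))
        (h.ex' (S := fun i w => w 4 = callN i (w 0) ∧ ∀ z, El (w 3) z → ¬ (fdec z).FreeN i)
          (h.and (h.eq (h.tvar 5) (dallN h (h.tvar 0) (h.tvar 1)))
            (h.all' (S := fun z w => El (w 4) z → ¬ (fdec z).FreeN (w 0))
              (h.imp (dEl h (h.tvar 5) (h.tvar 0))
                (h.not (h.app2 (R := fun x y => (fdec y).FreeN x) (dFreeN h) (h.tvar 1)
                  (h.tvar 0))))))))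
  · exact h.ex' (S := fun i w => ∃ a u, Avn (w 0) (w 1) (w 2) (callN i a) ∧
        (fdec a).OkN i (tdec u) ∧ w 3 = ((fdec a).subN i (tdec u)).code)
      (h.ex' (S := fun a w => ∃ u, Avn (w 1) (w 2) (w 3) (callN (w 0) a) ∧
        (fdec a).OkN (w 0) (tdec u) ∧ w 4 = ((fdec a).subN (w 0) (tdec u)).code)
        (h.ex' (S := fun u w => Avn (w 2) (w 3) (w 4) (callN (w 1) (w 0)) ∧
          (fdec (w 0)).OkN (w 1) (tdec u) ∧ w 5 = ((fdec (w 0)).subN (w 1) (tdec u)).code)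
          (h.and (dAvn h (h.tvar 3) (h.tvar 4) (h.tvar 5) (dallN h (h.tvar 2) (h.tvar 1)))
            (h.and (dOkN' h (h.tvar 1) (h.tvar 2) (h.tvar 0))
              (h.eq (h.tvar 6) (dsubN' h (h.tvar 1) (h.tvar 2) (h.tvar 0)))))))
  · exact h.ex' (S := fun c' w => Avn (w 0) (w 1) (w 2) c' ∧ ∃ i, w 3 = callS i c' ∧
        ∀ z, El (w 2) z → ¬ (fdec z).FreeS i)
      (h.and (dAvn h (h.tvar 1) (h.tvar 2) (h.tvar 3) (h.tvar 0))
        (h.ex' (S := fun i w => w 4 = callS i (w 0) ∧ ∀ z, El (w 3) z → ¬ (fdec z).FreeS i)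
          (h.and (h.eq (h.tvar 5) (dallS h (h.tvar 0) (h.tvar 1)))
            (h.all' (S := fun z w => El (w 4) z → ¬ (fdec z).FreeS (w 0))
              (h.imp (dEl h (h.tvar 5) (h.tvar 0))
                (h.not (h.app2 (R := fun x y => (fdec y).FreeS x) (dFreeS h) (h.tvar 1)
                  (h.tvar 0))))))))
  · exact h.ex' (S := fun i w => ∃ a u, Avn (w 0) (w 1) (w 2) (callS i a) ∧
        (fdec a).OkS i u ∧ w 3 = ((fdec a).subS i u).code)
      (h.ex' (S := fun a w => ∃ u, Avn (w 1) (w 2) (w 3) (callS (w 0) a) ∧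
        (fdec a).OkS (w 0) u ∧ w 4 = ((fdec a).subS (w 0) u).code)
        (h.ex' (S := fun u w => Avn (w 2) (w 3) (w 4) (callS (w 1) (w 0)) ∧
          (fdec (w 0)).OkS (w 1) u ∧ w 5 = ((fdec (w 0)).subS (w 1) u).code)
          (h.and (dAvn h (h.tvar 3) (h.tvar 4) (h.tvar 5) (dallS h (h.tvar 2) (h.tvar 1)))
            (h.and (dOkS' h (h.tvar 1) (h.tvar 2) (h.tvar 0))
              (h.eq (h.tvar 6) (dsubS' h (h.tvar 1) (h.tvar 2) (h.tvar 0)))))))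
  · exact h.ex' (S := fun t w => w 3 = ceq t t)
      (h.eq (h.tvar 4) (deq h (h.tvar 0) (h.tvar 0)))
  · exact h.ex' (S := fun i w => ∃ a u v, Avn (w 0) (w 1) (w 2) (ceq u v) ∧
        (fdec a).OkN i (tdec u) ∧ (fdec a).OkN i (tdec v) ∧
        Avn (w 0) (w 1) (w 2) ((fdec a).subN i (tdec u)).code ∧
        w 3 = ((fdec a).subN i (tdec v)).code)
      (h.ex' (S := fun a w => ∃ u v, Avn (w 1) (w 2) (w 3) (ceq u v) ∧
        (fdec a).OkN (w 0) (tdec u) ∧ (fdec a).OkN (w 0) (tdec v) ∧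
        Avn (w 1) (w 2) (w 3) ((fdec a).subN (w 0) (tdec u)).code ∧
        w 4 = ((fdec a).subN (w 0) (tdec v)).code)
        (h.ex' (S := fun u w => ∃ v, Avn (w 2) (w 3) (w 4) (ceq u v) ∧
          (fdec (w 0)).OkN (w 1) (tdec u) ∧ (fdec (w 0)).OkN (w 1) (tdec v) ∧
          Avn (w 2) (w 3) (w 4) ((fdec (w 0)).subN (w 1) (tdec u)).code ∧
          w 5 = ((fdec (w 0)).subN (w 1) (tdec v)).code)
          (h.ex' (S := fun v w => Avn (w 3) (w 4) (w 5) (ceq (w 0) v) ∧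
            (fdec (w 1)).OkN (w 2) (tdec (w 0)) ∧ (fdec (w 1)).OkN (w 2) (tdec v) ∧
            Avn (w 3) (w 4) (w 5) ((fdec (w 1)).subN (w 2) (tdec (w 0))).code ∧
            w 6 = ((fdec (w 1)).subN (w 2) (tdec v)).code)
            (h.and (dAvn h (h.tvar 4) (h.tvar 5) (h.tvar 6) (deq h (h.tvar 1) (h.tvar 0)))
              (h.and (dOkN' h (h.tvar 2) (h.tvar 3) (h.tvar 1))
                (h.and (dOkN' h (h.tvar 2) (h.tvar 3) (h.tvar 0))
                  (h.and (dAvn h (h.tvar 4) (h.tvar 5) (h.tvar 6)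
                    (dsubN' h (h.tvar 2) (h.tvar 3) (h.tvar 1)))
                    (h.eq (h.tvar 7) (dsubN' h (h.tvar 2) (h.tvar 3) (h.tvar 0))))))))))

theorem dDeriv : D (fun w => Deriv (w 0) (w 1)) := by
  refine h.all' (S := fun k w => k < w 1 →
    Step (Avn (w 0) k) (Nat.beta (w 0) k).unpair.1 (Nat.beta (w 0) k).unpair.2) ?_
  refine h.imp (h.lt (h.tvar 0) (h.tvar 2)) ?_
  exact app4 h (R := fun s k y c => Step (Avn s k) y c) (dStep h) (h.tvar 1) (h.tvar 0)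
    (h.tfst (h.tbeta (h.tvar 1) (h.tvar 0))) (h.tsnd (h.tbeta (h.tvar 1) (h.tvar 0)))

theorem dPrvN : D (fun w => PrvN (w 0) (w 1)) :=
  h.ex' (S := fun s w => ∃ m y', Deriv s m ∧ Avn s m y' (w 0) ∧ ∀ z, El y' z → El (w 1) z)
    (h.ex' (S := fun m w => ∃ y', Deriv (w 0) m ∧ Avn (w 0) m y' (w 1) ∧
      ∀ z, El y' z → El (w 2) z)
      (h.ex' (S := fun y' w => Deriv (w 1) (w 0) ∧ Avn (w 1) (w 0) y' (w 2) ∧
        ∀ z, El y' z → El (w 3) z)
        (h.and (h.app2 (R := Deriv) (dDeriv h) (h.tvar 2) (h.tvar 1))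
          (h.and (dAvn h (h.tvar 2) (h.tvar 1) (h.tvar 0) (h.tvar 3))
            (dSub h (h.tvar 0) (h.tvar 4))))))

end dd

end Pool.Agent.D0H65.PS
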