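import Pool.Agent.D0H65.PS.Univ
import Pool.Agent.Helper180.ArithDef

/-!
# Arithmetical definability in the standard model
-/

set_option autoImplicit false

namespace Pool.Agent.D0H65.PS

open Function Pool.Agent.Helper180.ArithDef

/-- The relation `R` is defined by an arithmetical formula with free set variables in `s`. -/
def DefS (s : Set ℕ) (R : (ℕ → ℕ) → (ℕ → Set ℕ) → Prop) : Prop :=
  ∃ θ : Fm, θ.IsArith ∧ (∀ j, θ.FreeS j → j ∈ s) ∧ ∀ v V, θ.Sat v V ↔ R v V

theorem exists_occ_bound : ∀ t : Tm, ∃ k, ∀ i, t.Occ i → i < k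
  | .var i => ⟨i + 1, fun k hk => by
      have : i = k := hk
      omega⟩
  | .zero => ⟨0, fun _ h => h.elim⟩
  | .one => ⟨0, fun _ h => h.elim⟩
  | .add s t => by
    obtain ⟨k, hk⟩ := exists_occ_bound s
    obtain ⟨l, hl⟩ := exists_occ_bound t
    exact ⟨max k l, fun i h => h.elim (fun h => lt_max_of_lt_left (hk i h))
      (fun h => lt_max_of_lt_right (hl i h))⟩
  | .mul s t => by
    obtain ⟨k, hk⟩ := exists_occ_bound s
    obtain ⟨l, hl⟩ := exists_occ_bound t
    exact ⟨max k l, fun i h => h.elim (fun h => lt_max_of_lt_left (hk i h))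
      (fun h => lt_max_of_lt_right (hl i h))⟩

theorem exists_free_bound : ∀ φ : Fm, ∃ k, ∀ i, φ.FreeN i → i < k
  | .eq s t => by
    obtain ⟨k, hk⟩ := exists_occ_bound s
    obtain ⟨l, hl⟩ := exists_occ_bound t
    exact ⟨max k l, fun i h => h.elim (fun h => lt_max_of_lt_left (hk i h))
      (fun h => lt_max_of_lt_right (hl i h))⟩
  | .lt s t => by
    obtain ⟨k, hk⟩ := exists_occ_bound s
    obtain ⟨l, hl⟩ := exists_occ_bound t
    exact ⟨max k l, fun i h => h.elim (fun h => lt_max_of_lt_left (hk i h))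
      (fun h => lt_max_of_lt_right (hl i h))⟩
  | .mem t _ => exists_occ_bound t
  | .bot => ⟨0, fun _ h => h.elim⟩
  | .imp φ ψ => by
    obtain ⟨k, hk⟩ := exists_free_bound φ
    obtain ⟨l, hl⟩ := exists_free_bound ψ
    exact ⟨max k l, fun i h => h.elim (fun h => lt_max_of_lt_left (hk i h))
      (fun h => lt_max_of_lt_right (hl i h))⟩
  | .allN _ φ => by
    obtain ⟨k, hk⟩ := exists_free_bound φ
    exact ⟨k, fun i h => hk i h.2⟩
  | .allS _ φ => exists_free_bound φ

/-- A definable relation depends on finitely many of the numbers only. -/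
theorem DefS.support {R : (ℕ → ℕ) → (ℕ → Set ℕ) → Prop} {θ : Fm}
    (h : ∀ v V, θ.Sat v V ↔ R v V) : ∃ k, ∀ v v' V, (∀ i < k, v i = v' i) → (R v V ↔ R v' V) := by
  obtain ⟨k, hk⟩ := exists_free_bound θ
  refine ⟨k, fun v v' V hv => ?_⟩
  rw [← h, ← h]
  exact sat_congr (fun i hi => hv i (hk i hi)) (fun _ _ => rfl)

namespace DefS

variable {s : Set ℕ} {R Q : (ℕ → ℕ) → (ℕ → Set ℕ) → Prop}

theorem iff' (h : ∀ v V, Q v V ↔ R v V) (hQ : DefS s Q) : DefS s R := by
  have : Q = R := funext fun v => funext fun V => propext (h v V)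
  rwa [← this]

theorem add : DefS s (fun w _ => w 0 + w 1 = w 2) :=
  ⟨.eq (.add (.var 0) (.var 1)) (.var 2), trivial, fun _ h => h.elim, fun _ _ => Iff.rfl⟩

theorem mul : DefS s (fun w _ => w 0 * w 1 = w 2) :=
  ⟨.eq (.mul (.var 0) (.var 1)) (.var 2), trivial, fun _ h => h.elim, fun _ _ => Iff.rfl⟩

theorem bot : DefS s (fun _ _ => False) := ⟨.bot, trivial, fun _ h => h.elim, fun _ _ => Iff.rfl⟩

theorem mem (j : ℕ) (hj : j ∈ s) : DefS s (fun w V => w 0 ∈ V j) :=
  ⟨.mem (.var 0) j, trivial, fun _ h => by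
    have : j = _ := h
    rwa [← this], fun _ _ => Iff.rfl⟩

theorem imp : DefS s R → DefS s Q → DefS s (fun w V => R w V → Q w V) := by
  rintro ⟨θ, h1, h2, h3⟩ ⟨χ, g1, g2, g3⟩
  refine ⟨.imp θ χ, ⟨h1, g1⟩, fun j h => h.elim (h2 j) (g2 j), fun v V => ?_⟩
  rw [sat_imp, h3, g3]

theorem all_at (i : ℕ) : DefS s R → DefS s (fun w V => ∀ a, R (update w i a) V) := by
  rintro ⟨θ, h1, h2, h3⟩
  exact ⟨.allN i θ, h1, h2, fun v V => by simp [h3]⟩

/-- simultaneous substitution of variables -/
theorem ren (ρ : ℕ → ℕ) (hR : DefS s R) : DefS s (fun w V => R (fun i => w (ρ i)) V) := by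
  obtain ⟨θ, h1, h2, h3⟩ := hR
  obtain ⟨k, hk⟩ := DefS.support h3
  -- `T` is larger than `k` and all `ρ i`, `i < k`
  obtain ⟨T, hT⟩ : ∃ T, k ≤ T ∧ ∀ i < k, ρ i < T := by
    refine ⟨k + ((List.range k).map ρ).sum + 1, by omega, fun i hi => ?_⟩
    have : ρ i ≤ ((List.range k).map ρ).sum :=
      List.single_le_sum (by simp) _ (List.mem_map.2 ⟨i, List.mem_range.2 hi, rfl⟩)
    omega
  let asg : ℕ → ℕ → Fm → Fm := fun i j φ => .allN i (.imp (.eq (.var i) (.var j)) φ)
  have hasg : ∀ i j φ v V, i ≠ j → ((asg i j φ).Sat v V ↔ φ.Sat (update v i (v j)) V) := by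
    intro i j φ v V hij
    simp only [asg, sat_allN, sat_imp, sat_eq, val_var, update_self, update_of_ne (Ne.symm hij)]
    exact ⟨fun h => h _ rfl, fun h a ha => ha ▸ h⟩
  let B1 : ℕ → Fm := fun n => Nat.rec θ (fun n φ => asg n (T + n) φ) n
  have hB1 : ∀ n, n ≤ k → ∀ v V, (B1 n).Sat v V ↔
      θ.Sat (fun i => if i < n then v (T + i) else v i) V := by
    intro n
    induction n with
    | zero => intro _ v V; simp [B1]
    | succ n ih =>
      intro hn v V
      change (asg n (T + n) (B1 n)).Sat v V ↔ _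
      rw [hasg _ _ _ _ _ (by omega), ih (by omega)]
      have : (fun i => if i < n then update v n (v (T + n)) (T + i)
          else update v n (v (T + n)) i) =
          fun i => if i < n + 1 then v (T + i) else v i := by
        funext i
        rcases lt_trichotomy i n with h | h | h
        · rw [if_pos h, if_pos (by omega), update_of_ne (by omega)]
        · subst h
          simp
        · rw [if_neg (by omega), if_neg (by omega), update_of_ne (by omega)]
      rw [this]
  let B2 : ℕ → Fm := fun n => Nat.rec (B1 k) (fun n φ => asg (T + n) (ρ n) φ) n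
  have hB2 : ∀ n, n ≤ k → ∀ v V, (B2 n).Sat v V ↔
      (B1 k).Sat (fun i => if T ≤ i ∧ i < T + n then v (ρ (i - T)) else v i) V := by
    intro n
    induction n with
    | zero =>
      intro _ v V
      have : (fun i => if T ≤ i ∧ i < T + 0 then v (ρ (i - T)) else v i) = v := by
        funext i
        rw [if_neg (by omega)]
      rw [this]
      exact Iff.rfl
    | succ n ih =>
      intro hn v V
      have hr : ρ n < T := hT.2 n (by omega)
      change (asg (T + n) (ρ n) (B2 n)).Sat v V ↔ _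
      rw [hasg _ _ _ _ _ (by omega), ih (by omega)]
      have : (fun i => if T ≤ i ∧ i < T + n then update v (T + n) (v (ρ n)) (ρ (i - T))
          else update v (T + n) (v (ρ n)) i) =
          fun i => if T ≤ i ∧ i < T + (n + 1) then v (ρ (i - T)) else v i := by
        funext i
        rcases lt_trichotomy i (T + n) with h | h | h
        · by_cases h' : T ≤ i
          · have : ρ (i - T) < T := hT.2 _ (by omega)
            rw [if_pos ⟨h', h⟩, if_pos ⟨h', by omega⟩, update_of_ne (by omega)]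
          · rw [if_neg (by omega), if_neg (by omega), update_of_ne (by omega)]
        · subst h
          simp
        · rw [if_neg (by omega), if_neg (by omega), update_of_ne (by omega)]
      rw [this]
  have hA1 : ∀ n, (B1 n).IsArith ∧ ∀ j, (B1 n).FreeS j → j ∈ s := by
    intro n
    induction n with
    | zero => exact ⟨h1, h2⟩
    | succ n ih =>
      refine ⟨⟨trivial, ih.1⟩, fun j hj => ?_⟩
      rcases hj with hj | hj
      · exact hj.elim
      · exact ih.2 j hj
  have hA2 : ∀ n, (B2 n).IsArith ∧ ∀ j, (B2 n).FreeS j → j ∈ s := by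
    intro n
    induction n with
    | zero => exact hA1 k
    | succ n ih =>
      refine ⟨⟨trivial, ih.1⟩, fun j hj => ?_⟩
      rcases hj with hj | hj
      · exact hj.elim
      · exact ih.2 j hj
  refine ⟨B2 k, (hA2 k).1, (hA2 k).2, fun v V => ?_⟩
  rw [hB2 k le_rfl, hB1 k le_rfl, h3]
  refine hk _ _ V fun i hi => ?_
  rw [if_pos hi, if_pos ⟨by omega, by omega⟩]
  congr 2
  omega

theorem all (hR : DefS s R) : DefS s (fun w V => ∀ a, R (cns a w) V) := by
  obtain ⟨k, hk⟩ : ∃ k, ∀ v v' V, (∀ i < k, v i = v' i) → (R v V ↔ R v' V) := by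
    obtain ⟨θ, _, _, h3⟩ := hR
    exact DefS.support h3
  refine iff' (fun v V => ?_) (all_at k (ren (fun i => Nat.casesOn i k fun i => i) hR))
  refine forall_congr' fun a => hk _ _ V fun i hi => ?_
  cases i with
  | zero => simp
  | succ i => simp [update_of_ne (show i ≠ k by omega)]

/-- Only the relevant variables are free. -/
theorem restrict {I : Set ℕ} (hR : DefS s R)
    (hI : ∀ v v' V, (∀ i ∈ I, v i = v' i) → (R v V ↔ R v' V)) :
    ∃ θ : Fm, θ.IsArith ∧ (∀ i, θ.FreeN i → i ∈ I) ∧ (∀ j, θ.FreeS j → j ∈ s) ∧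
      ∀ v V, θ.Sat v V ↔ R v V := by
  classical
  obtain ⟨θ, h1, h2, h3⟩ := hR
  obtain ⟨k, hk⟩ := exists_free_bound θ
  let B : ℕ → Fm := fun n => Nat.rec θ (fun n φ => if n ∈ I then φ else .allN n φ) n
  have hB : ∀ n, (B n).IsArith ∧ (∀ i, (B n).FreeN i → i ∈ I ∨ n ≤ i ∧ i < k) ∧
      (∀ j, (B n).FreeS j → j ∈ s) ∧ ∀ v V, (B n).Sat v V ↔ R v V := by
    intro n
    induction n with
    | zero => exact ⟨h1, fun i hi => Or.inr ⟨Nat.zero_le _, hk i hi⟩, h2, h3⟩
    | succ n ih =>
      obtain ⟨g1, g2, g3, g4⟩ := ih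
      by_cases hn : n ∈ I
      · have : B (n + 1) = B n := by simp [B, hn]
        rw [this]
        refine ⟨g1, fun i hi => ?_, g3, g4⟩
        rcases g2 i hi with h | h
        · exact Or.inl h
        · by_cases e : i = n
          · subst e; exact Or.inl hn
          · exact Or.inr ⟨by omega, h.2⟩
      · have : B (n + 1) = .allN n (B n) := by simp [B, hn]
        rw [this]
        refine ⟨g1, fun i hi => ?_, g3, fun v V => ?_⟩
        · obtain ⟨hi1, hi2⟩ := hi
          rcases g2 i hi2 with h | h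
          · exact Or.inl h
          · exact Or.inr ⟨by omega, h.2⟩
        · rw [sat_allN]
          constructor
          · intro h
            have := (g4 _ _).1 (h (v n))
            rwa [update_eq_self] at this
          · intro h a
            refine (g4 _ _).2 ((hI _ _ V fun i hi => ?_).1 h)
            have : i ≠ n := fun e => hn (e ▸ hi)
            simp [this]
  obtain ⟨g1, g2, g3, g4⟩ := hB k
  refine ⟨B k, g1, fun i hi => ?_, g3, g4⟩
  rcases g2 i hi with h | h
  · exact h
  · omega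

end DefS

/-- Arithmetical relations. -/
def D0 (R : (ℕ → ℕ) → Prop) : Prop := DefS ∅ fun w _ => R w

theorem dc0 : DC D0 where
  add := DefS.add
  mul := DefS.mul
  bot := DefS.bot
  imp h1 h2 := DefS.imp h1 h2
  all h := DefS.all h
  ren ρ h := DefS.ren ρ h

/-- Relations arithmetical in the set `X_0`. -/
def D1 (R : Set ℕ → (ℕ → ℕ) → Prop) : Prop := DefS {0} fun w V => R (V 0) w

theorem D0.toD1 {R : (ℕ → ℕ) → Prop} (h : D0 R) : D1 fun _ => R := by
  obtain ⟨θ, h1, h2, h3⟩ := h
  exact ⟨θ, h1, fun j hj => (h2 j hj).elim, h3⟩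

end Pool.Agent.D0H65.PS
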