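import Pool.Agent.D0H65.PS.Der

/-!
# Existence of a correct arithmetization
-/

set_option autoImplicit false

namespace Pool.Agent.D0H65.PS

open Function Pool.Agent.Helper180.ArithDef Classical

/-! ### Truth of `Π¹₁` sentences -/

/-- the assignment of sets coded by `X` -/
def VX (X : Set ℕ) (j : ℕ) : Set ℕ := {n | Nat.pair 0 (Nat.pair j n) ∈ X}

/-- the satisfaction relation coded by `X` -/
def TX (X : Set ℕ) (c v : ℕ) : Prop := Nat.pair 1 (Nat.pair c v) ∈ X

/-- `X` codes an assignment of sets and a satisfaction relation for arithmetical formulas -/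
def Cls (X : Set ℕ) : Prop := ∀ c v,
  (c = 0 → ¬ TX X c v) ∧
  (∀ a b, c = ceq a b →
    (TX X c v ↔ (tdec a).val (Nat.beta v) = (tdec b).val (Nat.beta v))) ∧
  (∀ a b, c = clt a b →
    (TX X c v ↔ (tdec a).val (Nat.beta v) < (tdec b).val (Nat.beta v))) ∧
  (∀ a j, c = cmem a j →
    (TX X c v ↔ Nat.pair 0 (Nat.pair j ((tdec a).val (Nat.beta v))) ∈ X)) ∧
  (∀ a b, c = cimp a b → (TX X c v ↔ (TX X a v → TX X b v))) ∧
  (∀ i a, c = callN i a →
    (TX X c v ↔ ∀ v', (∀ k, k < c → k ≠ i → Nat.beta v' k = Nat.beta v k) → TX X a v'))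

theorem occ_lt : ∀ (t : Tm) (k : ℕ), t.Occ k → k < t.code
  | .var i, k, h => by
    have : i = k := h
    simp only [Tm.code]; omega
  | .zero, _, h => h.elim
  | .one, _, h => h.elim
  | .add s t, k, h => by
    have h1 := Nat.left_le_pair s.code t.code
    have h2 := Nat.right_le_pair s.code t.code
    simp only [Tm.code]
    rcases h with h | h
    · have := occ_lt s k h; omega
    · have := occ_lt t k h; omega
  | .mul s t, k, h => by
    have h1 := Nat.left_le_pair s.code t.code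
    have h2 := Nat.right_le_pair s.code t.code
    simp only [Tm.code]
    rcases h with h | h
    · have := occ_lt s k h; omega
    · have := occ_lt t k h; omega

theorem freeN_lt : ∀ (φ : Fm) (k : ℕ), φ.FreeN k → k < φ.code
  | .bot, _, h => h.elim
  | .eq s t, k, h => by
    have h1 := Nat.left_le_pair s.code t.code
    have h2 := Nat.right_le_pair s.code t.code
    simp only [Fm.code]
    rcases h with h | h
    · have := occ_lt s k h; omega
    · have := occ_lt t k h; omega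
  | .lt s t, k, h => by
    have h1 := Nat.left_le_pair s.code t.code
    have h2 := Nat.right_le_pair s.code t.code
    simp only [Fm.code]
    rcases h with h | h
    · have := occ_lt s k h; omega
    · have := occ_lt t k h; omega
  | .mem t j, k, h => by
    have h1 := Nat.left_le_pair t.code j
    have := occ_lt t k h
    simp only [Fm.code]; omega
  | .imp φ ψ, k, h => by
    have h1 := Nat.left_le_pair φ.code ψ.code
    have h2 := Nat.right_le_pair φ.code ψ.code
    simp only [Fm.code]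
    rcases h with h | h
    · have := freeN_lt φ k h; omega
    · have := freeN_lt ψ k h; omega
  | .allN i φ, k, h => by
    have h2 := Nat.right_le_pair i φ.code
    have := freeN_lt φ k h.2
    simp only [Fm.code]; omega
  | .allS i φ, k, h => by
    have h2 := Nat.right_le_pair i φ.code
    have := freeN_lt φ k h
    simp only [Fm.code]; omega

theorem sat_allN_beta (i : ℕ) (φ : Fm) (v : ℕ) (V : ℕ → Set ℕ) :
    (Fm.allN i φ).Sat (Nat.beta v) V ↔
      ∀ v', (∀ k, k < callN i φ.code → k ≠ i → Nat.beta v' k = Nat.beta v k) →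
        φ.Sat (Nat.beta v') V := by
  have hlt : ∀ k, φ.FreeN k → k < callN i φ.code := fun k hk => by
    have h1 := freeN_lt φ k hk
    have h2 := Nat.right_le_pair i φ.code
    simp only [callN]; omega
  rw [sat_allN]
  constructor
  · intro h v' hv'
    refine (sat_congr (fun k hk => ?_) (fun _ _ => rfl)).1 (h (Nat.beta v' i))
    by_cases hki : k = i
    · subst hki; simp
    · rw [update_of_ne hki, hv' k (hlt k hk) hki]
  · intro h a
    obtain ⟨v', hv'⟩ := exists_beta (update (Nat.beta v) i a) (callN i φ.code)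
    refine (sat_congr (fun k hk => hv' k (hlt k hk)) (fun _ _ => rfl)).1 (h v' fun k hk hki => ?_)
    rw [hv' k hk, update_of_ne hki]

theorem Cls.sat {X : Set ℕ} (hX : Cls X) : ∀ (φ : Fm), φ.IsArith → ∀ v,
    (TX X φ.code v ↔ φ.Sat (Nat.beta v) (VX X))
  | .bot, _, v => by
    simpa [Fm.code] using (hX 0 v).1 rfl
  | .eq s t, _, v => by
    have := (hX (Fm.eq s t).code v).2.1 s.code t.code rfl
    simpa using this
  | .lt s t, _, v => by
    have := (hX (Fm.lt s t).code v).2.2.1 s.code t.code rfl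
    simpa using this
  | .mem t j, _, v => by
    have := (hX (Fm.mem t j).code v).2.2.2.1 t.code j rfl
    simpa [VX] using this
  | .imp φ ψ, h, v => by
    have := (hX (Fm.imp φ ψ).code v).2.2.2.2.1 φ.code ψ.code rfl
    rw [this, Cls.sat hX φ h.1, Cls.sat hX ψ h.2, sat_imp]
  | .allN i φ, h, v => by
    have := (hX (Fm.allN i φ).code v).2.2.2.2.2 i φ.code rfl
    rw [this, sat_allN_beta]
    refine forall_congr' fun v' => ?_
    rw [Cls.sat hX φ h v']
    exact Iff.rfl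
  | .allS i φ, h, v => h.elim

theorem exists_Cls (V : ℕ → Set ℕ) : ∃ X, Cls X ∧ VX X = V := by
  let X : Set ℕ := {p | (∃ j n, p = Nat.pair 0 (Nat.pair j n) ∧ n ∈ V j) ∨
    ∃ c v, p = Nat.pair 1 (Nat.pair c v) ∧ (fdec c).Sat (Nat.beta v) V}
  have hV : ∀ j n, Nat.pair 0 (Nat.pair j n) ∈ X ↔ n ∈ V j := by
    intro j n
    constructor
    · rintro (⟨j', n', h, hn⟩ | ⟨c, v, h, _⟩)
      · simp only [Nat.pair_eq_pair, true_and] at h
        obtain ⟨rfl, rfl⟩ := h
        exact hn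
      · simp at h
    · intro hn; exact Or.inl ⟨j, n, rfl, hn⟩
  have hT : ∀ c v, TX X c v ↔ (fdec c).Sat (Nat.beta v) V := by
    intro c v
    constructor
    · rintro (⟨j', n', h, hn⟩ | ⟨c', v', h, h'⟩)
      · simp at h
      · simp only [Nat.pair_eq_pair, true_and] at h
        obtain ⟨rfl, rfl⟩ := h
        exact h'
    · intro hn; exact Or.inr ⟨c, v, rfl, hn⟩
  refine ⟨X, fun c v => ⟨?_, ?_, ?_, ?_, ?_, ?_⟩, ?_⟩
  · rintro rfl
    rw [hT, fdec_zero]; simp
  · rintro a b rfl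
    rw [hT, fdec_ceq]; simp
  · rintro a b rfl
    have : fdec (clt a b) = .lt (tdec a) (tdec b) := by
      apply Fm.code_inj; simp [Fm.code, clt]
    rw [hT, this]; simp
  · rintro a b rfl
    have : fdec (cmem a b) = .mem (tdec a) b := by
      apply Fm.code_inj; simp [Fm.code, cmem]
    rw [hT, this, hV]; simp
  · rintro a b rfl
    rw [hT, fdec_cimp, hT, hT]; simp
  · rintro i a rfl
    rw [hT, fdec_callN, sat_allN_beta]
    refine forall_congr' fun v' => ?_
    rw [code_fdec, hT]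
  · funext j
    ext n
    exact hV j n

theorem strip_arith {φ : Fm} (h : φ.IsArith) : strip φ = φ := by
  cases φ <;> first | rfl | exact h.elim

theorem strip_spec {φ : Fm} (h : φ.IsPi11) : (strip φ).IsArith ∧
    ∀ v, (∀ V, φ.Sat v V) ↔ ∀ V, (strip φ).Sat v V := by
  induction h with
  | arith h => rw [strip_arith h]; exact ⟨h, fun v => Iff.rfl⟩
  | @all j φ _ ih =>
    refine ⟨ih.1, fun v => ?_⟩
    show (∀ V, (Fm.allS j φ).Sat v V) ↔ ∀ V, (strip φ).Sat v V
    rw [← ih.2 v]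
    constructor
    · intro h V
      have := h V (V j)
      rwa [update_eq_self] at this
    · intro h V A
      exact h _

/-- the relation defined by `θ` -/
def ThR (X : Set ℕ) (x : ℕ) : Prop := Cls X → TX X (strip (fdec x)).code 0

theorem ThR_spec {φ : Fm} (h : φ.IsPi11) (h' : φ.IsSentence) :
    (∀ X, ThR X φ.code) ↔ φ.IsTrue := by
  obtain ⟨h1, h2⟩ := strip_spec h
  have h3 : φ.IsTrue ↔ ∀ V, φ.Sat (Nat.beta 0) V :=
    ⟨fun h V => (IsSentence.sat_iff h' _ _).2 h, fun h => (IsSentence.sat_iff h' _ _).1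
      (h (fun _ => ∅))⟩
  rw [h3, h2]
  constructor
  · intro h V
    obtain ⟨X, hX, rfl⟩ := exists_Cls V
    have := h X hX
    rwa [fdec_code, hX.sat _ h1] at this
  · intro h X hX
    rw [fdec_code, hX.sat _ h1]
    exact h _

/-! ### Definability in `X_0` -/

namespace D1

variable {R Q : Set ℕ → (ℕ → ℕ) → Prop}

theorem imp (hR : D1 R) (hQ : D1 Q) : D1 (fun X w => R X w → Q X w) := DefS.imp hR hQ

theorem iff' (h : ∀ X w, Q X w ↔ R X w) (hQ : D1 Q) : D1 R := by
  have : Q = R := funext fun v => funext fun V => propext (h v V)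
  rwa [← this]

theorem bot : D1 (fun _ _ => False) := DefS.bot

theorem not (hR : D1 R) : D1 (fun X w => ¬ R X w) := imp hR bot

theorem and (hR : D1 R) (hQ : D1 Q) : D1 (fun X w => R X w ∧ Q X w) :=
  iff' (fun X w => by tauto) (not (imp hR (not hQ)))

theorem iff (hR : D1 R) (hQ : D1 Q) : D1 (fun X w => (R X w ↔ Q X w)) :=
  iff' (fun X w => by tauto) (and (imp hR hQ) (imp hQ hR))

theorem all' {S : ℕ → Set ℕ → (ℕ → ℕ) → Prop}
    (hS : D1 (fun X w => S (w 0) X (fun n => w (n + 1)))) : D1 (fun X w => ∀ a, S a X w) := by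
  have h1 : D1 (fun X w => ∀ a, S ((cns a w) 0) X (fun n => (cns a w) (n + 1))) :=
    DefS.all (R := fun w V => S (w 0) (V 0) (fun n => w (n + 1))) hS
  exact h1

theorem ex' {S : ℕ → Set ℕ → (ℕ → ℕ) → Prop}
    (hS : D1 (fun X w => S (w 0) X (fun n => w (n + 1)))) : D1 (fun X w => ∃ a, S a X w) :=
  iff' (fun X w => by simp) (not (all' (S := fun a X w => ¬ S a X w) (not hS)))

theorem mem {F : (ℕ → ℕ) → ℕ} (hF : DT D0 F) : D1 (fun X w => F w ∈ X) := by
  refine iff' (fun X w => ?_) (ex' (S := fun a X w => a = F w ∧ a ∈ X)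
    (and (D0.toD1 hF) (DefS.mem 0 (by simp))))
  simp

theorem TX {F G : (ℕ → ℕ) → ℕ} (hF : DT D0 F) (hG : DT D0 G) :
    D1 (fun X w => TX X (F w) (G w)) :=
  mem (dc0.tpair dc0.tone (dc0.tpair hF hG))

end D1

theorem dval' {F G : (ℕ → ℕ) → ℕ} (hF : DT D0 F) (hG : DT D0 G) :
    DT D0 (fun w => (tdec (F w)).val (Nat.beta (G w))) :=
  fun2 dc0 (F := fun p n => (tdec n).val (Nat.beta p)) (dval dc0) hG hF

theorem d1Cls : D1 (fun X _ => Cls X) := by
  have h := dc0
  refine D1.all' (S := fun c X _ => ∀ v, _) (D1.all' (S := fun v X w =>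
    (w 0 = 0 → ¬ TX X (w 0) v) ∧
    (∀ a b, w 0 = ceq a b →
      (TX X (w 0) v ↔ (tdec a).val (Nat.beta v) = (tdec b).val (Nat.beta v))) ∧
    (∀ a b, w 0 = clt a b →
      (TX X (w 0) v ↔ (tdec a).val (Nat.beta v) < (tdec b).val (Nat.beta v))) ∧
    (∀ a j, w 0 = cmem a j →
      (TX X (w 0) v ↔ Nat.pair 0 (Nat.pair j ((tdec a).val (Nat.beta v))) ∈ X)) ∧
    (∀ a b, w 0 = cimp a b → (TX X (w 0) v ↔ (TX X a v → TX X b v))) ∧
    (∀ i a, w 0 = callN i a →
      (TX X (w 0) v ↔ ∀ v', (∀ k, k < w 0 → k ≠ i → Nat.beta v' k = Nat.beta v k) → TX X a v')))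
    ?_)
  -- now `w 0 = v`, `w 1 = c`
  refine D1.and (D1.imp (D0.toD1 (h.eq (h.tvar 1) h.tzero)) (D1.not (D1.TX (h.tvar 1) (h.tvar 0))))
    (D1.and ?_ (D1.and ?_ (D1.and ?_ (D1.and ?_ ?_))))
  · refine D1.all' (S := fun a X w => ∀ b, w 1 = ceq a b →
      (TX X (w 1) (w 0) ↔ (tdec a).val (Nat.beta (w 0)) = (tdec b).val (Nat.beta (w 0))))
      (D1.all' (S := fun b X w => w 2 = ceq (w 0) b →
      (TX X (w 2) (w 1) ↔ (tdec (w 0)).val (Nat.beta (w 1)) = (tdec b).val (Nat.beta (w 1)))) ?_)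
    exact D1.imp (D0.toD1 (h.eq (h.tvar 3) (deq h (h.tvar 1) (h.tvar 0))))
      (D1.iff (D1.TX (h.tvar 3) (h.tvar 2)) (D0.toD1 (h.eq (dval' (h.tvar 1) (h.tvar 2))
        (dval' (h.tvar 0) (h.tvar 2)))))
  · refine D1.all' (S := fun a X w => ∀ b, w 1 = clt a b →
      (TX X (w 1) (w 0) ↔ (tdec a).val (Nat.beta (w 0)) < (tdec b).val (Nat.beta (w 0))))
      (D1.all' (S := fun b X w => w 2 = clt (w 0) b →
      (TX X (w 2) (w 1) ↔ (tdec (w 0)).val (Nat.beta (w 1)) < (tdec b).val (Nat.beta (w 1)))) ?_)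
    exact D1.imp (D0.toD1 (h.eq (h.tvar 3) (dlt h (h.tvar 1) (h.tvar 0))))
      (D1.iff (D1.TX (h.tvar 3) (h.tvar 2)) (D0.toD1 (h.lt (dval' (h.tvar 1) (h.tvar 2))
        (dval' (h.tvar 0) (h.tvar 2)))))
  · refine D1.all' (S := fun a X w => ∀ j, w 1 = cmem a j →
      (TX X (w 1) (w 0) ↔ Nat.pair 0 (Nat.pair j ((tdec a).val (Nat.beta (w 0)))) ∈ X))
      (D1.all' (S := fun j X w => w 2 = cmem (w 0) j →
      (TX X (w 2) (w 1) ↔ Nat.pair 0 (Nat.pair j ((tdec (w 0)).val (Nat.beta (w 1)))) ∈ X)) ?_)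
    exact D1.imp (D0.toD1 (h.eq (h.tvar 3) (dmem h (h.tvar 1) (h.tvar 0))))
      (D1.iff (D1.TX (h.tvar 3) (h.tvar 2)) (D1.mem (h.tpair h.tzero (h.tpair (h.tvar 0)
        (dval' (h.tvar 1) (h.tvar 2))))))
  · refine D1.all' (S := fun a X w => ∀ b, w 1 = cimp a b →
      (TX X (w 1) (w 0) ↔ (TX X a (w 0) → TX X b (w 0))))
      (D1.all' (S := fun b X w => w 2 = cimp (w 0) b →
      (TX X (w 2) (w 1) ↔ (TX X (w 0) (w 1) → TX X b (w 1)))) ?_)
    exact D1.imp (D0.toD1 (h.eq (h.tvar 3) (dimp h (h.tvar 1) (h.tvar 0))))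
      (D1.iff (D1.TX (h.tvar 3) (h.tvar 2)) (D1.imp (D1.TX (h.tvar 1) (h.tvar 2))
        (D1.TX (h.tvar 0) (h.tvar 2))))
  · refine D1.all' (S := fun i X w => ∀ a, w 1 = callN i a →
      (TX X (w 1) (w 0) ↔ ∀ v', (∀ k, k < w 1 → k ≠ i → Nat.beta v' k = Nat.beta (w 0) k) →
        TX X a v'))
      (D1.all' (S := fun a X w => w 2 = callN (w 0) a →
      (TX X (w 2) (w 1) ↔ ∀ v', (∀ k, k < w 2 → k ≠ w 0 →
        Nat.beta v' k = Nat.beta (w 1) k) → TX X a v')) ?_)
    refine D1.imp (D0.toD1 (h.eq (h.tvar 3) (dallN h (h.tvar 1) (h.tvar 0))))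
      (D1.iff (D1.TX (h.tvar 3) (h.tvar 2)) ?_)
    refine D1.all' (S := fun v' X w => (∀ k, k < w 3 → k ≠ w 1 →
        Nat.beta v' k = Nat.beta (w 2) k) → TX X (w 0) v') ?_
    refine D1.imp (D0.toD1 ?_) (D1.TX (h.tvar 1) (h.tvar 0))
    exact h.all' (S := fun k w => k < w 4 → k ≠ w 2 → Nat.beta (w 0) k = Nat.beta (w 3) k)
      (h.imp (h.lt (h.tvar 0) (h.tvar 5)) (h.imp (h.not (h.eq (h.tvar 0) (h.tvar 3)))
        (h.eq (h.tbeta (h.tvar 1) (h.tvar 0)) (h.tbeta (h.tvar 4) (h.tvar 0)))))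

theorem d1ThR : D1 (fun X w => ThR X (w 0)) := by
  refine D1.imp d1Cls (D1.TX ?_ dc0.tzero)
  exact fun1 dc0 (F := fun x => (strip (fdec x)).code) (dstrip dc0) (dc0.tvar 0)

/-! ### The axioms of `Σ¹₁-AC₀` -/

theorem fdec_cexS (a b : ℕ) : fdec (cexS a b) = .exS a (fdec b) := by
  rw [cexS, fdec_cneg, fdec_callS, fdec_cneg]; rfl

/-- numerical version of `IsSigma11` -/
def SigN (c : ℕ) : Prop := ∃ s n, (fdec (Nat.beta s 0)).IsArith ∧ Nat.beta s n = c ∧
  ∀ i, i < n → ∃ j, Nat.beta s (i + 1) = cexS j (Nat.beta s i)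

theorem SigN_iff (φ : Fm) : SigN φ.code ↔ φ.IsSigma11 := by
  constructor
  · rintro ⟨s, n, h1, h2, h3⟩
    have : ∀ k, k ≤ n → (fdec (Nat.beta s k)).IsSigma11 := by
      intro k
      induction k with
      | zero => intro _; exact .arith h1
      | succ k ih =>
        intro hk
        obtain ⟨j, hj⟩ := h3 k (by omega)
        rw [hj, fdec_cexS]
        exact .ex (ih (by omega))
    have h4 := this n le_rfl
    rwa [h2, fdec_code] at h4
  · intro h
    induction h with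
    | @arith φ h =>
      obtain ⟨s, hs⟩ := exists_beta (fun _ => φ.code) 1
      exact ⟨s, 0, by rw [hs 0 (by omega), fdec_code]; exact h, hs 0 (by omega),
        fun i hi => by omega⟩
    | @ex j φ _ ih =>
      obtain ⟨s, n, h1, h2, h3⟩ := ih
      obtain ⟨s', hs⟩ := exists_beta (fun k => if k ≤ n then Nat.beta s k else (Fm.exS j φ).code)
        (n + 2)
      have e : ∀ k, k ≤ n → Nat.beta s' k = Nat.beta s k := fun k hk => by
        rw [hs k (by omega), if_pos hk]
      have e' : Nat.beta s' (n + 1) = (Fm.exS j φ).code := by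
        rw [hs _ (by omega), if_neg (by omega)]
      refine ⟨s', n + 1, by rw [e 0 (by omega)]; exact h1, e', fun i hi => ?_⟩
      by_cases hin : i < n
      · rw [e i (by omega), e (i + 1) (by omega)]
        exact h3 i hin
      · obtain rfl : i = n := by omega
        refine ⟨j, ?_⟩
        rw [e', e i le_rfl, h2]
        rfl

/-- numerical version of `closeN` -/
def CN (n a c : ℕ) : Prop := ∃ s, Nat.beta s 0 = a ∧ Nat.beta s n = c ∧
  ∀ i, i < n → Nat.beta s (i + 1) = callN i (Nat.beta s i)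

theorem CN_iff (n : ℕ) (φ : Fm) (c : ℕ) : CN n φ.code c ↔ c = (closeN n φ).code := by
  constructor
  · rintro ⟨s, h1, h2, h3⟩
    have : ∀ k, k ≤ n → Nat.beta s k = (closeN k φ).code := by
      intro k
      induction k with
      | zero => intro _; exact h1
      | succ k ih =>
        intro hk
        rw [h3 k (by omega), ih (by omega)]
        rfl
    rw [← h2, this n le_rfl]
  · rintro rfl
    obtain ⟨s, hs⟩ := exists_beta (fun k => (closeN k φ).code) (n + 1)
    refine ⟨s, hs 0 (by omega), hs n (by omega), fun i hi => ?_⟩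
    rw [hs _ (by omega), hs i (by omega)]
    rfl

/-- numerical version of `closeS` -/
def CS (n a c : ℕ) : Prop := ∃ s, Nat.beta s 0 = a ∧ Nat.beta s n = c ∧
  ∀ i, i < n → Nat.beta s (i + 1) = callS i (Nat.beta s i)

theorem CS_iff (n : ℕ) (φ : Fm) (c : ℕ) : CS n φ.code c ↔ c = (closeS n φ).code := by
  constructor
  · rintro ⟨s, h1, h2, h3⟩
    have : ∀ k, k ≤ n → Nat.beta s k = (closeS k φ).code := by
      intro k
      induction k with
      | zero => intro _; exact h1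
      | succ k ih =>
        intro hk
        rw [h3 k (by omega), ih (by omega)]
        rfl
    rw [← h2, this n le_rfl]
  · rintro rfl
    obtain ⟨s, hs⟩ := exists_beta (fun k => (closeS k φ).code) (n + 1)
    refine ⟨s, hs 0 (by omega), hs n (by omega), fun i hi => ?_⟩
    rw [hs _ (by omega), hs i (by omega)]
    rfl

/-- numerical version of `Inst` -/
def InstN (c : ℕ) : Prop :=
  (c = (Fm.neg (.eq (.add (.var 0) .one) .zero)).code) ∨
  (c = (Fm.imp (.eq (.add (.var 0) .one) (.add (.var 1) .one)) (.eq (.var 0) (.var 1))).code) ∨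
  (c = (Fm.eq (.add (.var 0) .zero) (.var 0)).code) ∨
  (c = (Fm.eq (.add (.var 0) (.add (.var 1) .one)) (.add (.add (.var 0) (.var 1)) .one)).code) ∨
  (c = (Fm.eq (.mul (.var 0) .zero) .zero).code) ∨
  (c = (Fm.eq (.mul (.var 0) (.add (.var 1) .one)) (.add (.mul (.var 0) (.var 1)) (.var 0))).code) ∨
  (c = (Fm.neg (.lt (.var 0) .zero)).code) ∨
  (c = (Fm.iff (.lt (.var 0) (.add (.var 1) .one))
      (Fm.or (.lt (.var 0) (.var 1)) (.eq (.var 0) (.var 1)))).code) ∨
  (c = (Fm.imp (Fm.and (.mem .zero 0) (.allN 0 (.imp (.mem (.var 0) 0)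
      (.mem (.add (.var 0) .one) 0)))) (.allN 0 (.mem (.var 0) 0))).code) ∨
  (∃ i j a, (fdec a).IsArith ∧ ¬ (fdec a).FreeS j ∧
    c = cexS j (callN i (ciff (cmem (cvar i) j) a))) ∨
  (∃ i m j k a, SigN a ∧ ¬ (fdec a).FreeS k ∧ m ≠ i ∧ k ≠ j ∧
    c = cimp (callN i (cexS j a)) (cexS k (callN i (cexS j (cand
        (callN m (ciff (cmem (cvar m) j)
          (cmem (cadd (cmul (cadd (cvar i) (cvar m)) (cadd (cvar i) (cvar m))) (cvar i)) k)))
        a)))))

theorem InstN_iff (c : ℕ) : InstN c ↔ ∃ φ, Inst φ ∧ c = φ.code := by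
  constructor
  · rintro (h | h | h | h | h | h | h | h | h | ⟨i, j, a, h1, h2, h3⟩ |
      ⟨i, m, j, k, a, h1, h2, h3, h4, h5⟩)
    · exact ⟨_, .succ_ne_zero, h⟩
    · exact ⟨_, .succ_inj, h⟩
    · exact ⟨_, .add_zero, h⟩
    · exact ⟨_, .add_succ, h⟩
    · exact ⟨_, .mul_zero, h⟩
    · exact ⟨_, .mul_succ, h⟩
    · exact ⟨_, .not_lt_zero, h⟩
    · exact ⟨_, .lt_succ, h⟩
    · exact ⟨_, .ind, h⟩
    · refine ⟨_, .comp i j (fdec a) h1 h2, ?_⟩
      rw [h3]
      have : a = (fdec a).code := by simp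
      rw [this]
      simp only [fdec_code]
      rfl
    · have : a = (fdec a).code := by simp
      rw [this] at h1
      refine ⟨_, .choice i m j k (fdec a) ((SigN_iff _).1 h1) h2 h3 h4, ?_⟩
      rw [h5, this]
      simp only [fdec_code]
      rfl
  · rintro ⟨φ, h, rfl⟩
    cases h with
    | succ_ne_zero => exact Or.inl rfl
    | succ_inj => exact Or.inr (Or.inl rfl)
    | add_zero => exact Or.inr (Or.inr (Or.inl rfl))
    | add_succ => exact Or.inr (Or.inr (Or.inr (Or.inl rfl)))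
    | mul_zero => exact Or.inr (Or.inr (Or.inr (Or.inr (Or.inl rfl))))
    | mul_succ => exact Or.inr (Or.inr (Or.inr (Or.inr (Or.inr (Or.inl rfl)))))
    | not_lt_zero => exact Or.inr (Or.inr (Or.inr (Or.inr (Or.inr (Or.inr (Or.inl rfl))))))
    | lt_succ =>
      exact Or.inr (Or.inr (Or.inr (Or.inr (Or.inr (Or.inr (Or.inr (Or.inl rfl)))))))
    | ind =>
      exact Or.inr (Or.inr (Or.inr (Or.inr (Or.inr (Or.inr (Or.inr (Or.inr (Or.inl rfl))))))))
    | comp i j φ h1 h2 =>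
      exact Or.inr (Or.inr (Or.inr (Or.inr (Or.inr (Or.inr (Or.inr (Or.inr (Or.inr (Or.inl
        ⟨i, j, φ.code, by simpa using h1, by simpa using h2, rfl⟩)))))))))
    | choice i m j k φ h1 h2 h3 h4 =>
      exact Or.inr (Or.inr (Or.inr (Or.inr (Or.inr (Or.inr (Or.inr (Or.inr (Or.inr (Or.inr
        ⟨i, m, j, k, φ.code, (SigN_iff _).2 h1, by simpa using h2, h3, h4, rfl⟩)))))))))

theorem mem_Sigma11AC0_iff (c : ℕ) : (∃ φ ∈ Sigma11AC0, c = φ.code) ↔
    (fdec c).IsSentence ∧ ∃ n m a b, InstN a ∧ CS m a b ∧ CN n b c := by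
  constructor
  · rintro ⟨φ, ⟨h1, n, m, ψ, h2, rfl⟩, rfl⟩
    refine ⟨by simpa using h1, n, m, ψ.code, (closeS m ψ).code, (InstN_iff _).2 ⟨ψ, h2, rfl⟩,
      (CS_iff _ _ _).2 rfl, (CN_iff _ _ _).2 rfl⟩
  · rintro ⟨h1, n, m, a, b, h2, h3, h4⟩
    obtain ⟨ψ, h5, rfl⟩ := (InstN_iff _).1 h2
    rw [CS_iff] at h3
    subst h3
    rw [CN_iff] at h4
    subst h4
    rw [fdec_code] at h1
    exact ⟨_, ⟨h1, n, m, ψ, h5, rfl⟩, rfl⟩

section dd

variable {D : ((ℕ → ℕ) → Prop) → Prop} (h : DC D)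
include h

theorem dSigN : D (fun w => SigN (w 0)) :=
  h.ex' (S := fun s w => ∃ n, (fdec (Nat.beta s 0)).IsArith ∧ Nat.beta s n = w 0 ∧
      ∀ i, i < n → ∃ j, Nat.beta s (i + 1) = cexS j (Nat.beta s i))
    (h.ex' (S := fun n w => (fdec (Nat.beta (w 0) 0)).IsArith ∧ Nat.beta (w 0) n = w 1 ∧
      ∀ i, i < n → ∃ j, Nat.beta (w 0) (i + 1) = cexS j (Nat.beta (w 0) i))
      (h.and (h.app1 (R := fun x => (fdec x).IsArith) (dIsArith h) (h.tbeta (h.tvar 1) h.tzero))
        (h.and (h.eq (h.tbeta (h.tvar 1) (h.tvar 0)) (h.tvar 2))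
          (h.all' (S := fun i w => i < w 0 → ∃ j, Nat.beta (w 1) (i + 1) =
              cexS j (Nat.beta (w 1) i))
            (h.imp (h.lt (h.tvar 0) (h.tvar 1))
              (h.ex' (S := fun j w => Nat.beta (w 2) (w 0 + 1) = cexS j (Nat.beta (w 2) (w 0)))
                (h.eq (h.tbeta (h.tvar 3) (h.tadd (h.tvar 1) h.tone))
                  (dexS h (h.tvar 0) (h.tbeta (h.tvar 3) (h.tvar 1))))))))))

theorem dCN : D (fun w => CN (w 0) (w 1) (w 2)) :=
  h.ex' (S := fun s w => Nat.beta s 0 = w 1 ∧ Nat.beta s (w 0) = w 2 ∧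
      ∀ i, i < w 0 → Nat.beta s (i + 1) = callN i (Nat.beta s i))
    (h.and (h.eq (h.tbeta (h.tvar 0) h.tzero) (h.tvar 2))
      (h.and (h.eq (h.tbeta (h.tvar 0) (h.tvar 1)) (h.tvar 3))
        (h.all' (S := fun i w => i < w 1 → Nat.beta (w 0) (i + 1) = callN i (Nat.beta (w 0) i))
          (h.imp (h.lt (h.tvar 0) (h.tvar 2))
            (h.eq (h.tbeta (h.tvar 1) (h.tadd (h.tvar 0) h.tone))
              (dallN h (h.tvar 0) (h.tbeta (h.tvar 1) (h.tvar 0))))))))

theorem dCS : D (fun w => CS (w 0) (w 1) (w 2)) :=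
  h.ex' (S := fun s w => Nat.beta s 0 = w 1 ∧ Nat.beta s (w 0) = w 2 ∧
      ∀ i, i < w 0 → Nat.beta s (i + 1) = callS i (Nat.beta s i))
    (h.and (h.eq (h.tbeta (h.tvar 0) h.tzero) (h.tvar 2))
      (h.and (h.eq (h.tbeta (h.tvar 0) (h.tvar 1)) (h.tvar 3))
        (h.all' (S := fun i w => i < w 1 → Nat.beta (w 0) (i + 1) = callS i (Nat.beta (w 0) i))
          (h.imp (h.lt (h.tvar 0) (h.tvar 2))
            (h.eq (h.tbeta (h.tvar 1) (h.tadd (h.tvar 0) h.tone))
              (dallS h (h.tvar 0) (h.tbeta (h.tvar 1) (h.tvar 0))))))))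

theorem dInstN : D (fun w => InstN (w 0)) := by
  have hc : ∀ n, D (fun w => w 0 = n) := fun n => h.eq (h.tvar 0) (tconst h n)
  refine h.or (hc _) (h.or (hc _) (h.or (hc _) (h.or (hc _) (h.or (hc _) (h.or (hc _)
    (h.or (hc _) (h.or (hc _) (h.or (hc _) (h.or ?_ ?_)))))))))
  · exact h.ex' (S := fun i w => ∃ j a, (fdec a).IsArith ∧ ¬ (fdec a).FreeS j ∧
      w 0 = cexS j (callN i (ciff (cmem (cvar i) j) a)))
      (h.ex' (S := fun j w => ∃ a, (fdec a).IsArith ∧ ¬ (fdec a).FreeS j ∧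
        w 1 = cexS j (callN (w 0) (ciff (cmem (cvar (w 0)) j) a)))
        (h.ex' (S := fun a w => (fdec a).IsArith ∧ ¬ (fdec a).FreeS (w 0) ∧
          w 2 = cexS (w 0) (callN (w 1) (ciff (cmem (cvar (w 1)) (w 0)) a)))
          (h.and (dIsArith h)
            (h.and (h.not (h.app2 (R := fun x y => (fdec y).FreeS x) (dFreeS h) (h.tvar 1)
              (h.tvar 0)))
              (h.eq (h.tvar 3) (dexS h (h.tvar 1) (dallN h (h.tvar 2)
                (diff h (dmem h (dvar h (h.tvar 2)) (h.tvar 1)) (h.tvar 0)))))))))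
  · exact h.ex' (S := fun i w => ∃ m j k a, SigN a ∧ ¬ (fdec a).FreeS k ∧ m ≠ i ∧ k ≠ j ∧
      w 0 = cimp (callN i (cexS j a)) (cexS k (callN i (cexS j (cand
        (callN m (ciff (cmem (cvar m) j)
          (cmem (cadd (cmul (cadd (cvar i) (cvar m)) (cadd (cvar i) (cvar m))) (cvar i)) k)))
        a)))))
      (h.ex' (S := fun m w => ∃ j k a, SigN a ∧ ¬ (fdec a).FreeS k ∧ m ≠ w 0 ∧ k ≠ j ∧
        w 1 = cimp (callN (w 0) (cexS j a)) (cexS k (callN (w 0) (cexS j (cand
        (callN m (ciff (cmem (cvar m) j)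
          (cmem (cadd (cmul (cadd (cvar (w 0)) (cvar m)) (cadd (cvar (w 0)) (cvar m)))
            (cvar (w 0))) k))) a)))))
        (h.ex' (S := fun j w => ∃ k a, SigN a ∧ ¬ (fdec a).FreeS k ∧ w 0 ≠ w 1 ∧ k ≠ j ∧
          w 2 = cimp (callN (w 1) (cexS j a)) (cexS k (callN (w 1) (cexS j (cand
          (callN (w 0) (ciff (cmem (cvar (w 0)) j)
            (cmem (cadd (cmul (cadd (cvar (w 1)) (cvar (w 0))) (cadd (cvar (w 1)) (cvar (w 0))))
              (cvar (w 1))) k))) a)))))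
          (h.ex' (S := fun k w => ∃ a, SigN a ∧ ¬ (fdec a).FreeS k ∧ w 1 ≠ w 2 ∧ k ≠ w 0 ∧
            w 3 = cimp (callN (w 2) (cexS (w 0) a)) (cexS k (callN (w 2) (cexS (w 0) (cand
            (callN (w 1) (ciff (cmem (cvar (w 1)) (w 0))
              (cmem (cadd (cmul (cadd (cvar (w 2)) (cvar (w 1))) (cadd (cvar (w 2)) (cvar (w 1))))
                (cvar (w 2))) k))) a)))))
            (h.ex' (S := fun a w => SigN a ∧ ¬ (fdec a).FreeS (w 0) ∧ w 2 ≠ w 3 ∧ w 0 ≠ w 1 ∧
              w 4 = cimp (callN (w 3) (cexS (w 1) a)) (cexS (w 0) (callN (w 3) (cexS (w 1) (cand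
              (callN (w 2) (ciff (cmem (cvar (w 2)) (w 1))
                (cmem (cadd (cmul (cadd (cvar (w 3)) (cvar (w 2)))
                  (cadd (cvar (w 3)) (cvar (w 2)))) (cvar (w 3))) (w 0)))) a)))))
              (h.and (dSigN h)
                (h.and (h.not (h.app2 (R := fun x y => (fdec y).FreeS x) (dFreeS h) (h.tvar 1)
                  (h.tvar 0)))
                  (h.and (h.not (h.eq (h.tvar 3) (h.tvar 4)))
                    (h.and (h.not (h.eq (h.tvar 1) (h.tvar 2)))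
                      (h.eq (h.tvar 5) (dimp h (dallN h (h.tvar 4) (dexS h (h.tvar 2) (h.tvar 0)))
                        (dexS h (h.tvar 1) (dallN h (h.tvar 4) (dexS h (h.tvar 2) (dand h
                          (dallN h (h.tvar 3) (diff h (dmem h (dvar h (h.tvar 3)) (h.tvar 2))
                            (dmem h (dadd h (dmul h (dadd h (dvar h (h.tvar 4))
                              (dvar h (h.tvar 3))) (dadd h (dvar h (h.tvar 4))
                              (dvar h (h.tvar 3)))) (dvar h (h.tvar 4))) (h.tvar 1))))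
                          (h.tvar 0)))))))))))))))

theorem dAx : D (fun w => ∃ φ ∈ Sigma11AC0, w 0 = φ.code) := by
  refine h.iff (fun w => (mem_Sigma11AC0_iff _).symm) (h.and (dIsSentence h) ?_)
  exact h.ex' (S := fun n w => ∃ m a b, InstN a ∧ CS m a b ∧ CN n b (w 0))
    (h.ex' (S := fun m w => ∃ a b, InstN a ∧ CS m a b ∧ CN (w 0) b (w 1))
      (h.ex' (S := fun a w => ∃ b, InstN a ∧ CS (w 0) a b ∧ CN (w 1) b (w 2))
        (h.ex' (S := fun b w => InstN (w 0) ∧ CS (w 1) (w 0) b ∧ CN (w 2) b (w 3))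
          (h.and (h.app1 (R := InstN) (dInstN h) (h.tvar 1))
            (h.and (h.app3 (R := CS) (dCS h) (h.tvar 2) (h.tvar 1) (h.tvar 0))
              (h.app3 (R := CN) (dCN h) (h.tvar 3) (h.tvar 0) (h.tvar 4)))))))

end dd

/-! ### The arithmetization -/

theorem exists_arithmetization : ∃ A : Arithmetization, A.Correct := by
  have h := dc0
  -- elements of finite sets
  obtain ⟨E, E1, E2, E3, E4⟩ := DefS.restrict (I := {1, 2})
    (show DefS ∅ (fun w _ => El (w 1) (w 2)) from dEl h (h.tvar 1) (h.tvar 2))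
    (fun v v' V hv => by rw [hv 1 (by simp), hv 2 (by simp)])
  -- derivability
  obtain ⟨P, P1, P2, P3, P4⟩ := DefS.restrict (I := {0, 1})
    (show DefS ∅ (fun w _ => PrvN (w 0) (w 1)) from dPrvN h)
    (fun v v' V hv => by rw [hv 0 (by simp), hv 1 (by simp)])
  -- `Π¹₁` sentences
  obtain ⟨S, S1, S2, S3, S4⟩ := DefS.restrict (I := {0})
    (show DefS ∅ (fun w _ => (fdec (w 0)).IsPi11 ∧ (fdec (w 0)).IsSentence) from
      h.and (dIsPi11 h) (dIsSentence h))
    (fun v v' V hv => by rw [hv 0 (by simp)])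
  -- truth
  obtain ⟨θ, T1, T2, T3, T4⟩ := DefS.restrict (I := {0})
    (show DefS {0} (fun w V => ThR (V 0) (w 0)) from d1ThR)
    (fun v v' V hv => by rw [hv 0 (by simp)])
  -- axioms
  obtain ⟨σ, σ1, σ2, σ3, σ4⟩ := DefS.restrict (I := {2})
    (show DefS ∅ (fun w _ => ∃ φ ∈ Sigma11AC0, w 2 = φ.code) from
      h.app1 (R := fun x => ∃ φ ∈ Sigma11AC0, x = φ.code) (dAx h) (h.tvar 2))
    (fun v v' V hv => by rw [hv 2 (by simp)])
  refine ⟨⟨E, P, S, 0, θ, σ⟩, ?_⟩
  constructor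
  · exact E1
  · intro i hi; simpa using E2 i hi
  · intro j hj; exact E3 j hj
  · intro v V
    refine (El_finite (v 1)).subset fun z hz => ?_
    have := (E4 _ _).1 hz
    simpa using this
  · intro F v V
    obtain ⟨y, hy⟩ := exists_El F
    refine ⟨y, fun z => ?_⟩
    rw [← hy z]
    refine (E4 _ _).trans ?_
    simp
  · exact P1
  · intro i hi; simpa using P2 i hi
  · intro j hj; exact P3 j hj
  · intro v V
    refine (P4 v V).trans ((PrvN_iff _ _).trans ?_)
    refine exists_congr fun Γ => exists_congr fun φ => and_congr ?_ Iff.rfl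
    refine forall_congr' fun ψ => imp_congr Iff.rfl ?_
    refine Iff.trans ?_ (E4 _ _).symm
    simp
  · exact S1
  · intro i hi; simpa using S2 i hi
  · intro j hj; exact S3 j hj
  · intro v V
    refine (S4 v V).trans ?_
    constructor
    · rintro ⟨h1, h2⟩
      exact ⟨fdec (v 0), h1, h2, by simp⟩
    · rintro ⟨φ, h1, h2, h3⟩
      rw [h3, fdec_code]
      exact ⟨h1, h2⟩
  · exact T1
  · intro i hi; simpa using T2 i hi
  · intro j hj; simpa using T3 j hj
  · intro φ hφ hφ' v V hv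
    rw [← ThR_spec hφ hφ']
    show (∀ X, θ.Sat v (update V 0 X)) ↔ _
    refine forall_congr' fun X => (T4 _ _).trans ?_
    simp [hv]
  · exact σ1
  · intro i hi; simpa using σ2 i hi
  · intro j hj; exact σ3 j hj
  · intro v V
    exact σ4 v V

end Pool.Agent.D0H65.PS
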