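import Pool.Agent.D0H65.PS.Dsl

/-!
# Definability of functions given by recursion on terms and formulas
-/

set_option autoImplicit false

namespace Pool.Agent.D0H65.PS

open Function Pool.Agent.Helper180.ArithDef

/-! ### Every number is a Gödel number -/

theorem Tm.exists_code (n : ℕ) : ∃ t : Tm, t.code = n := by
  induction n using Nat.strong_induction_on with
  | _ n ih =>
    match n, ih with
    | 0, _ => exact ⟨.zero, rfl⟩
    | 1, _ => exact ⟨.one, rfl⟩
    | n + 2, ih =>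
      have hq : ∃ q r, r < 3 ∧ n = 3 * q + r := ⟨n / 3, n % 3, Nat.mod_lt _ (by norm_num), by omega⟩
      obtain ⟨q, r, hr, hn⟩ := hq
      have h1 : (Nat.unpair q).1 ≤ q := Nat.unpair_left_le q
      have h2 : (Nat.unpair q).2 ≤ q := Nat.unpair_right_le q
      interval_cases r
      · exact ⟨.var q, by simp [Tm.code]; omega⟩
      · obtain ⟨s, hs⟩ := ih (Nat.unpair q).1 (by omega)
        obtain ⟨t, ht⟩ := ih (Nat.unpair q).2 (by omega)
        exact ⟨.add s t, by simp [Tm.code, hs, ht]; omega⟩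
      · obtain ⟨s, hs⟩ := ih (Nat.unpair q).1 (by omega)
        obtain ⟨t, ht⟩ := ih (Nat.unpair q).2 (by omega)
        exact ⟨.mul s t, by simp [Tm.code, hs, ht]; omega⟩

theorem Fm.exists_code (n : ℕ) : ∃ φ : Fm, φ.code = n := by
  induction n using Nat.strong_induction_on with
  | _ n ih =>
    match n, ih with
    | 0, _ => exact ⟨.bot, rfl⟩
    | n + 1, ih =>
      have hq : ∃ q r, r < 6 ∧ n = 6 * q + r := ⟨n / 6, n % 6, Nat.mod_lt _ (by norm_num), by omega⟩
      obtain ⟨q, r, hr, hn⟩ := hq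
      have h1 : (Nat.unpair q).1 ≤ q := Nat.unpair_left_le q
      have h2 : (Nat.unpair q).2 ≤ q := Nat.unpair_right_le q
      interval_cases r
      · obtain ⟨s, hs⟩ := Tm.exists_code (Nat.unpair q).1
        obtain ⟨t, ht⟩ := Tm.exists_code (Nat.unpair q).2
        exact ⟨.eq s t, by simp [Fm.code, hs, ht]; omega⟩
      · obtain ⟨s, hs⟩ := Tm.exists_code (Nat.unpair q).1
        obtain ⟨t, ht⟩ := Tm.exists_code (Nat.unpair q).2
        exact ⟨.lt s t, by simp [Fm.code, hs, ht]; omega⟩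
      · obtain ⟨s, hs⟩ := Tm.exists_code (Nat.unpair q).1
        exact ⟨.mem s (Nat.unpair q).2, by simp [Fm.code, hs]; omega⟩
      · obtain ⟨s, hs⟩ := ih (Nat.unpair q).1 (by omega)
        obtain ⟨t, ht⟩ := ih (Nat.unpair q).2 (by omega)
        exact ⟨.imp s t, by simp [Fm.code, hs, ht]; omega⟩
      · obtain ⟨t, ht⟩ := ih (Nat.unpair q).2 (by omega)
        exact ⟨.allN (Nat.unpair q).1 t, by simp [Fm.code, ht]; omega⟩
      · obtain ⟨t, ht⟩ := ih (Nat.unpair q).2 (by omega)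
        exact ⟨.allS (Nat.unpair q).1 t, by simp [Fm.code, ht]; omega⟩

/-- the term with Gödel number `n` -/
noncomputable def tdec (n : ℕ) : Tm := (Tm.exists_code n).choose
/-- the formula with Gödel number `n` -/
noncomputable def fdec (n : ℕ) : Fm := (Fm.exists_code n).choose

@[simp] theorem code_tdec (n : ℕ) : (tdec n).code = n := (Tm.exists_code n).choose_spec
@[simp] theorem code_fdec (n : ℕ) : (fdec n).code = n := (Fm.exists_code n).choose_spec
@[simp] theorem tdec_code (t : Tm) : tdec t.code = t := Tm.code_inj (code_tdec _)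
@[simp] theorem fdec_code (φ : Fm) : fdec φ.code = φ := Fm.code_inj (code_fdec _)

/-! ### Application of relations to definable functions -/

section app

variable {D : ((ℕ → ℕ) → Prop) → Prop} (h : DC D)
include h

theorem app4 {R : ℕ → ℕ → ℕ → ℕ → Prop} {F G H I : (ℕ → ℕ) → ℕ}
    (hR : D (fun w => R (w 0) (w 1) (w 2) (w 3)))
    (hF : DT D F) (hG : DT D G) (hH : DT D H) (hI : DT D I) :
    D (fun w => R (F w) (G w) (H w) (I w)) := by
  refine h.sub (R := fun a w => R a (G w) (H w) (I w)) hF ?_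
  refine h.sub (R := fun b w => R (w 0) b (H (fun n => w (n + 1))) (I (fun n => w (n + 1))))
    (F := fun w => G (fun n => w (n + 1))) (h.tren (fun n => n + 1) hG) ?_
  refine h.sub (R := fun c w => R (w 1) (w 0) c (I (fun n => w (n + 2))))
    (F := fun w => H (fun n => w (n + 2))) (h.tren (fun n => n + 2) hH) ?_
  refine h.sub (R := fun c w => R (w 2) (w 1) (w 0) c)
    (F := fun w => I (fun n => w (n + 3))) (h.tren (fun n => n + 3) hI) ?_
  exact h.ren (fun n => 3 - n) hR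

theorem app5 {R : ℕ → ℕ → ℕ → ℕ → ℕ → Prop} {F G H I J : (ℕ → ℕ) → ℕ}
    (hR : D (fun w => R (w 0) (w 1) (w 2) (w 3) (w 4)))
    (hF : DT D F) (hG : DT D G) (hH : DT D H) (hI : DT D I) (hJ : DT D J) :
    D (fun w => R (F w) (G w) (H w) (I w) (J w)) := by
  refine h.sub (R := fun a w => R a (G w) (H w) (I w) (J w)) hF ?_
  refine h.sub (R := fun b w => R (w 0) b (H (fun n => w (n + 1))) (I (fun n => w (n + 1)))
    (J (fun n => w (n + 1))))
    (F := fun w => G (fun n => w (n + 1))) (h.tren (fun n => n + 1) hG) ?_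
  refine h.sub (R := fun c w => R (w 1) (w 0) c (I (fun n => w (n + 2))) (J (fun n => w (n + 2))))
    (F := fun w => H (fun n => w (n + 2))) (h.tren (fun n => n + 2) hH) ?_
  refine h.sub (R := fun c w => R (w 2) (w 1) (w 0) c (J (fun n => w (n + 3))))
    (F := fun w => I (fun n => w (n + 3))) (h.tren (fun n => n + 3) hI) ?_
  refine h.sub (R := fun c w => R (w 3) (w 2) (w 1) (w 0) c)
    (F := fun w => J (fun n => w (n + 4))) (h.tren (fun n => n + 4) hJ) ?_
  exact h.ren (fun n => 4 - n) hR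

theorem app6 {R : ℕ → ℕ → ℕ → ℕ → ℕ → ℕ → Prop} {F G H I J K : (ℕ → ℕ) → ℕ}
    (hR : D (fun w => R (w 0) (w 1) (w 2) (w 3) (w 4) (w 5)))
    (hF : DT D F) (hG : DT D G) (hH : DT D H) (hI : DT D I) (hJ : DT D J) (hK : DT D K) :
    D (fun w => R (F w) (G w) (H w) (I w) (J w) (K w)) := by
  refine h.sub (R := fun a w => R a (G w) (H w) (I w) (J w) (K w)) hF ?_
  refine h.sub (R := fun b w => R (w 0) b (H (fun n => w (n + 1))) (I (fun n => w (n + 1)))
    (J (fun n => w (n + 1))) (K (fun n => w (n + 1))))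
    (F := fun w => G (fun n => w (n + 1))) (h.tren (fun n => n + 1) hG) ?_
  refine h.sub (R := fun c w => R (w 1) (w 0) c (I (fun n => w (n + 2))) (J (fun n => w (n + 2)))
    (K (fun n => w (n + 2))))
    (F := fun w => H (fun n => w (n + 2))) (h.tren (fun n => n + 2) hH) ?_
  refine h.sub (R := fun c w => R (w 2) (w 1) (w 0) c (J (fun n => w (n + 3)))
    (K (fun n => w (n + 3))))
    (F := fun w => I (fun n => w (n + 3))) (h.tren (fun n => n + 3) hI) ?_
  refine h.sub (R := fun c w => R (w 3) (w 2) (w 1) (w 0) c (K (fun n => w (n + 4))))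
    (F := fun w => J (fun n => w (n + 4))) (h.tren (fun n => n + 4) hJ) ?_
  refine h.sub (R := fun c w => R (w 4) (w 3) (w 2) (w 1) (w 0) c)
    (F := fun w => K (fun n => w (n + 5))) (h.tren (fun n => n + 5) hK) ?_
  exact h.ren (fun n => 5 - n) hR

theorem tconst : ∀ n : ℕ, DT D (fun _ => n)
  | 0 => h.tzero
  | n + 1 => h.tadd (tconst n) h.tone

/-- `c * pair F G + d` -/
theorem tcp (c d : ℕ) {F G : (ℕ → ℕ) → ℕ} (hF : DT D F) (hG : DT D G) :
    DT D (fun w => c * Nat.pair (F w) (G w) + d) :=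
  h.tadd (h.tmul (tconst h c) (h.tpair hF hG)) (tconst h d)

/-- definable function given by a definable graph -/
theorem fun1 {F : ℕ → ℕ} (hF : D (fun w => w 0 = F (w 1))) {G : (ℕ → ℕ) → ℕ} (hG : DT D G) :
    DT D (fun w => F (G w)) :=
  h.app2 (R := fun y x => y = F x) hF (h.tvar 0) (h.tren (fun n => n + 1) hG)

theorem fun2 {F : ℕ → ℕ → ℕ} (hF : D (fun w => w 0 = F (w 1) (w 2))) {G H : (ℕ → ℕ) → ℕ}
    (hG : DT D G) (hH : DT D H) : DT D (fun w => F (G w) (H w)) :=
  h.app3 (R := fun y x z => y = F x z) hF (h.tvar 0) (h.tren (fun n => n + 1) hG)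
    (h.tren (fun n => n + 1) hH)

end app

/-! ### Tables -/

theorem exists_beta (f : ℕ → ℕ) (n : ℕ) : ∃ s, ∀ k < n, Nat.beta s k = f k := by
  let l := (List.range n).map f
  have hl : l.length = n := by simp [l]
  refine ⟨Nat.unbeta l, fun k hk => ?_⟩
  have := Nat.beta_unbeta_coe l ⟨k, by omega⟩
  simp only at this
  rw [this]
  simp [l]

section table

variable {D : ((ℕ → ℕ) → Prop) → Prop} (h : DC D)
include h

theorem table {F : ℕ → ℕ → ℕ} {Step : ℕ → ℕ → ℕ → Prop}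
    (hD : D (fun w => Step (w 0) (w 1) (w 2)))
    (h1 : ∀ p s n, (∀ k ≤ n, Nat.beta s k = F p k) → Step p s n)
    (h2 : ∀ p s n, (∀ k < n, Nat.beta s k = F p k) → Step p s n → Nat.beta s n = F p n) :
    D (fun w => w 0 = F (w 1) (w 2)) := by
  refine h.iff (fun w => ?_) (h.ex' (S := fun s w => (∀ k, k ≤ w 2 → Step (w 1) s k) ∧
      w 0 = Nat.beta s (w 2))
    (h.and (h.all' (S := fun k w => k ≤ w 3 → Step (w 2) (w 0) k)
      (h.imp (h.le (h.tvar 0) (h.tvar 4))
        (h.app3 (R := Step) hD (h.tvar 3) (h.tvar 1) (h.tvar 0))))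
      (h.eq (h.tvar 1) (h.tbeta (h.tvar 0) (h.tvar 3)))))
  constructor
  · rintro ⟨s, hs, h0⟩
    rw [h0]
    have : ∀ k, k ≤ w 2 → Nat.beta s k = F (w 1) k := by
      intro k
      induction k using Nat.strong_induction_on with
      | _ k ih =>
        intro hk
        exact h2 _ _ _ (fun l hl => ih l hl (by omega)) (hs k hk)
    exact this _ le_rfl
  · intro h0
    obtain ⟨s, hs⟩ := exists_beta (F (w 1)) (w 2 + 1)
    refine ⟨s, fun k hk => h1 _ _ _ fun l hl => hs l (by omega), ?_⟩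
    rw [h0, hs _ (by omega)]

/-- Recursion on terms. -/
theorem recTm {F : ℕ → Tm → ℕ} {e0 e1 : ℕ → ℕ} {e2 : ℕ → ℕ → ℕ} {e3 e4 : ℕ → ℕ → ℕ → ℕ → ℕ → ℕ}
    (h0 : ∀ p, F p .zero = e0 p) (h1 : ∀ p, F p .one = e1 p) (h2 : ∀ p i, F p (.var i) = e2 p i)
    (h3 : ∀ p s t, F p (.add s t) = e3 p s.code t.code (F p s) (F p t))
    (h4 : ∀ p s t, F p (.mul s t) = e4 p s.code t.code (F p s) (F p t))
    (d0 : D (fun w => w 0 = e0 (w 1))) (d1 : D (fun w => w 0 = e1 (w 1)))
    (d2 : D (fun w => w 0 = e2 (w 1) (w 2)))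
    (d3 : D (fun w => w 0 = e3 (w 1) (w 2) (w 3) (w 4) (w 5)))
    (d4 : D (fun w => w 0 = e4 (w 1) (w 2) (w 3) (w 4) (w 5))) :
    D (fun w => w 0 = F (w 1) (tdec (w 2))) := by
  refine table h (F := fun p n => F p (tdec n)) (Step := fun p s n =>
    (n = 0 → Nat.beta s n = e0 p) ∧ (n = 1 → Nat.beta s n = e1 p) ∧
    (∀ i, n = 3 * i + 2 → Nat.beta s n = e2 p i) ∧
    (∀ a b, n = 3 * Nat.pair a b + 3 →
      Nat.beta s n = e3 p a b (Nat.beta s a) (Nat.beta s b)) ∧
    (∀ a b, n = 3 * Nat.pair a b + 4 →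
      Nat.beta s n = e4 p a b (Nat.beta s a) (Nat.beta s b))) ?_ ?_ ?_
  · refine h.and (h.imp (h.eq (h.tvar 2) h.tzero)
      (h.app2 (R := fun y p => y = e0 p) d0 (h.tbeta (h.tvar 1) (h.tvar 2)) (h.tvar 0))) ?_
    refine h.and (h.imp (h.eq (h.tvar 2) h.tone)
      (h.app2 (R := fun y p => y = e1 p) d1 (h.tbeta (h.tvar 1) (h.tvar 2)) (h.tvar 0))) ?_
    refine h.and (h.all' (S := fun i w => w 2 = 3 * i + 2 → Nat.beta (w 1) (w 2) = e2 (w 0) i)
      (h.imp (h.eq (h.tvar 3) (h.tadd (h.tmul (tconst h 3) (h.tvar 0)) (tconst h 2)))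
        (h.app3 (R := fun y p i => y = e2 p i) d2 (h.tbeta (h.tvar 2) (h.tvar 3)) (h.tvar 1)
          (h.tvar 0)))) ?_
    refine h.and ?_ ?_
    · exact (h.all' (S := fun a w => ∀ b, w 2 = 3 * Nat.pair a b + 3 →
        Nat.beta (w 1) (w 2) = e3 (w 0) a b (Nat.beta (w 1) a) (Nat.beta (w 1) b))
        (h.all' (S := fun b w => w 3 = 3 * Nat.pair (w 0) b + 3 →
        Nat.beta (w 2) (w 3) = e3 (w 1) (w 0) b (Nat.beta (w 2) (w 0)) (Nat.beta (w 2) b))
        (h.imp (h.eq (h.tvar 4) (tcp h 3 3 (h.tvar 1) (h.tvar 0)))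
          (app6 h (R := fun y p a b u v => y = e3 p a b u v) d3 (h.tbeta (h.tvar 3) (h.tvar 4))
            (h.tvar 2) (h.tvar 1) (h.tvar 0) (h.tbeta (h.tvar 3) (h.tvar 1))
            (h.tbeta (h.tvar 3) (h.tvar 0))))))
    · exact (h.all' (S := fun a w => ∀ b, w 2 = 3 * Nat.pair a b + 4 →
        Nat.beta (w 1) (w 2) = e4 (w 0) a b (Nat.beta (w 1) a) (Nat.beta (w 1) b))
        (h.all' (S := fun b w => w 3 = 3 * Nat.pair (w 0) b + 4 →
        Nat.beta (w 2) (w 3) = e4 (w 1) (w 0) b (Nat.beta (w 2) (w 0)) (Nat.beta (w 2) b))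
        (h.imp (h.eq (h.tvar 4) (tcp h 3 4 (h.tvar 1) (h.tvar 0)))
          (app6 h (R := fun y p a b u v => y = e4 p a b u v) d4 (h.tbeta (h.tvar 3) (h.tvar 4))
            (h.tvar 2) (h.tvar 1) (h.tvar 0) (h.tbeta (h.tvar 3) (h.tvar 1))
            (h.tbeta (h.tvar 3) (h.tvar 0))))))
  · intro p s n hs
    have hl : ∀ a b, Nat.pair a b ≥ a ∧ Nat.pair a b ≥ b :=
      fun a b => ⟨Nat.left_le_pair a b, Nat.right_le_pair a b⟩
    refine ⟨?_, ?_, ?_, ?_, ?_⟩
    · rintro rfl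
      rw [hs 0 le_rfl, show tdec 0 = .zero from tdec_code .zero, h0]
    · rintro rfl
      rw [hs 1 le_rfl, show tdec 1 = .one from tdec_code .one, h1]
    · rintro i rfl
      rw [hs _ le_rfl, show tdec (3 * i + 2) = .var i from tdec_code (.var i), h2]
    · rintro a b rfl
      have e : tdec (3 * Nat.pair a b + 3) = .add (tdec a) (tdec b) := by
        apply Tm.code_inj; simp [Tm.code]
      rw [hs _ le_rfl, hs a (by have := hl a b; omega), hs b (by have := hl a b; omega), e, h3,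
        code_tdec, code_tdec]
    · rintro a b rfl
      have e : tdec (3 * Nat.pair a b + 4) = .mul (tdec a) (tdec b) := by
        apply Tm.code_inj; simp [Tm.code]
      rw [hs _ le_rfl, hs a (by have := hl a b; omega), hs b (by have := hl a b; omega), e, h4,
        code_tdec, code_tdec]
  · rintro p s n hs ⟨g0, g1, g2, g3, g4⟩
    have hl : ∀ a b, Nat.pair a b ≥ a ∧ Nat.pair a b ≥ b :=
      fun a b => ⟨Nat.left_le_pair a b, Nat.right_le_pair a b⟩
    obtain ⟨t, rfl⟩ := Tm.exists_code n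
    rw [tdec_code]
    cases t with
    | zero => rw [g0 rfl, h0]
    | one => rw [g1 rfl, h1]
    | var i => rw [g2 i rfl, h2]
    | add s' t' =>
      have := hl s'.code t'.code
      rw [g3 _ _ rfl, hs _ (by simp only [Tm.code]; omega), hs _ (by simp only [Tm.code]; omega),
        h3, tdec_code, tdec_code]
    | mul s' t' =>
      have := hl s'.code t'.code
      rw [g4 _ _ rfl, hs _ (by simp only [Tm.code]; omega), hs _ (by simp only [Tm.code]; omega),
        h4, tdec_code, tdec_code]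

/-- Recursion on formulas. -/
theorem recFm {F : ℕ → Fm → ℕ} {e0 : ℕ → ℕ} {e1 e2 e3 : ℕ → ℕ → ℕ → ℕ}
    {e4 : ℕ → ℕ → ℕ → ℕ → ℕ → ℕ} {e5 e6 : ℕ → ℕ → ℕ → ℕ → ℕ}
    (h0 : ∀ p, F p .bot = e0 p) (h1 : ∀ p s t, F p (.eq s t) = e1 p s.code t.code)
    (h2 : ∀ p s t, F p (.lt s t) = e2 p s.code t.code)
    (h3 : ∀ p t j, F p (.mem t j) = e3 p t.code j)
    (h4 : ∀ p φ ψ, F p (.imp φ ψ) = e4 p φ.code ψ.code (F p φ) (F p ψ))
    (h5 : ∀ p i φ, F p (.allN i φ) = e5 p i φ.code (F p φ))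
    (h6 : ∀ p i φ, F p (.allS i φ) = e6 p i φ.code (F p φ))
    (d0 : D (fun w => w 0 = e0 (w 1)))
    (d1 : D (fun w => w 0 = e1 (w 1) (w 2) (w 3)))
    (d2 : D (fun w => w 0 = e2 (w 1) (w 2) (w 3)))
    (d3 : D (fun w => w 0 = e3 (w 1) (w 2) (w 3)))
    (d4 : D (fun w => w 0 = e4 (w 1) (w 2) (w 3) (w 4) (w 5)))
    (d5 : D (fun w => w 0 = e5 (w 1) (w 2) (w 3) (w 4)))
    (d6 : D (fun w => w 0 = e6 (w 1) (w 2) (w 3) (w 4))) :
    D (fun w => w 0 = F (w 1) (fdec (w 2))) := by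
  refine table h (F := fun p n => F p (fdec n)) (Step := fun p s n =>
    (n = 0 → Nat.beta s n = e0 p) ∧
    (∀ a b, n = 6 * Nat.pair a b + 1 → Nat.beta s n = e1 p a b) ∧
    (∀ a b, n = 6 * Nat.pair a b + 2 → Nat.beta s n = e2 p a b) ∧
    (∀ a b, n = 6 * Nat.pair a b + 3 → Nat.beta s n = e3 p a b) ∧
    (∀ a b, n = 6 * Nat.pair a b + 4 →
      Nat.beta s n = e4 p a b (Nat.beta s a) (Nat.beta s b)) ∧
    (∀ a b, n = 6 * Nat.pair a b + 5 → Nat.beta s n = e5 p a b (Nat.beta s b)) ∧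
    (∀ a b, n = 6 * Nat.pair a b + 6 → Nat.beta s n = e6 p a b (Nat.beta s b))) ?_ ?_ ?_
  · have atom : ∀ (c : ℕ) (e : ℕ → ℕ → ℕ → ℕ) (_ : D (fun w => w 0 = e (w 1) (w 2) (w 3))),
        D (fun w => ∀ a b, w 2 = 6 * Nat.pair a b + c → Nat.beta (w 1) (w 2) = e (w 0) a b) := by
      intro c e d
      exact (h.all' (S := fun a w => ∀ b, w 2 = 6 * Nat.pair a b + c →
        Nat.beta (w 1) (w 2) = e (w 0) a b)
        (h.all' (S := fun b w => w 3 = 6 * Nat.pair (w 0) b + c →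
        Nat.beta (w 2) (w 3) = e (w 1) (w 0) b)
        (h.imp (h.eq (h.tvar 4) (tcp h 6 c (h.tvar 1) (h.tvar 0)))
          (app4 h (R := fun y p a b => y = e p a b) d (h.tbeta (h.tvar 3) (h.tvar 4))
            (h.tvar 2) (h.tvar 1) (h.tvar 0)))))
    have quant : ∀ (c : ℕ) (e : ℕ → ℕ → ℕ → ℕ → ℕ)
        (_ : D (fun w => w 0 = e (w 1) (w 2) (w 3) (w 4))),
        D (fun w => ∀ a b, w 2 = 6 * Nat.pair a b + c →
          Nat.beta (w 1) (w 2) = e (w 0) a b (Nat.beta (w 1) b)) := by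
      intro c e d
      exact (h.all' (S := fun a w => ∀ b, w 2 = 6 * Nat.pair a b + c →
        Nat.beta (w 1) (w 2) = e (w 0) a b (Nat.beta (w 1) b))
        (h.all' (S := fun b w => w 3 = 6 * Nat.pair (w 0) b + c →
        Nat.beta (w 2) (w 3) = e (w 1) (w 0) b (Nat.beta (w 2) b))
        (h.imp (h.eq (h.tvar 4) (tcp h 6 c (h.tvar 1) (h.tvar 0)))
          (app5 h (R := fun y p a b u => y = e p a b u) d (h.tbeta (h.tvar 3) (h.tvar 4))
            (h.tvar 2) (h.tvar 1) (h.tvar 0) (h.tbeta (h.tvar 3) (h.tvar 0))))))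
    refine h.and (h.imp (h.eq (h.tvar 2) h.tzero)
      (h.app2 (R := fun y p => y = e0 p) d0 (h.tbeta (h.tvar 1) (h.tvar 2)) (h.tvar 0))) ?_
    refine h.and (atom 1 e1 d1) (h.and (atom 2 e2 d2) (h.and (atom 3 e3 d3) (h.and ?_
      (h.and (quant 5 e5 d5) (quant 6 e6 d6)))))
    exact (h.all' (S := fun a w => ∀ b, w 2 = 6 * Nat.pair a b + 4 →
        Nat.beta (w 1) (w 2) = e4 (w 0) a b (Nat.beta (w 1) a) (Nat.beta (w 1) b))
        (h.all' (S := fun b w => w 3 = 6 * Nat.pair (w 0) b + 4 →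
        Nat.beta (w 2) (w 3) = e4 (w 1) (w 0) b (Nat.beta (w 2) (w 0)) (Nat.beta (w 2) b))
        (h.imp (h.eq (h.tvar 4) (tcp h 6 4 (h.tvar 1) (h.tvar 0)))
          (app6 h (R := fun y p a b u v => y = e4 p a b u v) d4 (h.tbeta (h.tvar 3) (h.tvar 4))
            (h.tvar 2) (h.tvar 1) (h.tvar 0) (h.tbeta (h.tvar 3) (h.tvar 1))
            (h.tbeta (h.tvar 3) (h.tvar 0))))))
  · intro p s n hs
    have hl : ∀ a b, Nat.pair a b ≥ a ∧ Nat.pair a b ≥ b :=
      fun a b => ⟨Nat.left_le_pair a b, Nat.right_le_pair a b⟩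
    refine ⟨?_, ?_, ?_, ?_, ?_, ?_, ?_⟩
    · rintro rfl
      rw [hs 0 le_rfl, show fdec 0 = .bot from fdec_code .bot, h0]
    · rintro a b rfl
      have e : fdec (6 * Nat.pair a b + 1) = .eq (tdec a) (tdec b) := by
        apply Fm.code_inj; simp [Fm.code]
      rw [hs _ le_rfl, e, h1, code_tdec, code_tdec]
    · rintro a b rfl
      have e : fdec (6 * Nat.pair a b + 2) = .lt (tdec a) (tdec b) := by
        apply Fm.code_inj; simp [Fm.code]
      rw [hs _ le_rfl, e, h2, code_tdec, code_tdec]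
    · rintro a b rfl
      have e : fdec (6 * Nat.pair a b + 3) = .mem (tdec a) b := by
        apply Fm.code_inj; simp [Fm.code]
      rw [hs _ le_rfl, e, h3, code_tdec]
    · rintro a b rfl
      have e : fdec (6 * Nat.pair a b + 4) = .imp (fdec a) (fdec b) := by
        apply Fm.code_inj; simp [Fm.code]
      rw [hs _ le_rfl, hs a (by have := hl a b; omega), hs b (by have := hl a b; omega), e, h4,
        code_fdec, code_fdec]
    · rintro a b rfl
      have e : fdec (6 * Nat.pair a b + 5) = .allN a (fdec b) := by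
        apply Fm.code_inj; simp [Fm.code]
      rw [hs _ le_rfl, hs b (by have := hl a b; omega), e, h5, code_fdec]
    · rintro a b rfl
      have e : fdec (6 * Nat.pair a b + 6) = .allS a (fdec b) := by
        apply Fm.code_inj; simp [Fm.code]
      rw [hs _ le_rfl, hs b (by have := hl a b; omega), e, h6, code_fdec]
  · rintro p s n hs ⟨g0, g1, g2, g3, g4, g5, g6⟩
    have hl : ∀ a b, Nat.pair a b ≥ a ∧ Nat.pair a b ≥ b :=
      fun a b => ⟨Nat.left_le_pair a b, Nat.right_le_pair a b⟩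
    obtain ⟨φ, rfl⟩ := Fm.exists_code n
    rw [fdec_code]
    cases φ with
    | bot => rw [g0 rfl, h0]
    | eq s t => rw [g1 _ _ rfl, h1]
    | lt s t => rw [g2 _ _ rfl, h2]
    | mem s t => rw [g3 _ _ rfl, h3]
    | imp s' t' =>
      have := hl s'.code t'.code
      rw [g4 _ _ rfl, hs _ (by simp only [Fm.code]; omega), hs _ (by simp only [Fm.code]; omega),
        h4, fdec_code, fdec_code]
    | allN i t' =>
      have := hl i t'.code
      rw [g5 _ _ rfl, hs _ (by simp only [Fm.code]; omega), h5, fdec_code]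
    | allS i t' =>
      have := hl i t'.code
      rw [g6 _ _ rfl, hs _ (by simp only [Fm.code]; omega), h6, fdec_code]

end table

end Pool.Agent.D0H65.PS
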