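import Pool.Agent.D0H65.PS.Defs
import Mathlib.Tactic

/-!
# Soundness of the calculus in the standard model
-/

set_option autoImplicit false

namespace Pool.Agent.D0H65.PS

open Function

section simp
variable (φ ψ : Fm) (v : ℕ → ℕ) (V : ℕ → Set ℕ)

@[simp] theorem sat_eq (s t : Tm) : (Fm.eq s t).Sat v V ↔ s.val v = t.val v := Iff.rfl
@[simp] theorem sat_lt (s t : Tm) : (Fm.lt s t).Sat v V ↔ s.val v < t.val v := Iff.rfl
@[simp] theorem sat_mem (t : Tm) (j : ℕ) : (Fm.mem t j).Sat v V ↔ t.val v ∈ V j := Iff.rfl
@[simp] theorem sat_bot : Fm.bot.Sat v V ↔ False := Iff.rfl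
@[simp] theorem sat_imp : (Fm.imp φ ψ).Sat v V ↔ (φ.Sat v V → ψ.Sat v V) := Iff.rfl
@[simp] theorem sat_allN (i : ℕ) : (Fm.allN i φ).Sat v V ↔ ∀ a, φ.Sat (update v i a) V := Iff.rfl
@[simp] theorem sat_allS (j : ℕ) : (Fm.allS j φ).Sat v V ↔ ∀ A, φ.Sat v (update V j A) := Iff.rfl
@[simp] theorem sat_neg : φ.neg.Sat v V ↔ ¬ φ.Sat v V := Iff.rfl
@[simp] theorem sat_and : (φ.and ψ).Sat v V ↔ φ.Sat v V ∧ ψ.Sat v V := by
  simp [Fm.and]
@[simp] theorem sat_or : (φ.or ψ).Sat v V ↔ φ.Sat v V ∨ ψ.Sat v V := by
  simp [Fm.or]; tauto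
@[simp] theorem sat_iff : (φ.iff ψ).Sat v V ↔ (φ.Sat v V ↔ ψ.Sat v V) := by
  simp [Fm.iff]; tauto
@[simp] theorem sat_exN (i : ℕ) : (Fm.exN i φ).Sat v V ↔ ∃ a, φ.Sat (update v i a) V := by
  simp [Fm.exN]
@[simp] theorem sat_exS (j : ℕ) : (Fm.exS j φ).Sat v V ↔ ∃ A, φ.Sat v (update V j A) := by
  simp [Fm.exS]
end simp

@[simp] theorem val_var (v : ℕ → ℕ) (i : ℕ) : (Tm.var i).val v = v i := rfl
@[simp] theorem val_zero (v : ℕ → ℕ) : Tm.zero.val v = 0 := rfl
@[simp] theorem val_one (v : ℕ → ℕ) : Tm.one.val v = 1 := rfl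
@[simp] theorem val_add (v : ℕ → ℕ) (s t : Tm) : (Tm.add s t).val v = s.val v + t.val v := rfl
@[simp] theorem val_mul (v : ℕ → ℕ) (s t : Tm) : (Tm.mul s t).val v = s.val v * t.val v := rfl

theorem val_congr {v v' : ℕ → ℕ} : ∀ {t : Tm}, (∀ i, t.Occ i → v i = v' i) → t.val v = t.val v'
  | .var i, h => h i rfl
  | .zero, _ => rfl
  | .one, _ => rfl
  | .add s t, h => by
    simp only [val_add]
    rw [val_congr (t := s) fun i hi => h i (Or.inl hi),
      val_congr (t := t) fun i hi => h i (Or.inr hi)]
  | .mul s t, h => by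
    simp only [val_mul]
    rw [val_congr (t := s) fun i hi => h i (Or.inl hi),
      val_congr (t := t) fun i hi => h i (Or.inr hi)]

theorem sat_congr : ∀ {φ : Fm} {v v' : ℕ → ℕ} {V V' : ℕ → Set ℕ},
    (∀ i, φ.FreeN i → v i = v' i) → (∀ j, φ.FreeS j → V j = V' j) →
    (φ.Sat v V ↔ φ.Sat v' V')
  | .eq s t, v, v', V, V', h, _ => by
    simp only [sat_eq]
    rw [val_congr (t := s) fun i hi => h i (Or.inl hi),
      val_congr (t := t) fun i hi => h i (Or.inr hi)]
  | .lt s t, v, v', V, V', h, _ => by
    simp only [sat_lt]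
    rw [val_congr (t := s) fun i hi => h i (Or.inl hi),
      val_congr (t := t) fun i hi => h i (Or.inr hi)]
  | .mem t j, v, v', V, V', h, h' => by
    simp only [sat_mem]
    rw [val_congr (t := t) fun i hi => h i hi, h' j rfl]
  | .bot, _, _, _, _, _, _ => Iff.rfl
  | .imp φ ψ, v, v', V, V', h, h' => by
    simp only [sat_imp]
    rw [sat_congr (φ := φ) (fun i hi => h i (Or.inl hi)) (fun j hj => h' j (Or.inl hj)),
      sat_congr (φ := ψ) (fun i hi => h i (Or.inr hi)) (fun j hj => h' j (Or.inr hj))]
  | .allN k φ, v, v', V, V', h, h' => by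
    simp only [sat_allN]
    refine forall_congr' fun a => sat_congr (φ := φ) (fun i hi => ?_) h'
    by_cases hik : i = k
    · subst hik; simp
    · simp [hik, h i ⟨Ne.symm hik, hi⟩]
  | .allS k φ, v, v', V, V', h, h' => by
    simp only [sat_allS]
    refine forall_congr' fun a => sat_congr (φ := φ) h (fun i hi => ?_)
    by_cases hik : i = k
    · subst hik; simp
    · simp [hik, h' i ⟨Ne.symm hik, hi⟩]

theorem sat_upd_of_not_freeN {φ : Fm} {i : ℕ} (h : ¬ φ.FreeN i) (v : ℕ → ℕ) (V : ℕ → Set ℕ)
    (a : ℕ) : φ.Sat (update v i a) V ↔ φ.Sat v V := by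
  refine sat_congr (fun k hk => ?_) (fun _ _ => rfl)
  have : k ≠ i := fun e => h (e ▸ hk)
  simp [this]

theorem sat_upd_of_not_freeS {φ : Fm} {j : ℕ} (h : ¬ φ.FreeS j) (v : ℕ → ℕ) (V : ℕ → Set ℕ)
    (A : Set ℕ) : φ.Sat v (update V j A) ↔ φ.Sat v V := by
  refine sat_congr (fun _ _ => rfl) (fun k hk => ?_)
  have : k ≠ j := fun e => h (e ▸ hk)
  simp [this]

theorem val_sub (i : ℕ) (u : Tm) (v : ℕ → ℕ) :
    ∀ t : Tm, (Tm.sub i u t).val v = t.val (update v i (u.val v))
  | .var k => by
    by_cases h : k = i
    · simp [Tm.sub, h]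
    · simp [Tm.sub, h]
  | .zero => rfl
  | .one => rfl
  | .add s t => by simp [Tm.sub, val_sub i u v s, val_sub i u v t]
  | .mul s t => by simp [Tm.sub, val_sub i u v s, val_sub i u v t]

theorem sat_subN (i : ℕ) (u : Tm) : ∀ (φ : Fm) (v : ℕ → ℕ) (V : ℕ → Set ℕ), φ.OkN i u →
    ((φ.subN i u).Sat v V ↔ φ.Sat (update v i (u.val v)) V)
  | .eq s t, v, V, _ => by simp [Fm.subN, val_sub]
  | .lt s t, v, V, _ => by simp [Fm.subN, val_sub]
  | .mem t j, v, V, _ => by simp [Fm.subN, val_sub]
  | .bot, v, V, _ => Iff.rfl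
  | .imp φ ψ, v, V, h => by simp [Fm.subN, sat_subN i u φ v V h.1, sat_subN i u ψ v V h.2]
  | .allN k φ, v, V, h => by
    by_cases hk : k = i
    · subst hk
      simp [Fm.subN]
    · simp only [Fm.subN, hk, if_false, sat_allN]
      rcases h with (h | h) | ⟨h1, h2⟩
      · exact absurd h hk
      · -- `x_i` is not free in `φ`: substitution does nothing semantically
        refine forall_congr' fun a => ?_
        have key : ∀ (χ : Fm) (w w' : ℕ → ℕ) (W : ℕ → Set ℕ), ¬ χ.FreeN i →
            (∀ l, l ≠ i → w l = w' l) → ((χ.subN i u).Sat w W ↔ χ.Sat w' W) := by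
          intro χ
          induction χ with
          | eq s t =>
            intro w w' W hn hw
            have e : ∀ t : Tm, ¬ t.Occ i → (Tm.sub i u t).val w = t.val w' := by
              intro t ht
              rw [val_sub]
              refine val_congr fun l hl => ?_
              have : l ≠ i := fun e => ht (e ▸ hl)
              simp [this, hw l this]
            simp only [Fm.FreeN, not_or] at hn
            simp [Fm.subN, e s hn.1, e t hn.2]
          | lt s t =>
            intro w w' W hn hw
            have e : ∀ t : Tm, ¬ t.Occ i → (Tm.sub i u t).val w = t.val w' := by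
              intro t ht
              rw [val_sub]
              refine val_congr fun l hl => ?_
              have : l ≠ i := fun e => ht (e ▸ hl)
              simp [this, hw l this]
            simp only [Fm.FreeN, not_or] at hn
            simp [Fm.subN, e s hn.1, e t hn.2]
          | mem t j =>
            intro w w' W hn hw
            have e : ∀ t : Tm, ¬ t.Occ i → (Tm.sub i u t).val w = t.val w' := by
              intro t ht
              rw [val_sub]
              refine val_congr fun l hl => ?_
              have : l ≠ i := fun e => ht (e ▸ hl)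
              simp [this, hw l this]
            simp [Fm.subN, e t hn]
          | bot => intro w w' W hn hw; exact Iff.rfl
          | imp φ ψ ih1 ih2 =>
            intro w w' W hn hw
            simp only [Fm.FreeN, not_or] at hn
            simp [Fm.subN, ih1 w w' W hn.1 hw, ih2 w w' W hn.2 hw]
          | allN l χ ih =>
            intro w w' W hn hw
            by_cases hl : l = i
            · subst hl
              simp only [Fm.subN, if_true, sat_allN]
              refine forall_congr' fun b => ?_
              have : update w l b = update w' l b := by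
                funext p
                by_cases hp : p = l
                · simp [hp]
                · simp [hp, hw p hp]
              rw [this]
            · simp only [Fm.subN, hl, if_false, sat_allN]
              refine forall_congr' fun b => ih _ _ W (fun hf => hn ⟨hl, hf⟩) (fun p hp => ?_)
              by_cases hpl : p = l
              · simp [hpl]
              · simp [hpl, hw p hp]
          | allS l χ ih =>
            intro w w' W hn hw
            simp only [Fm.subN, sat_allS]
            exact forall_congr' fun B => ih _ _ _ hn hw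
        refine key φ _ _ V h (fun l hl => ?_)
        by_cases hlk : l = k
        · subst hlk
          simp
        · simp [hlk, hl]
      · refine forall_congr' fun a => ?_
        rw [sat_subN i u φ _ V h2]
        have : u.val (update v k a) = u.val v :=
          val_congr fun l hl => by
            have : l ≠ k := fun e => h1 (e ▸ hl)
            simp [this]
        rw [this, update_comm (Ne.symm hk)]
  | .allS j φ, v, V, h => by
    simp only [Fm.subN, sat_allS]
    exact forall_congr' fun A => sat_subN i u φ v _ h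

theorem sat_subS (j k : ℕ) : ∀ (φ : Fm) (v : ℕ → ℕ) (V : ℕ → Set ℕ), φ.OkS j k →
    ((φ.subS j k).Sat v V ↔ φ.Sat v (update V j (V k)))
  | .eq s t, v, V, _ => Iff.rfl
  | .lt s t, v, V, _ => Iff.rfl
  | .mem t l, v, V, _ => by
    by_cases h : l = j
    · simp [Fm.subS, h]
    · simp [Fm.subS, h]
  | .bot, v, V, _ => Iff.rfl
  | .imp φ ψ, v, V, h => by simp [Fm.subS, sat_subS j k φ v V h.1, sat_subS j k ψ v V h.2]
  | .allN i φ, v, V, h => by
    simp only [Fm.subS, sat_allN]
    exact forall_congr' fun A => sat_subS j k φ _ V h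
  | .allS l φ, v, V, h => by
    by_cases hl : l = j
    · subst hl
      simp [Fm.subS]
    · simp only [Fm.subS, hl, if_false, sat_allS]
      rcases h with (h | h) | ⟨h1, h2⟩
      · exact absurd h hl
      · refine forall_congr' fun a => ?_
        have key : ∀ (χ : Fm) (w : ℕ → ℕ) (W W' : ℕ → Set ℕ), ¬ χ.FreeS j →
            (∀ l, l ≠ j → W l = W' l) → ((χ.subS j k).Sat w W ↔ χ.Sat w W') := by
          intro χ
          induction χ with
          | eq s t => intro w W W' hn hw; exact Iff.rfl
          | lt s t => intro w W W' hn hw; exact Iff.rfl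
          | mem t m =>
            intro w W W' hn hw
            have hm : m ≠ j := hn
            simp [Fm.subS, hm, hw m hm]
          | bot => intro w W W' hn hw; exact Iff.rfl
          | imp φ ψ ih1 ih2 =>
            intro w W W' hn hw
            simp only [Fm.FreeS, not_or] at hn
            simp [Fm.subS, ih1 w W W' hn.1 hw, ih2 w W W' hn.2 hw]
          | allN m χ ih =>
            intro w W W' hn hw
            simp only [Fm.subS, sat_allN]
            exact forall_congr' fun B => ih _ _ _ hn hw
          | allS m χ ih =>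
            intro w W W' hn hw
            by_cases hm : m = j
            · subst hm
              simp only [Fm.subS, if_true, sat_allS]
              refine forall_congr' fun b => ?_
              have : update W m b = update W' m b := by
                funext p
                by_cases hp : p = m
                · simp [hp]
                · simp [hp, hw p hp]
              rw [this]
            · simp only [Fm.subS, hm, if_false, sat_allS]
              refine forall_congr' fun b => ih _ _ _ (fun hf => hn ⟨hm, hf⟩) (fun p hp => ?_)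
              by_cases hpl : p = m
              · simp [hpl]
              · simp [hpl, hw p hp]
        refine key φ v _ _ h (fun m hm => ?_)
        by_cases hml : m = l
        · subst hml
          simp
        · simp [hml, hm]
      · refine forall_congr' fun a => ?_
        rw [sat_subS j k φ v _ h2]
        have : update V l a k = V k := by simp [Ne.symm h1]
        rw [this, update_comm (Ne.symm hl)]

/-- Derivable formulas follow from the assumptions in the standard model. -/
theorem Prv.sound {Γ : List Fm} {φ : Fm} (h : Prv Γ φ) :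
    ∀ (v : ℕ → ℕ) (V : ℕ → Set ℕ), (∀ ψ ∈ Γ, ψ.Sat v V) → φ.Sat v V := by
  induction h with
  | ax h => intro v V hΓ; exact hΓ _ h
  | weak hs _ ih => intro v V hΓ; exact ih v V fun ψ hψ => hΓ ψ (hs hψ)
  | impI _ ih =>
    intro v V hΓ h1
    refine ih v V fun ψ hψ => ?_
    rcases List.mem_cons.1 hψ with rfl | hψ
    · exact h1
    · exact hΓ ψ hψ
  | impE _ _ ih1 ih2 => intro v V hΓ; exact ih1 v V hΓ (ih2 v V hΓ)
  | dne _ ih => intro v V hΓ; exact not_not.1 (ih v V hΓ)
  | allNI hf _ ih =>
    intro v V hΓ a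
    exact ih _ V fun ψ hψ => (sat_upd_of_not_freeN (hf ψ hψ) v V a).2 (hΓ ψ hψ)
  | allNE hok _ ih => intro v V hΓ; exact (sat_subN _ _ _ v V hok).2 (ih v V hΓ _)
  | allSI hf _ ih =>
    intro v V hΓ A
    exact ih v _ fun ψ hψ => (sat_upd_of_not_freeS (hf ψ hψ) v V A).2 (hΓ ψ hψ)
  | allSE hok _ ih => intro v V hΓ; exact (sat_subS _ _ _ v V hok).2 (ih v V hΓ _)
  | refl => intro v V _; rfl
  | rw h1 h2 _ _ ih1 ih2 =>
    intro v V hΓ
    have e := ih1 v V hΓ
    rw [sat_eq] at e
    rw [sat_subN _ _ _ v V h2, ← e, ← sat_subN _ _ _ v V h1]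
    exact ih2 v V hΓ

theorem IsSentence.sat_iff {φ : Fm} (h : φ.IsSentence) (v : ℕ → ℕ) (V : ℕ → Set ℕ) :
    φ.Sat v V ↔ φ.IsTrue :=
  sat_congr (fun i hi => absurd hi (h.1 i)) (fun j hj => absurd hj (h.2 j))

theorem Thm.sound {T : Set Fm} {φ : Fm} (h : Thm T φ) (v : ℕ → ℕ) (V : ℕ → Set ℕ)
    (hT : ∀ ψ ∈ T, ψ.Sat v V) : φ.Sat v V := by
  obtain ⟨Γ, hΓ, h⟩ := h
  exact h.sound v V fun ψ hψ => hT ψ (hΓ ψ hψ)

/-! ### The axioms of `Σ¹₁-AC₀` are true -/

theorem pairing_inj {a b c d : ℕ} (h : (a + b) * (a + b) + a = (c + d) * (c + d) + c) :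
    a = c ∧ b = d := by
  have h1 : a + b = c + d := by
    rcases lt_trichotomy (a + b) (c + d) with h' | h' | h'
    · exfalso
      have : (a + b + 1) * (a + b + 1) ≤ (c + d) * (c + d) := Nat.mul_le_mul h' h'
      nlinarith
    · exact h'
    · exfalso
      have : (c + d + 1) * (c + d + 1) ≤ (a + b) * (a + b) := Nat.mul_le_mul h' h'
      nlinarith
  rw [h1] at h
  omega

theorem Inst.sat {φ : Fm} (h : Inst φ) (v : ℕ → ℕ) (V : ℕ → Set ℕ) : φ.Sat v V := by
  cases h with
  | succ_ne_zero => simp
  | succ_inj => simp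
  | add_zero => simp
  | add_succ => simp [add_assoc]
  | mul_zero => simp
  | mul_succ => simp [Nat.mul_add]
  | not_lt_zero => simp
  | lt_succ => simp [Nat.le_iff_lt_or_eq]
  | ind =>
    simp only [sat_imp, sat_and, sat_mem, sat_allN, val_zero, val_var, val_add, val_one,
      update_self]
    rintro ⟨h0, h1⟩ a
    induction a with
    | zero => exact h0
    | succ a ih => exact h1 a ih
  | comp i j φ _ hf =>
    simp only [sat_exS, sat_allN, sat_iff, sat_mem, val_var, update_self]
    refine ⟨{a | φ.Sat (update v i a) V}, fun a => ?_⟩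
    rw [sat_upd_of_not_freeS hf]
    rfl
  | choice i m j k φ _ hf hmi hkj =>
    simp only [sat_exS, sat_allN, sat_iff, sat_mem, val_var, update_self, sat_imp, sat_and,
      val_add, val_mul]
    intro h
    choose F hF using h
    refine ⟨{p | ∃ a b, b ∈ F a ∧ p = (a + b) * (a + b) + a}, fun a => ⟨F a, fun b => ?_, ?_⟩⟩
    · rw [update_of_ne hkj, update_self, update_of_ne (Ne.symm hmi), update_self]
      constructor
      · intro hb
        exact ⟨a, b, hb, rfl⟩
      · rintro ⟨a', b', hb, he⟩
        obtain ⟨rfl, rfl⟩ := pairing_inj he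
        exact hb
    · rw [update_comm hkj, sat_upd_of_not_freeS hf]
      exact hF a

theorem sat_closeN {φ : Fm} (V : ℕ → Set ℕ) (h : ∀ v, φ.Sat v V) :
    ∀ (n : ℕ) (v : ℕ → ℕ), (closeN n φ).Sat v V
  | 0, v => h v
  | n + 1, v => fun _ => sat_closeN V h n _

theorem sat_closeS {φ : Fm} (v : ℕ → ℕ) (h : ∀ V, φ.Sat v V) :
    ∀ (n : ℕ) (V : ℕ → Set ℕ), (closeS n φ).Sat v V
  | 0, V => h V
  | n + 1, V => fun _ => sat_closeS v h n _

theorem sigma11AC0_sat {φ : Fm} (h : φ ∈ Sigma11AC0) (v : ℕ → ℕ) (V : ℕ → Set ℕ) : φ.Sat v V := by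
  obtain ⟨_, n, m, ψ, hψ, rfl⟩ := h
  exact sat_closeN V (fun v => sat_closeS v (fun V => hψ.sat v V) m V) n v

end Pool.Agent.D0H65.PS
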