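import Pool.Agent.D0H65.PS.Rec

/-!
# Definability of the syntactic notions
-/

set_option autoImplicit false

namespace Pool.Agent.D0H65.PS

open Function Pool.Agent.Helper180.ArithDef Classical

/-! ### Constructors on Gödel numbers -/

def cvar (i : ℕ) : ℕ := 3 * i + 2
def cadd (a b : ℕ) : ℕ := 3 * Nat.pair a b + 3
def cmul (a b : ℕ) : ℕ := 3 * Nat.pair a b + 4
def ceq (a b : ℕ) : ℕ := 6 * Nat.pair a b + 1
def clt (a b : ℕ) : ℕ := 6 * Nat.pair a b + 2
def cmem (a b : ℕ) : ℕ := 6 * Nat.pair a b + 3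
def cimp (a b : ℕ) : ℕ := 6 * Nat.pair a b + 4
def callN (a b : ℕ) : ℕ := 6 * Nat.pair a b + 5
def callS (a b : ℕ) : ℕ := 6 * Nat.pair a b + 6
def cneg (a : ℕ) : ℕ := cimp a 0
def cand (a b : ℕ) : ℕ := cneg (cimp a (cneg b))
def ciff (a b : ℕ) : ℕ := cand (cimp a b) (cimp b a)
def cexS (j a : ℕ) : ℕ := cneg (callS j (cneg a))

section cons

variable {D : ((ℕ → ℕ) → Prop) → Prop} (h : DC D) {F G : (ℕ → ℕ) → ℕ}
include h

theorem dvar (hF : DT D F) : DT D (fun w => cvar (F w)) :=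
  h.tadd (h.tmul (tconst h 3) hF) (tconst h 2)
theorem dadd (hF : DT D F) (hG : DT D G) : DT D (fun w => cadd (F w) (G w)) := tcp h 3 3 hF hG
theorem dmul (hF : DT D F) (hG : DT D G) : DT D (fun w => cmul (F w) (G w)) := tcp h 3 4 hF hG
theorem deq (hF : DT D F) (hG : DT D G) : DT D (fun w => ceq (F w) (G w)) := tcp h 6 1 hF hG
theorem dlt (hF : DT D F) (hG : DT D G) : DT D (fun w => clt (F w) (G w)) := tcp h 6 2 hF hG
theorem dmem (hF : DT D F) (hG : DT D G) : DT D (fun w => cmem (F w) (G w)) := tcp h 6 3 hF hG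
theorem dimp (hF : DT D F) (hG : DT D G) : DT D (fun w => cimp (F w) (G w)) := tcp h 6 4 hF hG
theorem dallN (hF : DT D F) (hG : DT D G) : DT D (fun w => callN (F w) (G w)) := tcp h 6 5 hF hG
theorem dallS (hF : DT D F) (hG : DT D G) : DT D (fun w => callS (F w) (G w)) := tcp h 6 6 hF hG
theorem dneg (hF : DT D F) : DT D (fun w => cneg (F w)) := dimp h hF h.tzero
theorem dand (hF : DT D F) (hG : DT D G) : DT D (fun w => cand (F w) (G w)) :=
  dneg h (dimp h hF (dneg h hG))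
theorem diff (hF : DT D F) (hG : DT D G) : DT D (fun w => ciff (F w) (G w)) :=
  dand h (dimp h hF hG) (dimp h hG hF)
theorem dexS (hF : DT D F) (hG : DT D G) : DT D (fun w => cexS (F w) (G w)) :=
  dneg h (dallS h hF (dneg h hG))

/-- case distinction -/
theorem dite {Q : (ℕ → ℕ) → Prop} [∀ w, Decidable (Q w)] {F G : (ℕ → ℕ) → ℕ} (hQ : D Q) (hF : D (fun w => w 0 = F w))
    (hG : D (fun w => w 0 = G w)) : D (fun w => w 0 = if Q w then F w else G w) := by
  refine h.iff (fun w => ?_) (h.or (h.and hQ hF) (h.and (h.not hQ) hG))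
  by_cases hw : Q w <;> simp [hw]

theorem dite01 {Q : (ℕ → ℕ) → Prop} [∀ w, Decidable (Q w)] (hQ : D Q) : D (fun w => w 0 = if Q w then 1 else 0) :=
  dite h hQ (h.eq (h.tvar 0) h.tone) (h.eq (h.tvar 0) h.tzero)

end cons

/-! ### Terms -/

section syn

variable {D : ((ℕ → ℕ) → Prop) → Prop} (h : DC D)
include h

theorem dOcc : D (fun w => (tdec (w 1)).Occ (w 0)) := by
  have key : D (fun w => w 0 = (fun p (t : Tm) => if t.Occ p then 1 else 0) (w 1) (tdec (w 2))) := by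
    refine recTm h (F := fun p (t : Tm) => if t.Occ p then 1 else 0)
      (e0 := fun _ => 0) (e1 := fun _ => 0) (e2 := fun p i => if i = p then 1 else 0)
      (e3 := fun _ _ _ x y => if x = 1 ∨ y = 1 then 1 else 0)
      (e4 := fun _ _ _ x y => if x = 1 ∨ y = 1 then 1 else 0) ?_ ?_ ?_ ?_ ?_ ?_ ?_ ?_ ?_ ?_
    · intro p; simp [Tm.Occ]
    · intro p; simp [Tm.Occ]
    · intro p i; by_cases hi : i = p <;> simp [Tm.Occ, hi]
    · intro p s t; by_cases hs : s.Occ p <;> by_cases ht : t.Occ p <;> simp [Tm.Occ, hs, ht]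
    · intro p s t; by_cases hs : s.Occ p <;> by_cases ht : t.Occ p <;> simp [Tm.Occ, hs, ht]
    · exact h.eq (h.tvar 0) h.tzero
    · exact h.eq (h.tvar 0) h.tzero
    · exact dite01 h (h.eq (h.tvar 2) (h.tvar 1))
    · exact dite01 h (h.or (h.eq (h.tvar 4) h.tone) (h.eq (h.tvar 5) h.tone))
    · exact dite01 h (h.or (h.eq (h.tvar 4) h.tone) (h.eq (h.tvar 5) h.tone))
  refine h.iff (fun w => ?_) (h.app3 (R := fun x y z => x = (if (tdec z).Occ y then 1 else 0)) key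
    h.tone (h.tvar 0) (h.tvar 1))
  by_cases hw : (tdec (w 1)).Occ (w 0) <;> simp [hw]

theorem dsubT : D (fun w => w 0 =
    (Tm.sub (w 1).unpair.1 (tdec (w 1).unpair.2) (tdec (w 2))).code) := by
  refine recTm h (F := fun p t => (Tm.sub p.unpair.1 (tdec p.unpair.2) t).code)
    (e0 := fun _ => 0) (e1 := fun _ => 1)
    (e2 := fun p i => if i = p.unpair.1 then p.unpair.2 else cvar i)
    (e3 := fun _ _ _ x y => cadd x y) (e4 := fun _ _ _ x y => cmul x y)
    ?_ ?_ ?_ ?_ ?_ ?_ ?_ ?_ ?_ ?_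
  · intro p; rfl
  · intro p; rfl
  · intro p i
    by_cases hi : i = p.unpair.1
    · simp [Tm.sub, hi]
    · simp [Tm.sub, hi, Tm.code, cvar]
  · intro p s t; rfl
  · intro p s t; rfl
  · exact h.eq (h.tvar 0) h.tzero
  · exact h.eq (h.tvar 0) h.tone
  · exact dite h (h.eq (h.tvar 2) (h.tfst (h.tvar 1))) (h.eq (h.tvar 0) (h.tsnd (h.tvar 1)))
      (h.eq (h.tvar 0) (dvar h (h.tvar 2)))
  · exact h.eq (h.tvar 0) (dadd h (h.tvar 4) (h.tvar 5))
  · exact h.eq (h.tvar 0) (dmul h (h.tvar 4) (h.tvar 5))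

theorem dval : D (fun w => w 0 = (tdec (w 2)).val (Nat.beta (w 1))) := by
  refine recTm h (F := fun p t => t.val (Nat.beta p))
    (e0 := fun _ => 0) (e1 := fun _ => 1) (e2 := fun p i => Nat.beta p i)
    (e3 := fun _ _ _ x y => x + y) (e4 := fun _ _ _ x y => x * y)
    ?_ ?_ ?_ ?_ ?_ ?_ ?_ ?_ ?_ ?_
  · intro p; rfl
  · intro p; rfl
  · intro p i; rfl
  · intro p s t; rfl
  · intro p s t; rfl
  · exact h.eq (h.tvar 0) h.tzero
  · exact h.eq (h.tvar 0) h.tone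
  · exact h.eq (h.tvar 0) (h.tbeta (h.tvar 1) (h.tvar 2))
  · exact h.eq (h.tvar 0) (h.tadd (h.tvar 4) (h.tvar 5))
  · exact h.eq (h.tvar 0) (h.tmul (h.tvar 4) (h.tvar 5))

/-! ### Formulas -/

/-- predicates given by recursion on formulas -/
theorem recPred {Q : ℕ → Fm → Prop} {E0 : ℕ → Prop} {E1 E2 E3 : ℕ → ℕ → ℕ → Prop}
    {E4 : ℕ → ℕ → ℕ → Prop → Prop → Prop} {E5 E6 : ℕ → ℕ → ℕ → Prop → Prop}
    (h0 : ∀ p, Q p .bot ↔ E0 p) (h1 : ∀ p s t, Q p (.eq s t) ↔ E1 p s.code t.code)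
    (h2 : ∀ p s t, Q p (.lt s t) ↔ E2 p s.code t.code)
    (h3 : ∀ p t j, Q p (.mem t j) ↔ E3 p t.code j)
    (h4 : ∀ p φ ψ, Q p (.imp φ ψ) ↔ E4 p φ.code ψ.code (Q p φ) (Q p ψ))
    (h5 : ∀ p i φ, Q p (.allN i φ) ↔ E5 p i φ.code (Q p φ))
    (h6 : ∀ p i φ, Q p (.allS i φ) ↔ E6 p i φ.code (Q p φ))
    (d0 : D (fun w => E0 (w 0)))
    (d1 : D (fun w => E1 (w 0) (w 1) (w 2)))
    (d2 : D (fun w => E2 (w 0) (w 1) (w 2)))
    (d3 : D (fun w => E3 (w 0) (w 1) (w 2)))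
    (d4 : D (fun w => E4 (w 0) (w 1) (w 2) (w 3 = 1) (w 4 = 1)))
    (d5 : D (fun w => E5 (w 0) (w 1) (w 2) (w 3 = 1)))
    (d6 : D (fun w => E6 (w 0) (w 1) (w 2) (w 3 = 1))) :
    D (fun w => Q (w 0) (fdec (w 1))) := by
  have e : ∀ p φ, ((if Q p φ then 1 else 0 : ℕ) = 1) = Q p φ := by
    intro p φ
    by_cases hq : Q p φ <;> simp [hq]
  have key : D (fun w => w 0 = (fun p (φ : Fm) => if Q p φ then 1 else 0) (w 1) (fdec (w 2))) := by
    refine recFm h (F := fun p (φ : Fm) => if Q p φ then 1 else 0)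
      (e0 := fun p => if E0 p then 1 else 0)
      (e1 := fun p a b => if E1 p a b then 1 else 0) (e2 := fun p a b => if E2 p a b then 1 else 0)
      (e3 := fun p a b => if E3 p a b then 1 else 0)
      (e4 := fun p a b x y => if E4 p a b (x = 1) (y = 1) then 1 else 0)
      (e5 := fun p a b x => if E5 p a b (x = 1) then 1 else 0)
      (e6 := fun p a b x => if E6 p a b (x = 1) then 1 else 0)
      ?_ ?_ ?_ ?_ ?_ ?_ ?_ ?_ ?_ ?_ ?_ ?_ ?_ ?_
    · intro p; simp only [h0]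
    · intro p s t; simp only [h1]
    · intro p s t; simp only [h2]
    · intro p s t; simp only [h3]
    · intro p s t; simp only [h4, e]
    · intro p s t; simp only [h5, e]
    · intro p s t; simp only [h6, e]
    · exact dite01 h (h.ren (fun n => n + 1) d0)
    · exact dite01 h (h.ren (fun n => n + 1) d1)
    · exact dite01 h (h.ren (fun n => n + 1) d2)
    · exact dite01 h (h.ren (fun n => n + 1) d3)
    · exact dite01 h (h.ren (fun n => n + 1) d4)
    · exact dite01 h (h.ren (fun n => n + 1) d5)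
    · exact dite01 h (h.ren (fun n => n + 1) d6)
  refine h.iff (fun w => ?_) (h.app3 (R := fun x y z => x = (if Q y (fdec z) then 1 else 0)) key
    h.tone (h.tvar 0) (h.tvar 1))
  rw [eq_comm, e]

theorem dtrue : D (fun _ => True) := h.iff (fun w => by simp) (h.not h.bot)

theorem dFreeN : D (fun w => (fdec (w 1)).FreeN (w 0)) := by
  refine recPred h (Q := fun p φ => φ.FreeN p) (E0 := fun _ => False)
    (E1 := fun p a b => (tdec a).Occ p ∨ (tdec b).Occ p)
    (E2 := fun p a b => (tdec a).Occ p ∨ (tdec b).Occ p)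
    (E3 := fun p a _ => (tdec a).Occ p)
    (E4 := fun _ _ _ x y => x ∨ y) (E5 := fun p i _ x => i ≠ p ∧ x) (E6 := fun _ _ _ x => x)
    ?_ ?_ ?_ ?_ ?_ ?_ ?_ ?_ ?_ ?_ ?_ ?_ ?_ ?_
  · intro p; exact Iff.rfl
  · intro p s t; simp [Fm.FreeN]
  · intro p s t; simp [Fm.FreeN]
  · intro p s t; simp [Fm.FreeN]
  · intro p s t; exact Iff.rfl
  · intro p s t; exact Iff.rfl
  · intro p s t; exact Iff.rfl
  · exact h.bot
  · exact h.or (h.app2 (R := fun x y => (tdec y).Occ x) (dOcc h) (h.tvar 0) (h.tvar 1))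
      (h.app2 (R := fun x y => (tdec y).Occ x) (dOcc h) (h.tvar 0) (h.tvar 2))
  · exact h.or (h.app2 (R := fun x y => (tdec y).Occ x) (dOcc h) (h.tvar 0) (h.tvar 1))
      (h.app2 (R := fun x y => (tdec y).Occ x) (dOcc h) (h.tvar 0) (h.tvar 2))
  · exact dOcc h
  · exact h.or (h.eq (h.tvar 3) h.tone) (h.eq (h.tvar 4) h.tone)
  · exact h.and (h.not (h.eq (h.tvar 1) (h.tvar 0))) (h.eq (h.tvar 3) h.tone)
  · exact h.eq (h.tvar 3) h.tone

theorem dFreeS : D (fun w => (fdec (w 1)).FreeS (w 0)) := by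
  refine recPred h (Q := fun p φ => φ.FreeS p) (E0 := fun _ => False)
    (E1 := fun _ _ _ => False) (E2 := fun _ _ _ => False)
    (E3 := fun p _ j => j = p)
    (E4 := fun _ _ _ x y => x ∨ y) (E5 := fun _ _ _ x => x) (E6 := fun p i _ x => i ≠ p ∧ x)
    ?_ ?_ ?_ ?_ ?_ ?_ ?_ ?_ ?_ ?_ ?_ ?_ ?_ ?_
  · intro p; exact Iff.rfl
  · intro p s t; exact Iff.rfl
  · intro p s t; exact Iff.rfl
  · intro p s t; exact Iff.rfl
  · intro p s t; exact Iff.rfl
  · intro p s t; exact Iff.rfl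
  · intro p s t; exact Iff.rfl
  · exact h.bot
  · exact h.bot
  · exact h.bot
  · exact h.eq (h.tvar 2) (h.tvar 0)
  · exact h.or (h.eq (h.tvar 3) h.tone) (h.eq (h.tvar 4) h.tone)
  · exact h.eq (h.tvar 3) h.tone
  · exact h.and (h.not (h.eq (h.tvar 1) (h.tvar 0))) (h.eq (h.tvar 3) h.tone)

theorem dIsArith : D (fun w => (fdec (w 0)).IsArith) := by
  have key : D (fun w => (fun (_ : ℕ) (φ : Fm) => φ.IsArith) (w 0) (fdec (w 1))) := by
    refine recPred h (Q := fun (_ : ℕ) (φ : Fm) => φ.IsArith) (E0 := fun _ => True)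
      (E1 := fun _ _ _ => True) (E2 := fun _ _ _ => True) (E3 := fun _ _ _ => True)
      (E4 := fun _ _ _ x y => x ∧ y) (E5 := fun _ _ _ x => x) (E6 := fun _ _ _ _ => False)
      ?_ ?_ ?_ ?_ ?_ ?_ ?_ ?_ ?_ ?_ ?_ ?_ ?_ ?_
    · intro p; exact Iff.rfl
    · intro p s t; exact Iff.rfl
    · intro p s t; exact Iff.rfl
    · intro p s t; exact Iff.rfl
    · intro p s t; exact Iff.rfl
    · intro p s t; exact Iff.rfl
    · intro p s t; exact Iff.rfl
    · exact dtrue h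
    · exact dtrue h
    · exact dtrue h
    · exact dtrue h
    · exact h.and (h.eq (h.tvar 3) h.tone) (h.eq (h.tvar 4) h.tone)
    · exact h.eq (h.tvar 3) h.tone
    · exact h.bot
  exact h.app2 (R := fun (_ : ℕ) y => (fdec y).IsArith) key (h.tvar 0) (h.tvar 0)

omit h in
theorem isPi11_iff {φ : Fm} (hφ : ∀ j ψ, φ ≠ .allS j ψ) : φ.IsPi11 ↔ φ.IsArith := by
  constructor
  · intro hp
    cases hp with
    | arith h => exact h
    | all h => exact absurd rfl (hφ _ _)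
  · exact .arith

omit h in
theorem isPi11_allS {j : ℕ} {φ : Fm} : (Fm.allS j φ).IsPi11 ↔ φ.IsPi11 := by
  constructor
  · intro hp
    cases hp with
    | arith h => exact h.elim
    | all h => exact h
  · exact .all

theorem dIsPi11 : D (fun w => (fdec (w 0)).IsPi11) := by
  have key : D (fun w => (fun (_ : ℕ) (φ : Fm) => φ.IsPi11) (w 0) (fdec (w 1))) := by
    refine recPred h (Q := fun (_ : ℕ) (φ : Fm) => φ.IsPi11) (E0 := fun _ => True)
      (E1 := fun _ _ _ => True) (E2 := fun _ _ _ => True) (E3 := fun _ _ _ => True)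
      (E4 := fun _ a b _ _ => (fdec a).IsArith ∧ (fdec b).IsArith)
      (E5 := fun _ _ a _ => (fdec a).IsArith) (E6 := fun _ _ _ x => x)
      ?_ ?_ ?_ ?_ ?_ ?_ ?_ ?_ ?_ ?_ ?_ ?_ ?_ ?_
    · intro p; exact isPi11_iff (by simp)
    · intro p s t; exact isPi11_iff (by simp)
    · intro p s t; exact isPi11_iff (by simp)
    · intro p s t; exact isPi11_iff (by simp)
    · intro p s t; simp only [fdec_code]; exact isPi11_iff (by simp)
    · intro p s t; simp only [fdec_code]; exact isPi11_iff (by simp)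
    · intro p s t; exact isPi11_allS
    · exact dtrue h
    · exact dtrue h
    · exact dtrue h
    · exact dtrue h
    · exact h.and (h.app1 (R := fun x => (fdec x).IsArith) (dIsArith h) (h.tvar 1))
        (h.app1 (R := fun x => (fdec x).IsArith) (dIsArith h) (h.tvar 2))
    · exact h.app1 (R := fun x => (fdec x).IsArith) (dIsArith h) (h.tvar 2)
    · exact h.eq (h.tvar 3) h.tone
  exact h.app2 (R := fun (_ : ℕ) y => (fdec y).IsPi11) key (h.tvar 0) (h.tvar 0)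

theorem dOkN : D (fun w => (fdec (w 1)).OkN (w 0).unpair.1 (tdec (w 0).unpair.2)) := by
  refine recPred h (Q := fun p φ => φ.OkN p.unpair.1 (tdec p.unpair.2)) (E0 := fun _ => True)
    (E1 := fun _ _ _ => True) (E2 := fun _ _ _ => True) (E3 := fun _ _ _ => True)
    (E4 := fun _ _ _ x y => x ∧ y)
    (E5 := fun p k a x => (k = p.unpair.1 ∨ ¬ (fdec a).FreeN p.unpair.1) ∨
      (¬ (tdec p.unpair.2).Occ k ∧ x)) (E6 := fun _ _ _ x => x)
    ?_ ?_ ?_ ?_ ?_ ?_ ?_ ?_ ?_ ?_ ?_ ?_ ?_ ?_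
  · intro p; exact Iff.rfl
  · intro p s t; exact Iff.rfl
  · intro p s t; exact Iff.rfl
  · intro p s t; exact Iff.rfl
  · intro p s t; exact Iff.rfl
  · intro p s t; simp only [fdec_code]; exact Iff.rfl
  · intro p s t; exact Iff.rfl
  · exact dtrue h
  · exact dtrue h
  · exact dtrue h
  · exact dtrue h
  · exact h.and (h.eq (h.tvar 3) h.tone) (h.eq (h.tvar 4) h.tone)
  · exact h.or (h.or (h.eq (h.tvar 1) (h.tfst (h.tvar 0)))
      (h.not (h.app2 (R := fun x y => (fdec y).FreeN x) (dFreeN h) (h.tfst (h.tvar 0))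
        (h.tvar 2))))
      (h.and (h.not (h.app2 (R := fun x y => (tdec y).Occ x) (dOcc h) (h.tvar 1)
        (h.tsnd (h.tvar 0)))) (h.eq (h.tvar 3) h.tone))
  · exact h.eq (h.tvar 3) h.tone

theorem dOkS : D (fun w => (fdec (w 1)).OkS (w 0).unpair.1 (w 0).unpair.2) := by
  refine recPred h (Q := fun p φ => φ.OkS p.unpair.1 p.unpair.2) (E0 := fun _ => True)
    (E1 := fun _ _ _ => True) (E2 := fun _ _ _ => True) (E3 := fun _ _ _ => True)
    (E4 := fun _ _ _ x y => x ∧ y) (E5 := fun _ _ _ x => x)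
    (E6 := fun p l a x => (l = p.unpair.1 ∨ ¬ (fdec a).FreeS p.unpair.1) ∨
      (l ≠ p.unpair.2 ∧ x))
    ?_ ?_ ?_ ?_ ?_ ?_ ?_ ?_ ?_ ?_ ?_ ?_ ?_ ?_
  · intro p; exact Iff.rfl
  · intro p s t; exact Iff.rfl
  · intro p s t; exact Iff.rfl
  · intro p s t; exact Iff.rfl
  · intro p s t; exact Iff.rfl
  · intro p s t; exact Iff.rfl
  · intro p s t; simp only [fdec_code]; exact Iff.rfl
  · exact dtrue h
  · exact dtrue h
  · exact dtrue h
  · exact dtrue h
  · exact h.and (h.eq (h.tvar 3) h.tone) (h.eq (h.tvar 4) h.tone)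
  · exact h.eq (h.tvar 3) h.tone
  · exact h.or (h.or (h.eq (h.tvar 1) (h.tfst (h.tvar 0)))
      (h.not (h.app2 (R := fun x y => (fdec y).FreeS x) (dFreeS h) (h.tfst (h.tvar 0))
        (h.tvar 2))))
      (h.and (h.not (h.eq (h.tvar 1) (h.tsnd (h.tvar 0)))) (h.eq (h.tvar 3) h.tone))

theorem dsubN : D (fun w => w 0 =
    ((fdec (w 2)).subN (w 1).unpair.1 (tdec (w 1).unpair.2)).code) := by
  have hs : ∀ (F G : (ℕ → ℕ) → ℕ), DT D F → DT D G →
      DT D (fun w => (Tm.sub (F w).unpair.1 (tdec (F w).unpair.2) (tdec (G w))).code) :=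
    fun F G hF hG => fun2 h (F := fun p n =>
      (Tm.sub p.unpair.1 (tdec p.unpair.2) (tdec n)).code) (dsubT h) hF hG
  refine recFm h (F := fun p φ => (φ.subN p.unpair.1 (tdec p.unpair.2)).code)
    (e0 := fun _ => 0)
    (e1 := fun p a b => ceq (Tm.sub p.unpair.1 (tdec p.unpair.2) (tdec a)).code
      (Tm.sub p.unpair.1 (tdec p.unpair.2) (tdec b)).code)
    (e2 := fun p a b => clt (Tm.sub p.unpair.1 (tdec p.unpair.2) (tdec a)).code
      (Tm.sub p.unpair.1 (tdec p.unpair.2) (tdec b)).code)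
    (e3 := fun p a j => cmem (Tm.sub p.unpair.1 (tdec p.unpair.2) (tdec a)).code j)
    (e4 := fun _ _ _ x y => cimp x y)
    (e5 := fun p k a x => if k = p.unpair.1 then callN k a else callN k x)
    (e6 := fun _ k _ x => callS k x)
    ?_ ?_ ?_ ?_ ?_ ?_ ?_ ?_ ?_ ?_ ?_ ?_ ?_ ?_
  · intro p; rfl
  · intro p s t; simp [Fm.subN, Fm.code, ceq]
  · intro p s t; simp [Fm.subN, Fm.code, clt]
  · intro p s t; simp [Fm.subN, Fm.code, cmem]
  · intro p s t; rfl
  · intro p k t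
    by_cases hk : k = p.unpair.1
    · simp [Fm.subN, hk, Fm.code, callN]
    · simp [Fm.subN, hk, Fm.code, callN]
  · intro p s t; rfl
  · exact h.eq (h.tvar 0) h.tzero
  · exact h.eq (h.tvar 0) (deq h (hs _ _ (h.tvar 1) (h.tvar 2)) (hs _ _ (h.tvar 1) (h.tvar 3)))
  · exact h.eq (h.tvar 0) (dlt h (hs _ _ (h.tvar 1) (h.tvar 2)) (hs _ _ (h.tvar 1) (h.tvar 3)))
  · exact h.eq (h.tvar 0) (dmem h (hs _ _ (h.tvar 1) (h.tvar 2)) (h.tvar 3))
  · exact h.eq (h.tvar 0) (dimp h (h.tvar 4) (h.tvar 5))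
  · exact dite h (h.eq (h.tvar 2) (h.tfst (h.tvar 1)))
      (h.eq (h.tvar 0) (dallN h (h.tvar 2) (h.tvar 3)))
      (h.eq (h.tvar 0) (dallN h (h.tvar 2) (h.tvar 4)))
  · exact h.eq (h.tvar 0) (dallS h (h.tvar 2) (h.tvar 4))

theorem dsubS : D (fun w => w 0 = ((fdec (w 2)).subS (w 1).unpair.1 (w 1).unpair.2).code) := by
  refine recFm h (F := fun p φ => (φ.subS p.unpair.1 p.unpair.2).code)
    (e0 := fun _ => 0)
    (e1 := fun _ a b => ceq a b)
    (e2 := fun _ a b => clt a b)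
    (e3 := fun p a j => if j = p.unpair.1 then cmem a p.unpair.2 else cmem a j)
    (e4 := fun _ _ _ x y => cimp x y)
    (e5 := fun _ k _ x => callN k x)
    (e6 := fun p k a x => if k = p.unpair.1 then callS k a else callS k x)
    ?_ ?_ ?_ ?_ ?_ ?_ ?_ ?_ ?_ ?_ ?_ ?_ ?_ ?_
  · intro p; rfl
  · intro p s t; rfl
  · intro p s t; rfl
  · intro p s k
    by_cases hk : k = p.unpair.1
    · simp [Fm.subS, hk, Fm.code, cmem]
    · simp [Fm.subS, hk, Fm.code, cmem]
  · intro p s t; rfl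
  · intro p s t; rfl
  · intro p k t
    by_cases hk : k = p.unpair.1
    · simp [Fm.subS, hk, Fm.code, callS]
    · simp [Fm.subS, hk, Fm.code, callS]
  · exact h.eq (h.tvar 0) h.tzero
  · exact h.eq (h.tvar 0) (deq h (h.tvar 2) (h.tvar 3))
  · exact h.eq (h.tvar 0) (dlt h (h.tvar 2) (h.tvar 3))
  · exact dite h (h.eq (h.tvar 3) (h.tfst (h.tvar 1)))
      (h.eq (h.tvar 0) (dmem h (h.tvar 2) (h.tsnd (h.tvar 1))))
      (h.eq (h.tvar 0) (dmem h (h.tvar 2) (h.tvar 3)))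
  · exact h.eq (h.tvar 0) (dimp h (h.tvar 4) (h.tvar 5))
  · exact h.eq (h.tvar 0) (dallN h (h.tvar 2) (h.tvar 4))
  · exact dite h (h.eq (h.tvar 2) (h.tfst (h.tvar 1)))
      (h.eq (h.tvar 0) (dallS h (h.tvar 2) (h.tvar 3)))
      (h.eq (h.tvar 0) (dallS h (h.tvar 2) (h.tvar 4)))

/-- Remove the leading set quantifiers. -/
def strip : Fm → Fm
  | .allS _ φ => strip φ
  | .bot => .bot
  | .eq s t => .eq s t
  | .lt s t => .lt s t
  | .mem t j => .mem t j
  | .imp φ ψ => .imp φ ψ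
  | .allN i φ => .allN i φ

theorem dstrip : D (fun w => w 0 = (strip (fdec (w 1))).code) := by
  have key : D (fun w => w 0 = (fun (_ : ℕ) (φ : Fm) => (strip φ).code) (w 1) (fdec (w 2))) := by
    refine recFm h (F := fun (_ : ℕ) (φ : Fm) => (strip φ).code) (e0 := fun _ => 0)
      (e1 := fun _ a b => ceq a b) (e2 := fun _ a b => clt a b) (e3 := fun _ a j => cmem a j)
      (e4 := fun _ a b _ _ => cimp a b) (e5 := fun _ k a _ => callN k a) (e6 := fun _ _ _ x => x)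
      ?_ ?_ ?_ ?_ ?_ ?_ ?_ ?_ ?_ ?_ ?_ ?_ ?_ ?_
    · intro p; rfl
    · intro p s t; rfl
    · intro p s t; rfl
    · intro p s t; rfl
    · intro p s t; rfl
    · intro p s t; rfl
    · intro p s t; rfl
    · exact h.eq (h.tvar 0) h.tzero
    · exact h.eq (h.tvar 0) (deq h (h.tvar 2) (h.tvar 3))
    · exact h.eq (h.tvar 0) (dlt h (h.tvar 2) (h.tvar 3))
    · exact h.eq (h.tvar 0) (dmem h (h.tvar 2) (h.tvar 3))
    · exact h.eq (h.tvar 0) (dimp h (h.tvar 2) (h.tvar 3))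
    · exact h.eq (h.tvar 0) (dallN h (h.tvar 2) (h.tvar 3))
    · exact h.eq (h.tvar 0) (h.tvar 4)
  exact h.app3 (R := fun y (_ : ℕ) x => y = (strip (fdec x)).code) key (h.tvar 0) (h.tvar 0)
    (h.tvar 1)

theorem dIsSentence : D (fun w => (fdec (w 0)).IsSentence) :=
  h.and (h.all' (S := fun i w => ¬ (fdec (w 0)).FreeN i)
    (h.not (h.app2 (R := fun x y => (fdec y).FreeN x) (dFreeN h) (h.tvar 0) (h.tvar 1))))
    (h.all' (S := fun i w => ¬ (fdec (w 0)).FreeS i)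
    (h.not (h.app2 (R := fun x y => (fdec y).FreeS x) (dFreeS h) (h.tvar 0) (h.tvar 1))))

end syn

end Pool.Agent.D0H65.PS
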