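import Pool.Agent.D0H65.PS.Sound

/-!
# For every correct arithmetization there is a theory with the required properties
-/

set_option autoImplicit false

namespace Pool.Agent.D0H65.PS

open Function

/-! ### Derived rules -/

theorem sub_self (i : ℕ) : ∀ t : Tm, Tm.sub i (.var i) t = t
  | .var k => by by_cases h : k = i <;> simp [Tm.sub, h]
  | .zero => rfl
  | .one => rfl
  | .add s t => by simp [Tm.sub, sub_self i s, sub_self i t]
  | .mul s t => by simp [Tm.sub, sub_self i s, sub_self i t]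

theorem subN_self (i : ℕ) : ∀ φ : Fm, φ.subN i (.var i) = φ
  | .eq s t => by simp [Fm.subN, sub_self]
  | .lt s t => by simp [Fm.subN, sub_self]
  | .mem s t => by simp [Fm.subN, sub_self]
  | .bot => rfl
  | .imp φ ψ => by simp [Fm.subN, subN_self i φ, subN_self i ψ]
  | .allN k φ => by simp [Fm.subN, subN_self i φ]
  | .allS k φ => by simp [Fm.subN, subN_self i φ]

theorem okN_self (i : ℕ) : ∀ φ : Fm, φ.OkN i (.var i)
  | .eq s t => trivial
  | .lt s t => trivial
  | .mem s t => trivial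
  | .bot => trivial
  | .imp φ ψ => ⟨okN_self i φ, okN_self i ψ⟩
  | .allN k φ => by
    by_cases h : k = i
    · exact Or.inl (Or.inl h)
    · exact Or.inr ⟨fun h' => h h'.symm, okN_self i φ⟩
  | .allS k φ => okN_self i φ

theorem subS_self (j : ℕ) : ∀ φ : Fm, φ.subS j j = φ
  | .eq s t => rfl
  | .lt s t => rfl
  | .mem s l => by by_cases h : l = j <;> simp [Fm.subS, h]
  | .bot => rfl
  | .imp φ ψ => by simp [Fm.subS, subS_self j φ, subS_self j ψ]
  | .allN k φ => by simp [Fm.subS, subS_self j φ]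
  | .allS k φ => by simp [Fm.subS, subS_self j φ]

theorem okS_self (j : ℕ) : ∀ φ : Fm, φ.OkS j j
  | .eq s t => trivial
  | .lt s t => trivial
  | .mem s t => trivial
  | .bot => trivial
  | .imp φ ψ => ⟨okS_self j φ, okS_self j ψ⟩
  | .allN k φ => okS_self j φ
  | .allS k φ => by
    by_cases h : k = j
    · exact Or.inl (Or.inl h)
    · exact Or.inr ⟨h, okS_self j φ⟩

namespace Prv

variable {Γ : List Fm} {φ ψ χ : Fm} {i j : ℕ}

theorem wk (h : Prv Γ φ) : Prv (ψ :: Γ) φ := weak (List.subset_cons_self _ _) h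

theorem hd : Prv (φ :: Γ) φ := ax (by simp)

theorem botE (h : Prv Γ .bot) : Prv Γ φ := dne (impI h.wk)

theorem andI (h1 : Prv Γ φ) (h2 : Prv Γ ψ) : Prv Γ (φ.and ψ) :=
  impI (impE (impE hd h1.wk) h2.wk)

theorem andE1 (h : Prv Γ (φ.and ψ)) : Prv Γ φ :=
  dne (impI (impE h.wk (impI (botE (impE (wk hd) hd)))))

theorem andE2 (h : Prv Γ (φ.and ψ)) : Prv Γ ψ :=
  dne (impI (impE h.wk (impI (wk hd))))

theorem byCases (χ : Fm) (h1 : Prv (χ :: Γ) φ) (h2 : Prv (χ.neg :: Γ) φ) : Prv Γ φ :=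
  dne (impI (impE hd (impE (impI h2).wk (impI (impE (wk hd) (impE (impI h1).wk.wk hd))))))

theorem allE (h : Prv Γ (.allN i φ)) : Prv Γ φ := by
  have := allNE (okN_self i φ) h
  rwa [subN_self] at this

theorem allE' (h : Prv Γ (.allS j φ)) : Prv Γ φ := by
  have := allSE (okS_self j φ) h
  rwa [subS_self] at this

theorem exI (h : Prv Γ χ) : Prv Γ (Fm.exN i χ) := impI (impE (allE hd) h.wk)

theorem exE (hΓ : ∀ ψ ∈ Γ, ¬ ψ.FreeN i) (hφ : ¬ φ.FreeN i) (h : Prv Γ (Fm.exN i χ))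
    (h' : Prv (χ :: Γ) φ) : Prv Γ φ := by
  refine dne (impI (impE h.wk (allNI ?_ (impI (impE (wk hd) ?_)))))
  · intro ψ hψ
    rcases List.mem_cons.1 hψ with rfl | hψ
    · simpa [Fm.neg, Fm.FreeN] using hφ
    · exact hΓ ψ hψ
  · exact weak (by
      intro ψ hψ
      rcases List.mem_cons.1 hψ with rfl | hψ
      · simp
      · simp [hψ]) h'

end Prv

/-! ### Numerals -/

/-- The numeral of `n`. -/
def num : ℕ → Tm
  | 0 => .zero
  | n + 1 => .add (num n) .one

@[simp] theorem val_num (v : ℕ → ℕ) : ∀ n, (num n).val v = n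
  | 0 => rfl
  | n + 1 => by simp [num, val_num v n]

theorem occ_num (i : ℕ) : ∀ n, ¬ (num n).Occ i
  | 0 => fun h => h
  | n + 1 => fun h => h.elim (occ_num i n) fun h => h

theorem Tm.code_inj : ∀ {s t : Tm}, s.code = t.code → s = t := by
  intro s
  induction s with
  | var i => intro t h; cases t <;> simp [Tm.code] at h <;> first | omega | simp [h]
  | zero => intro t h; cases t <;> simp [Tm.code] at h <;> rfl
  | one => intro t h; cases t <;> simp [Tm.code] at h <;> rfl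
  | add s1 s2 ih1 ih2 =>
    intro t h
    cases t with
    | add t1 t2 =>
      simp only [Tm.code] at h
      have h' : Nat.pair s1.code s2.code = Nat.pair t1.code t2.code := by omega
      obtain ⟨h1, h2⟩ := Nat.pair_eq_pair.1 h'
      rw [ih1 h1, ih2 h2]
    | _ => simp only [Tm.code] at h; omega
  | mul s1 s2 ih1 ih2 =>
    intro t h
    cases t with
    | mul t1 t2 =>
      simp only [Tm.code] at h
      have h' : Nat.pair s1.code s2.code = Nat.pair t1.code t2.code := by omega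
      obtain ⟨h1, h2⟩ := Nat.pair_eq_pair.1 h'
      rw [ih1 h1, ih2 h2]
    | _ => simp only [Tm.code] at h; omega

theorem Fm.code_inj : ∀ {φ ψ : Fm}, φ.code = ψ.code → φ = ψ := by
  intro φ
  induction φ with
  | eq s t =>
    intro ψ h
    cases ψ with
    | eq s' t' =>
      simp only [Fm.code] at h
      have h' : Nat.pair s.code t.code = Nat.pair s'.code t'.code := by omega
      obtain ⟨h1, h2⟩ := Nat.pair_eq_pair.1 h'
      rw [Tm.code_inj h1, Tm.code_inj h2]
    | _ => simp only [Fm.code] at h; omega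
  | lt s t =>
    intro ψ h
    cases ψ with
    | lt s' t' =>
      simp only [Fm.code] at h
      have h' : Nat.pair s.code t.code = Nat.pair s'.code t'.code := by omega
      obtain ⟨h1, h2⟩ := Nat.pair_eq_pair.1 h'
      rw [Tm.code_inj h1, Tm.code_inj h2]
    | _ => simp only [Fm.code] at h; omega
  | mem t j =>
    intro ψ h
    cases ψ with
    | mem t' j' =>
      simp only [Fm.code] at h
      have h' : Nat.pair t.code j = Nat.pair t'.code j' := by omega
      obtain ⟨h1, h2⟩ := Nat.pair_eq_pair.1 h'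
      rw [Tm.code_inj h1, h2]
    | _ => simp only [Fm.code] at h; omega
  | bot =>
    intro ψ h
    cases ψ with
    | bot => rfl
    | _ => simp only [Fm.code] at h; omega
  | imp φ1 φ2 ih1 ih2 =>
    intro ψ h
    cases ψ with
    | imp ψ1 ψ2 =>
      simp only [Fm.code] at h
      have h' : Nat.pair φ1.code φ2.code = Nat.pair ψ1.code ψ2.code := by omega
      obtain ⟨h1, h2⟩ := Nat.pair_eq_pair.1 h'
      rw [ih1 h1, ih2 h2]
    | _ => simp only [Fm.code] at h; omega
  | allN i φ ih =>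
    intro ψ h
    cases ψ with
    | allN i' ψ =>
      simp only [Fm.code] at h
      have h' : Nat.pair i φ.code = Nat.pair i' ψ.code := by omega
      obtain ⟨h1, h2⟩ := Nat.pair_eq_pair.1 h'
      rw [h1, ih h2]
    | _ => simp only [Fm.code] at h; omega
  | allS i φ ih =>
    intro ψ h
    cases ψ with
    | allS i' ψ =>
      simp only [Fm.code] at h
      have h' : Nat.pair i φ.code = Nat.pair i' ψ.code := by omega
      obtain ⟨h1, h2⟩ := Nat.pair_eq_pair.1 h'
      rw [h1, ih h2]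
    | _ => simp only [Fm.code] at h; omega

/-! ### The construction -/

namespace Arithmetization

variable (A : Arithmetization)

/-- `Π¹₁`-reflection for pure logic. -/
def base : Fm := A.RFN .bot

/-- `∀ x_0 (S(x_0) → (Pr_s(x_0) → θ(x_0, X_j)))` -/
def rho (s : Fm) : Fm := .allN 0 (.imp A.S (.imp (A.Pr s) A.θ))

/-- The `Π¹₁` definition of the theory defined by `s`: `∀ X_j (s(x_2) ∧ rho(X_j))`. -/
def tau (s : Fm) : Fm := .allS A.j (Fm.and s (A.rho s))

variable {A} (hA : A.Correct)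
include hA

theorem Pr_freeN {τ : Fm} (hτ : ∀ i, τ.FreeN i → i = 2) (i : ℕ) (h : (A.Pr τ).FreeN i) :
    i = 0 := by
  simp only [Pr, Fm.exN, Fm.and, Fm.neg, Fm.FreeN, or_false] at h
  obtain ⟨h1, h2 | ⟨h2, h3⟩⟩ := h
  · rcases hA.P_freeN i h2 with h | h
    · exact h
    · exact absurd h.symm h1
  · rcases h3 with h3 | h3
    · rcases hA.E_freeN i h3 with h | h
      · exact absurd h.symm h1
      · exact absurd h.symm h2
    · exact absurd (hτ i h3).symm h2

theorem Pr_freeS {τ : Fm} (hτ : ∀ j, ¬ τ.FreeS j) (j : ℕ) : ¬ (A.Pr τ).FreeS j := by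
  simp only [Pr, Fm.exN, Fm.and, Fm.neg, Fm.FreeS, or_false, not_or]
  exact ⟨hA.P_freeS j, hA.E_freeS j, hτ j⟩

theorem RFN_sentence {τ : Fm} (hτ : ∀ i, τ.FreeN i → i = 2) (hτ' : ∀ j, ¬ τ.FreeS j) :
    (A.RFN τ).IsSentence := by
  constructor
  · rintro i ⟨h0, h | h | h⟩
    · exact h0 (hA.S_freeN i h).symm
    · exact h0 (Pr_freeN hA hτ i h).symm
    · exact h0 (hA.Tr_freeN i h).symm
  · rintro j (h | h | ⟨h1, h2⟩)
    · exact hA.S_freeS j h
    · exact Pr_freeS hA hτ' j h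
    · exact h1 (hA.Tr_freeS j h2).symm

theorem base_sentence : A.base.IsSentence :=
  RFN_sentence hA (τ := .bot) (fun _ h => h.elim) (fun _ h => h)

variable {s : Fm} (hs : ∀ i, s.FreeN i → i = 2) (hs' : ∀ j, ¬ s.FreeS j)
include hs

theorem rho_freeN (i : ℕ) : ¬ (A.rho s).FreeN i := by
  rintro ⟨h0, h | h | h⟩
  · exact h0 (hA.S_freeN i h).symm
  · exact h0 (Pr_freeN hA hs i h).symm
  · exact h0 (hA.Tr_freeN i h).symm

theorem tau_freeN (i : ℕ) (h : (A.tau s).FreeN i) : i = 2 := by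
  simp only [tau, Fm.and, Fm.neg, Fm.FreeN, or_false] at h
  rcases h with h | h
  · exact hs i h
  · exact absurd h (rho_freeN hA hs i)

omit hs
include hs'

theorem rho_freeS (j : ℕ) (h : (A.rho s).FreeS j) : j = A.j := by
  rcases h with h | h | h
  · exact absurd h (hA.S_freeS j)
  · exact absurd h (Pr_freeS hA hs' j)
  · exact hA.Tr_freeS j h

theorem tau_freeS (j : ℕ) : ¬ (A.tau s).FreeS j := by
  simp only [tau, Fm.and, Fm.neg, Fm.FreeS, or_false, not_and, not_or]
  exact fun h => ⟨hs' j, fun h' => h (rho_freeS hA hs' j h').symm⟩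

omit hs'

theorem tau_pi11 (h : s.IsArith) : (A.tau s).IsPi11 := by
  refine .all (.arith ?_)
  simp only [Fm.and, Fm.neg, Fm.IsArith, and_true, rho, Pr, Fm.exN]
  exact ⟨h, hA.S_arith, ⟨hA.P_arith, hA.E_arith, h⟩, hA.Tr_arith⟩

include hs hs'

/-- The derivation. -/
theorem derivation : Prv [A.base] (A.RFN (A.tau s)) := by
  have hb : A.base.IsSentence := base_sentence hA
  refine .allNI (fun ψ hψ => ?_) (.impI (.impI ?_))
  · rw [List.mem_singleton] at hψ; subst hψ; exact hb.1 0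
  refine .allSI (fun ψ hψ => ?_) ?_
  · simp only [List.mem_cons, List.not_mem_nil, or_false] at hψ
    rcases hψ with rfl | rfl | rfl
    · exact Pr_freeS hA (tau_freeS hA hs') _
    · exact hA.S_freeS _
    · exact hb.2 _
  -- from `Pr_τ` and a derivation of `χ` from `τ` derive `Pr_χ`
  have key : ∀ (Γ : List Fm) (χ : Fm), (∀ ψ ∈ Γ, ∀ i, ψ.FreeN i → i = 0) →
      (∀ i, χ.FreeN i → i = 2) → Prv Γ (A.Pr (A.tau s)) →
      Prv (A.tau s :: Γ) χ → Prv Γ (A.Pr χ) := by
    intro Γ χ hΓ hχ h1 h2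
    refine .exE (i := 1) (fun ψ hψ h => absurd (hΓ ψ hψ 1 h) (by norm_num))
      (fun h => absurd (Pr_freeN hA hχ 1 h) (by norm_num)) h1 (.exI (.andI (.andE1 .hd) ?_))
    -- generalize on `x_2`: remove the assumption containing `P`
    have hstep : Prv (.allN 2 (.imp A.E (A.tau s)) :: Γ) (.allN 2 (.imp A.E χ)) := by
      refine .allNI (fun ψ hψ => ?_) (.impI ?_)
      · rcases List.mem_cons.1 hψ with rfl | hψ
        · simp [Fm.FreeN]
        · exact fun h => absurd (hΓ ψ hψ 2 h) (by norm_num)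
      · have e1 : Prv (A.E :: .allN 2 (.imp A.E (A.tau s)) :: Γ) (A.tau s) :=
          .impE (.allE (.wk .hd)) .hd
        have e2 : Prv (A.E :: .allN 2 (.imp A.E (A.tau s)) :: Γ) (.imp (A.tau s) χ) :=
          .wk (.wk (.impI h2))
        exact .impE e2 e1
    exact .impE (.wk (.impI hstep)) (.andE2 .hd)
  refine .byCases (A.rho s) ?_ ?_
  · -- case `rho`
    have h1 : Prv [A.rho s, A.Pr (A.tau s), A.S, A.base] (A.Pr s) := by
      refine key _ _ (fun ψ hψ i hi => ?_) hs (.wk .hd) (.andE1 (.allE' .hd))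
      simp only [List.mem_cons, List.not_mem_nil, or_false] at hψ
      rcases hψ with rfl | rfl | rfl | rfl
      · exact absurd hi (rho_freeN hA hs i)
      · exact Pr_freeN hA (tau_freeN hA hs) i hi
      · exact hA.S_freeN i hi
      · exact absurd hi (hb.1 i)
    exact .impE (.impE (.allE .hd) (.ax (by simp))) h1
  · -- case `¬ rho`
    have h1 : Prv [(A.rho s).neg, A.Pr (A.tau s), A.S, A.base] (A.Pr .bot) := by
      refine key _ _ (fun ψ hψ i hi => ?_) (fun i h => h.elim) (.wk .hd)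
        (.impE (.wk .hd) (.andE2 (.allE' .hd)))
      simp only [List.mem_cons, List.not_mem_nil, or_false] at hψ
      rcases hψ with rfl | rfl | rfl | rfl
      · exact absurd (by simpa [Fm.neg, Fm.FreeN] using hi) (rho_freeN hA hs i)
      · exact Pr_freeN hA (tau_freeN hA hs) i hi
      · exact hA.S_freeN i hi
      · exact absurd hi (hb.1 i)
    have h2 : Prv [(A.rho s).neg, A.Pr (A.tau s), A.S, A.base] A.base := .ax (by simp)
    exact .allE' (.impE (.impE (.allE h2) (.ax (by simp))) h1)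

omit hs hs'

/-- The provability predicate is sound. -/
theorem Pr_sat {τ : Fm} {T : Set Fm} (hτ : ∀ v V, τ.Sat v V → ∀ φ : Fm, v 2 = φ.code → φ ∈ T)
    {v : ℕ → ℕ} {V : ℕ → Set ℕ} (h : (A.Pr τ).Sat v V) : ∃ φ : Fm, v 0 = φ.code ∧ Thm T φ := by
  simp only [Pr, sat_exN, sat_and, sat_allN, sat_imp] at h
  obtain ⟨y, h1, h2⟩ := h
  obtain ⟨Γ, φ, h3, h4, h5⟩ := (hA.P_def _ _).1 h1
  refine ⟨φ, by simpa using h4, Γ, fun ψ hψ => ?_, h5⟩
  exact hτ _ _ (h2 _ (h3 ψ hψ)) ψ (by simp)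

theorem base_sat (v : ℕ → ℕ) (V : ℕ → Set ℕ) : A.base.Sat v V := by
  simp only [base, RFN, sat_allN, sat_imp]
  intro x hS hP
  obtain ⟨φ, hφ1, hφ2, hφ3⟩ := (hA.S_def _ _).1 hS
  obtain ⟨ψ, hψ, hT⟩ := Pr_sat hA (τ := .bot) (T := ∅) (fun v V h => False.elim h) hP
  have : φ = ψ := Fm.code_inj (hφ3.symm.trans hψ)
  subst this
  exact (hA.Tr_def φ hφ1 hφ2 _ _ hφ3).2 (hT.sound _ _ (fun ψ h => h.elim))

theorem rho_sat {T : Set Fm} (hT : Pi11Sound T)
    (hs'' : ∀ v V, s.Sat v V ↔ ∃ φ ∈ T, v 2 = φ.code) (v : ℕ → ℕ) (V : ℕ → Set ℕ) :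
    (A.rho s).Sat v V := by
  simp only [rho, sat_allN, sat_imp]
  intro x hS hP
  obtain ⟨φ, hφ1, hφ2, hφ3⟩ := (hA.S_def _ _).1 hS
  obtain ⟨ψ, hψ, hT'⟩ := Pr_sat hA (T := T) (fun v V h χ hχ => by
    obtain ⟨φ, hφ, h'⟩ := (hs'' v V).1 h
    rw [Fm.code_inj (hχ.symm.trans h')]
    exact hφ) hP
  have : φ = ψ := Fm.code_inj (hφ3.symm.trans hψ)
  subst this
  have h1 := (hA.Tr_def φ hφ1 hφ2 (update v 0 x) V hφ3).2 (hT φ hφ1 hφ2 hT')
  have h2 := h1 (V A.j)
  rwa [update_eq_self] at h2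

/-- **The general form of the theorem.** -/
theorem general {T : Set Fm} (h1 : s.IsArith) (h2 : Defines s T) (h3 : Pi11Sound T)
    (h4 : Thm T (A.RFN .bot)) :
    (A.tau s).IsPi11 ∧ Defines (A.tau s) T ∧ Thm T (A.RFN (A.tau s)) := by
  obtain ⟨hs, hs', hs''⟩ := h2
  refine ⟨tau_pi11 hA h1, ⟨tau_freeN hA hs, tau_freeS hA hs', fun v V => ?_⟩, ?_⟩
  · simp only [tau, sat_allS, sat_and, hs'']
    exact ⟨fun h => (h ∅).1, fun h X => ⟨h, rho_sat hA h3 hs'' _ _⟩⟩
  · obtain ⟨Γ, hΓ, h5⟩ := h4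
    exact ⟨Γ, hΓ, .impE (.weak (List.nil_subset _) (.impI (derivation hA hs hs'))) h5⟩

/-! ### The instance -/

omit hA

/-- The theory: `Σ¹₁-AC₀` plus the true axiom `RFN(⊥)`. -/
def TT (A : Arithmetization) : Set Fm := Sigma11AC0 ∪ {A.RFN .bot}

/-- An arithmetical definition of the theory. -/
def sg (A : Arithmetization) : Fm := Fm.or A.σ (.eq (.var 2) (num A.base.code))

include hA

theorem TT_sat {φ : Fm} (h : φ ∈ A.TT) (v : ℕ → ℕ) (V : ℕ → Set ℕ) : φ.Sat v V := by
  rcases h with h | h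
  · exact sigma11AC0_sat h v V
  · rw [Set.mem_singleton_iff] at h; subst h; exact base_sat hA v V

theorem sg_defines : Defines A.sg A.TT := by
  refine ⟨fun i h => ?_, fun j => ?_, fun v V => ?_⟩
  · simp only [sg, Fm.or, Fm.neg, Fm.FreeN, Tm.Occ, or_false] at h
    rcases h with h | h | h
    · exact hA.σ_freeN i h
    · exact h.symm
    · exact absurd h (occ_num i _)
  · simp only [sg, Fm.or, Fm.neg, Fm.FreeS, or_false]
    exact hA.σ_freeS j
  · simp only [sg, sat_or, sat_eq, val_var, val_num, hA.σ_def]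
    constructor
    · rintro (⟨φ, h1, h2⟩ | h)
      · exact ⟨φ, Or.inl h1, h2⟩
      · exact ⟨_, Or.inr rfl, h⟩
    · rintro ⟨φ, h1 | h1, h2⟩
      · exact Or.inl ⟨φ, h1, h2⟩
      · rw [Set.mem_singleton_iff] at h1; subst h1; exact Or.inr h2

theorem sg_arith : A.sg.IsArith := by
  simp only [sg, Fm.or, Fm.neg, Fm.IsArith, and_true]
  exact hA.σ_arith

theorem TT_sentence {φ : Fm} (h : φ ∈ A.TT) : φ.IsSentence := by
  rcases h with h | h
  · exact h.1
  · rw [Set.mem_singleton_iff] at h; subst h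
    exact base_sentence hA

theorem TT_sound : Pi11Sound A.TT := fun φ _ _ h => h.sound _ _ fun ψ hψ => TT_sat hA hψ _ _

omit hA in
theorem TT_thm : Thm A.TT (A.RFN .bot) := by
  refine ⟨[A.RFN .bot], fun ψ hψ => ?_, .hd⟩
  rw [List.mem_singleton] at hψ
  subst hψ
  exact Or.inr rfl

/-- **The universal form of the theorem.** -/
theorem univ : Sigma11AC0 ⊆ A.TT ∧ (∀ φ ∈ A.TT, φ.IsSentence) ∧ Pi11Sound A.TT ∧
    ∃ τ : Fm, τ.IsPi11 ∧ Defines τ A.TT ∧ Thm A.TT (A.RFN τ) :=
  ⟨Set.subset_union_left, fun _ h => TT_sentence hA h, TT_sound hA, A.tau A.sg,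
    general hA (sg_arith hA) (sg_defines hA) (TT_sound hA) TT_thm⟩

end Arithmetization

end Pool.Agent.D0H65.PS
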